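import Pool.Agent.EllCL.Defs
import Pool.Agent.EllPR.Sums
import Pool.Agent.EllSch.Bridge

/-!
# Functions over an elliptically closed field
-/

open Filter Topology

namespace Pool.Agent.EllCL

open Pool.Agent.EllSch

theorem latticePt_eq (a b : ℂ) (x : ℤ × ℤ) : latticePt a b x = lat a b x := rfl

theorem weierP_eq {a b : ℂ} (h : Ind a b) (z : ℂ) : weierP a b z = wp a b z := (wp_split h z).symm

theorem weierZ_eq {a b : ℂ} (h : Ind a b) (z : ℂ) : weierZ a b z = wz a b z := (wz_split h z).symm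

theorem ind_iff' {a b : ℂ} : LinearIndependent ℝ ![a, b] ↔ Ind a b := (ind_iff a b).symm

variable {K : Subfield ℂ} {ι κ : Type}

/-- substitution -/
theorem EllFun.subst {F : κ → (ι → ℂ) → ℂ} {b : ι → ℂ} (hF : ∀ k, EllFun K b (F k))
    {g : (κ → ℂ) → ℂ} (hg : EllFun K (fun k => F k b) g) :
    EllFun K b fun v => g fun k => F k v := by
  induction hg with
  | const hc => exact .const hc
  | coord i => exact hF i
  | add _ _ h1 h2 => exact h1.add h2
  | mul _ _ h1 h2 => exact h1.mul h2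
  | inv _ h0 h1 => exact h1.inv h0
  | weierP _ _ _ hi ho h1 h2 h3 => exact .weierP h1 h2 h3 hi ho
  | weierZ _ _ _ hi ho h1 h2 h3 => exact .weierZ h1 h2 h3 hi ho

theorem strict_three [Fintype ι] (g : ℂ → ℂ → ℂ → ℂ) {A B C : (ι → ℂ) → ℂ} {b : ι → ℂ}
    {LA LB LC : (ι → ℂ) →L[ℂ] ℂ} (hA : HasStrictFDerivAt A LA b) (hB : HasStrictFDerivAt B LB b)
    (hC : HasStrictFDerivAt C LC b) {L : ℂ × ℂ × ℂ →L[ℂ] ℂ}
    (hL : HasStrictFDerivAt (fun v : ℂ × ℂ × ℂ => g v.1 v.2.1 v.2.2) L (A b, B b, C b)) :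
    HasStrictFDerivAt (fun v => g (A v) (B v) (C v)) (L.comp (LA.prod (LB.prod LC))) b :=
  HasStrictFDerivAt.comp (f := fun v => (A v, B v, C v)) b hL (hA.prodMk (hB.prodMk hC))

/-- near a point where the periods are independent the two forms of the functions agree -/
theorem ev_ind [Fintype ι] {A B : (ι → ℂ) → ℂ} {b : ι → ℂ} (hA : ContinuousAt A b)
    (hB : ContinuousAt B b) (h : Ind (A b) (B b)) : ∀ᶠ v in 𝓝 b, Ind (A v) (B v) :=
  (hA.prodMk hB).eventually (isOpen_ind.mem_nhds h)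

theorem ev_off' [Fintype ι] {A B C : (ι → ℂ) → ℂ} {b : ι → ℂ} (hA : ContinuousAt A b)
    (hB : ContinuousAt B b) (hC : ContinuousAt C b) (h : Ind (A b) (B b))
    (h' : Off (A b) (B b) (C b)) : ∀ᶠ v in 𝓝 b, Ind (A v) (B v) ∧ Off (A v) (B v) (C v) :=
  (hA.prodMk (hB.prodMk hC)).eventually (isOpen_ind_off.mem_nhds ⟨h, h'⟩)

/-- the functions are strictly differentiable -/
theorem EllFun.strict [Fintype ι] {f : (ι → ℂ) → ℂ} {b : ι → ℂ} (hf : EllFun K b f) :
    ∃ L : (ι → ℂ) →L[ℂ] ℂ, HasStrictFDerivAt f L b := by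
  induction hf with
  | const hc => exact ⟨0, hasStrictFDerivAt_const _ _⟩
  | coord i =>
    exact ⟨_, (ContinuousLinearMap.proj (R := ℂ) (φ := fun _ : ι => ℂ) i).hasStrictFDerivAt⟩
  | add _ _ h1 h2 =>
    obtain ⟨L1, h1⟩ := h1
    obtain ⟨L2, h2⟩ := h2
    exact ⟨_, h1.add h2⟩
  | mul _ _ h1 h2 =>
    obtain ⟨L1, h1⟩ := h1
    obtain ⟨L2, h2⟩ := h2
    exact ⟨_, h1.mul h2⟩
  | inv _ h0 h1 =>
    obtain ⟨L1, h1⟩ := h1
    exact ⟨_, HasStrictDerivAt.comp_hasStrictFDerivAt b (hasStrictDerivAt_inv h0) h1⟩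
  | weierP _ _ _ hi ho h1 h2 h3 =>
    obtain ⟨L1, h1⟩ := h1
    obtain ⟨L2, h2⟩ := h2
    obtain ⟨L3, h3⟩ := h3
    have hi' := ind_iff'.1 hi
    obtain ⟨L, hL, -⟩ := fs_wp hi' ho
    refine ⟨_, (strict_three wp h1 h2 h3 hL).congr_of_eventuallyEq ?_⟩
    filter_upwards [ev_ind h1.continuousAt h2.continuousAt hi'] with v hv
    exact (weierP_eq hv _).symm
  | weierZ _ _ _ hi ho h1 h2 h3 =>
    obtain ⟨L1, h1⟩ := h1
    obtain ⟨L2, h2⟩ := h2
    obtain ⟨L3, h3⟩ := h3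
    have hi' := ind_iff'.1 hi
    obtain ⟨L, hL, -⟩ := fs_wz hi' ho
    refine ⟨_, (strict_three wz h1 h2 h3 hL).congr_of_eventuallyEq ?_⟩
    filter_upwards [ev_ind h1.continuousAt h2.continuousAt hi'] with v hv
    exact (weierZ_eq hv _).symm

/-- an elliptically closed field -/
structure CF where
  /-- the field -/
  K : Subfield ℂ
  closed : EllClosed K

/-- membership -/
def IsPR (O : CF) (z : ℂ) : Prop := z ∈ O.K

/-- the field -/
def EF (O : CF) : Subfield ℂ := O.K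

/-- `f` agrees near `b` with a function as above -/
def CA (O : CF) {ι : Type} [Fintype ι] (f : (ι → ℂ) → ℂ) (b : ι → ℂ) : Prop :=
  ∃ f' : (ι → ℂ) → ℂ, EllFun O.K b f' ∧ f =ᶠ[𝓝 b] f'

variable {O : CF} [Fintype ι] [Fintype κ]

theorem mem_EF {z : ℂ} : z ∈ EF O ↔ IsPR O z := Iff.rfl

theorem CA.congr' {f g : (ι → ℂ) → ℂ} {b : ι → ℂ} (h : CA O f b) (hfg : f =ᶠ[𝓝 b] g) :
    CA O g b := by
  obtain ⟨f', h1, h2⟩ := h
  exact ⟨f', h1, hfg.symm.trans h2⟩

theorem EllFun.ca {f : (ι → ℂ) → ℂ} {b : ι → ℂ} (h : EllFun O.K b f) : CA O f b :=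
  ⟨f, h, EventuallyEq.rfl⟩

theorem CA.proj (k : ι) (b : ι → ℂ) : CA O (fun v => v k) b := (EllFun.coord k).ca

theorem CA.const {c : ℂ} (hc : IsPR O c) (b : ι → ℂ) : CA O (fun _ => c) b := (EllFun.const hc).ca

theorem CA.strict {f : (ι → ℂ) → ℂ} {b : ι → ℂ} (h : CA O f b) :
    ∃ L : (ι → ℂ) →L[ℂ] ℂ, HasStrictFDerivAt f L b := by
  obtain ⟨f', h1, h2⟩ := h
  obtain ⟨L, hL⟩ := h1.strict
  exact ⟨L, hL.congr_of_eventuallyEq h2.symm⟩

theorem CA.continuousAt {f : (ι → ℂ) → ℂ} {b : ι → ℂ} (h : CA O f b) : ContinuousAt f b := by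
  obtain ⟨L, hL⟩ := h.strict
  exact hL.continuousAt

/-- composition -/
theorem CA.comp {g : (κ → ℂ) → ℂ} {F : κ → (ι → ℂ) → ℂ} {b : ι → ℂ}
    (hg : CA O g (fun k => F k b)) (hF : ∀ k, CA O (F k) b) :
    CA O (fun v => g fun k => F k v) b := by
  have hcont : ContinuousAt (fun v k => F k v) b := continuousAt_pi.2 fun k => (hF k).continuousAt
  obtain ⟨g', hg1, hg2⟩ := hg
  choose F' hF1 hF2 using hF
  have hb : (fun k => F k b) = fun k => F' k b := funext fun k => (hF2 k).eq_of_nhds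
  have hev : ∀ᶠ v in 𝓝 b, ∀ k, F k v = F' k v := by
    rw [Filter.eventually_all]
    exact hF2
  have h3 : ∀ᶠ v in 𝓝 b, g (fun k => F k v) = g' (fun k => F k v) := hcont.eventually hg2
  rw [hb] at hg1
  refine ⟨_, EllFun.subst hF1 hg1, ?_⟩
  filter_upwards [hev, h3] with v h1 h2
  rw [h2, funext h1]

/-- the value at a point of the field -/
theorem CA.isPR {f : (ι → ℂ) → ℂ} {b : ι → ℂ} (h : CA O f b) (hb : ∀ k, IsPR O (b k)) :
    IsPR O (f b) := by
  obtain ⟨f', h1, h2⟩ := h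
  rw [h2.eq_of_nhds]
  have h3 : EllFun O.K (fun _ : Fin 1 => f' b) fun _ => f' b :=
    EllFun.subst (F := fun k _ => b k) (fun k => EllFun.const (hb k)) h1
  have hm : (-1 : ℂ) ∈ O.K := neg_mem (one_mem _)
  refine O.closed 1 (fun _ => f' b) (fun _ v => v 0 + (-1) * f' b)
    (ContinuousLinearEquiv.refl ℂ _) (fun _ => (EllFun.coord 0).add ((EllFun.const hm).mul h3))
    (fun _ => by ring) ?_ 0
  have h4 : (fun (v : Fin 1 → ℂ) (_ : Fin 1) => v 0 + (-1) * f' b) =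
      fun v => v - fun _ => f' b := by
    funext v i
    rw [Subsingleton.elim i 0, Pi.sub_apply]
    ring
  rw [h4]
  exact (hasFDerivAt_id _).sub_const _

/-- nondegenerate zeros -/
theorem newton {G : (ι → ℂ) → (ι → ℂ)} {b : ι → ℂ} (e : (ι → ℂ) ≃L[ℂ] (ι → ℂ))
    (hG : HasStrictFDerivAt G (e : (ι → ℂ) →L[ℂ] (ι → ℂ)) b) (hG0 : G b = 0)
    (hCA : ∀ k, CA O (fun v => G v k) b) (k : ι) : IsPR O (b k) := by
  classical
  choose G' h1 h2 using hCA
  let σ : ι ≃ Fin (Fintype.card ι) := Fintype.equivFin ι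
  let A : (ι → ℂ) ≃L[ℂ] (Fin (Fintype.card ι) → ℂ) :=
    (LinearEquiv.funCongrLeft ℂ ℂ σ.symm).toContinuousLinearEquiv
  have hA : ∀ v i, A v i = v (σ.symm i) := fun v i => rfl
  have hAs : ∀ v k, A.symm v k = v (σ k) := by
    intro v k
    have h3 : v = A (fun j => v (σ j)) := by
      funext i
      rw [hA, Equiv.apply_symm_apply]
    rw [h3, ContinuousLinearEquiv.symm_apply_apply, ← h3]
  have hbase : ∀ k, (fun i => b (σ.symm i)) (σ k) = b k := fun k => by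
    simp only [Equiv.symm_apply_apply]
  have h3 : ∀ i, EllFun O.K (fun i => b (σ.symm i))
      (fun v : Fin (Fintype.card ι) → ℂ => G' (σ.symm i) fun k => v (σ k)) := by
    intro i
    refine EllFun.subst (F := fun k v => v (σ k)) (fun k => EllFun.coord _) ?_
    have h4 : (fun k => (fun i => b (σ.symm i)) (σ k)) = b := funext hbase
    rw [h4]
    exact h1 _
  have h5 := O.closed (Fintype.card ι) (fun i => b (σ.symm i))
    (fun i v => G' (σ.symm i) fun k => v (σ k)) ((A.symm.trans e).trans A) h3 (fun i => by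
      have h4 : (fun k => (fun i => b (σ.symm i)) (σ k)) = b := funext hbase
      show G' (σ.symm i) (fun k => (fun i => b (σ.symm i)) (σ k)) = 0
      rw [h4, ← (h2 (σ.symm i)).eq_of_nhds, hG0]
      rfl) (by
      have hAb : A.symm (fun i => b (σ.symm i)) = b := by
        funext k
        rw [hAs, Equiv.symm_apply_apply]
      have h6 : HasFDerivAt (fun v => A (G (A.symm v)))
          (((A : (ι → ℂ) →L[ℂ] _).comp (e : (ι → ℂ) →L[ℂ] (ι → ℂ))).comp
            (A.symm : _ →L[ℂ] (ι → ℂ))) (fun i => b (σ.symm i)) := by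
        refine HasFDerivAt.comp (g := fun w => A (G w)) (f := fun v => A.symm v) _ ?_
          A.symm.hasFDerivAt
        rw [hAb]
        exact HasFDerivAt.comp (g := fun w => A w) (f := G) _ A.hasFDerivAt hG.hasFDerivAt
      refine h6.congr_of_eventuallyEq ?_
      have h7 : ∀ᶠ w in 𝓝 b, ∀ k, G w k = G' k w := by
        rw [Filter.eventually_all]
        exact h2
      have h8 : Tendsto (fun v => A.symm v) (𝓝 fun i => b (σ.symm i)) (𝓝 b) := by
        have := A.symm.continuous.tendsto fun i => b (σ.symm i)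
        rwa [hAb] at this
      filter_upwards [h8.eventually h7] with v hv
      funext i
      have h9 : A.symm v = fun k => v (σ k) := funext fun k => hAs v k
      rw [hA, hv, h9]) (σ k)
  rw [Equiv.symm_apply_apply] at h5
  exact h5

/-! ### The field operations -/

theorem CA.add {f g : (ι → ℂ) → ℂ} {b : ι → ℂ} (hf : CA O f b) (hg : CA O g b) :
    CA O (fun v => f v + g v) b := by
  obtain ⟨f', h1, h2⟩ := hf
  obtain ⟨g', h3, h4⟩ := hg
  exact ⟨_, h1.add h3, h2.add h4⟩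

theorem CA.mul {f g : (ι → ℂ) → ℂ} {b : ι → ℂ} (hf : CA O f b) (hg : CA O g b) :
    CA O (fun v => f v * g v) b := by
  obtain ⟨f', h1, h2⟩ := hf
  obtain ⟨g', h3, h4⟩ := hg
  exact ⟨_, h1.mul h3, h2.mul h4⟩

theorem IsPR.zero : IsPR O 0 := O.K.zero_mem
theorem IsPR.one : IsPR O 1 := O.K.one_mem

theorem IsPR.add {x y : ℂ} (hx : IsPR O x) (hy : IsPR O y) : IsPR O (x + y) := O.K.add_mem hx hy
theorem IsPR.mul {x y : ℂ} (hx : IsPR O x) (hy : IsPR O y) : IsPR O (x * y) := O.K.mul_mem hx hy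
theorem IsPR.neg {x : ℂ} (hx : IsPR O x) : IsPR O (-x) := O.K.neg_mem hx
theorem IsPR.inv {x : ℂ} (hx : IsPR O x) : IsPR O x⁻¹ := O.K.inv_mem hx

theorem CA.neg {f : (ι → ℂ) → ℂ} {b : ι → ℂ} (hf : CA O f b) : CA O (fun v => -f v) b := by
  have h1 := (CA.const (O := O) (IsPR.neg IsPR.one) b).mul hf
  simpa only [neg_mul, one_mul] using h1

theorem CA.inv {f : (ι → ℂ) → ℂ} {b : ι → ℂ} (hf : CA O f b) (h0 : f b ≠ 0) :
    CA O (fun v => (f v)⁻¹) b := by
  obtain ⟨f', h1, h2⟩ := hf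
  rw [h2.eq_of_nhds] at h0
  exact ⟨_, h1.inv h0, h2.inv⟩

theorem CA.sub {f g : (ι → ℂ) → ℂ} {b : ι → ℂ} (hf : CA O f b) (hg : CA O g b) :
    CA O (fun v => f v - g v) b := by
  simpa only [sub_eq_add_neg] using hf.add hg.neg

theorem CA.div {f g : (ι → ℂ) → ℂ} {b : ι → ℂ} (hf : CA O f b) (hg : CA O g b) (h0 : g b ≠ 0) :
    CA O (fun v => f v / g v) b := by
  simpa only [div_eq_mul_inv] using hf.mul (hg.inv h0)

theorem CA.pow {f : (ι → ℂ) → ℂ} {b : ι → ℂ} (hf : CA O f b) (m : ℕ) :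
    CA O (fun v => f v ^ m) b := by
  induction m with
  | zero => simpa using CA.const (O := O) IsPR.one b
  | succ m ih => simpa only [pow_succ] using ih.mul hf

theorem CA.sum {κ : Type} (s : Finset κ) {f : κ → (ι → ℂ) → ℂ} {b : ι → ℂ}
    (hf : ∀ k ∈ s, CA O (f k) b) : CA O (fun v => ∑ k ∈ s, f k v) b := by
  classical
  induction s using Finset.induction_on with
  | empty => simpa using CA.const (O := O) IsPR.zero b
  | insert k s hk ih =>
    have h1 := (hf k (Finset.mem_insert_self _ _)).add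
      (ih fun j hj => hf j (Finset.mem_insert_of_mem hj))
    simpa only [Finset.sum_insert hk] using h1

theorem IsPR.ratCast (q : ℚ) : IsPR O (q : ℂ) := SubfieldClass.ratCast_mem O.K q

theorem isPR_natCast (n : ℕ) : IsPR O (n : ℂ) := natCast_mem O.K n

theorem IsPR.I : IsPR O Complex.I := by
  have h1 : HasStrictFDerivAt (fun (v : Fin 1 → ℂ) (_ : Fin 1) => v 0 * v 0 + 1)
      ((ContinuousLinearEquiv.smulLeft (Units.mk0 (2 * Complex.I)
        (mul_ne_zero two_ne_zero Complex.I_ne_zero)) : (Fin 1 → ℂ) ≃L[ℂ] (Fin 1 → ℂ)) :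
        (Fin 1 → ℂ) →L[ℂ] (Fin 1 → ℂ)) (fun _ => Complex.I) := by
    rw [hasStrictFDerivAt_pi']
    intro i
    have h2 : HasStrictFDerivAt (fun v : Fin 1 → ℂ => v 0)
        (ContinuousLinearMap.proj (R := ℂ) (φ := fun _ : Fin 1 => ℂ) 0) (fun _ => Complex.I) :=
      (ContinuousLinearMap.proj (R := ℂ) (φ := fun _ : Fin 1 => ℂ) 0).hasStrictFDerivAt
    have h3 := (h2.mul h2).add_const (1 : ℂ)
    refine h3.congr_fderiv ?_
    ext v
    rw [Subsingleton.elim i 0]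
    simp
    ring
  refine newton (O := O) _ h1 ?_ (fun k => ?_) 0
  · funext i
    simp
  · exact ((CA.proj 0 _).mul (CA.proj 0 _)).add (CA.const IsPR.one _)

theorem isPR_val (x : EllPR.T) : IsPR O (EllPR.val x) := by
  have h1 : ∀ n : ℕ, (n : ℂ) ∈ O.K := fun n => natCast_mem O.K n
  have hI : Complex.I ∈ O.K := IsPR.I
  exact O.K.div_mem (O.K.add_mem (O.K.sub_mem (h1 _) (h1 _))
    (O.K.mul_mem (O.K.sub_mem (h1 _) (h1 _)) hI)) (O.K.add_mem (h1 _) O.K.one_mem)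

end Pool.Agent.EllCL
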