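import Pool.Agent.EllCL.Tower

/-! # The Schanuel inequality along chains of elliptically closed fields -/

open Cardinal

namespace Pool.Agent.EllCL

open Pool.Agent.EllSch

/-- chains of elliptically closed fields in which new elements of `S` appear at each step -/
def Ch (S : Set ℂ) : ℕ → CF → Prop
  | 0, _ => True
  | r + 1, O => ∃ O₁ : CF, O.K ≤ O₁.K ∧ (∃ x ∈ S, x ∈ O₁.K ∧ x ∉ O.K) ∧ Ch S r O₁

theorem add_sub {K K₁ : Subfield ℂ} (hle : K ≤ K₁) {ι κ : Type} [Fintype ι] [Fintype κ]
    {v : ι → ℂ} {x : κ → ℂ}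
    (hx : AlgebraicIndependent K x) (hxK : ∀ j, x j ∈ K₁)
    (hxv : ∀ j, IsAlgebraic (IntermediateField.adjoin K (Set.range v)) (x j)) {N : ℕ}
    (h : HasT K₁ v N) : HasT K v (Fintype.card κ + N) := by
  let _ : Algebra K K₁ := (Subfield.inclusion hle).toAlgebra
  have : IsScalarTower K K₁ ℂ := IsScalarTower.of_algebraMap_eq fun x => rfl
  exact add_tower hx hxK hxv h

theorem unit_indep (O : CF) {x : ℂ} (hx : x ∉ O.K) :
    AlgebraicIndependent O.K (fun _ : Unit => x) := by
  rw [algebraicIndependent_unique_type_iff]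
  exact fun h1 => hx (EF_algClosed (O := O) h1)

theorem alg_of_mem {k : Type} [Field k] [Algebra k ℂ] {S : Set ℂ} {x : ℂ} (hx : x ∈ S) :
    IsAlgebraic (IntermediateField.adjoin k S) x :=
  isAlgebraic_algebraMap (⟨x, IntermediateField.subset_adjoin _ _ hx⟩ :
    IntermediateField.adjoin k S)

theorem hasT_zero {O : CF} {ι : Type} (v : ι → ℂ) : HasT O.K v 0 := by
  have h0 : IsEmpty {x : ι // x ∈ (∅ : Finset ι)} :=
    ⟨fun x => absurd x.2 (Finset.notMem_empty _)⟩
  exact ⟨∅, le_refl _, algebraicIndependent_empty_type_iff.2 (algebraMap O.K ℂ).injective⟩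

/-- the dimension of the space of the `z` in the span of the points with `z / a` in the field -/
noncomputable def md (O : CF) {a b : ℂ} (h : Ind a b) {n : ℕ} (p : Fin n → ℂ) : ℕ :=
  Module.finrank (kfield a b)
    (Submodule.span (kfield a b) (Set.range p) ⊓ WK O h : Submodule (kfield a b) ℂ)

section

variable {a b : ℂ} (h : Ind a b) {n : ℕ} {p : Fin n → ℂ}

theorem WK_mono {O O₁ : CF} (hle : O.K ≤ O₁.K) : WK O h ≤ WK O₁ h := fun _ hz => hle hz

theorem finite_V (O : CF) (p : Fin n → ℂ) : FiniteDimensional (kfield a b)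
    (Submodule.span (kfield a b) (Set.range p) ⊓ WK O h : Submodule (kfield a b) ℂ) := by
  have hfin : FiniteDimensional (kfield a b) (Submodule.span (kfield a b) (Set.range p)) :=
    FiniteDimensional.span_of_finite _ (Set.finite_range _)
  exact Submodule.finiteDimensional_of_le inf_le_left

theorem md_mono {O O₁ : CF} (hle : O.K ≤ O₁.K) (p : Fin n → ℂ) : md O h p ≤ md O₁ h p := by
  have := finite_V h O₁ p
  exact Submodule.finrank_mono (inf_le_inf_left _ (WK_mono h hle))

theorem md_le (O : CF) (hp : LinearIndependent (kfield a b) p) : md O h p ≤ n := by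
  have hfin : FiniteDimensional (kfield a b) (Submodule.span (kfield a b) (Set.range p)) :=
    FiniteDimensional.span_of_finite _ (Set.finite_range _)
  have h2 : Module.finrank (kfield a b) (Submodule.span (kfield a b) (Set.range p)) = n := by
    rw [finrank_span_eq_card hp, Fintype.card_fin]
  exact (Submodule.finrank_mono inf_le_left).trans h2.le

theorem ne_zero_a (h : Ind a b) : a ≠ 0 := by
  rintro rfl
  exact h (by simp)

/-- the scale -/
theorem scale_mem {a b : ℂ} (h : Ind a b) (O : CF) (hτ : b / a ∈ O.K) {c : ℂ} (hc : c ≠ 0)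
    (hcc : (c ^ 4 = G2 a b ∧ G2 (c * a) (c * b) = 1) ∨
      (c ^ 6 = G3 a b ∧ G3 (c * a) (c * b) = 1)) : c * a ∈ O.K ∧ c * b ∈ O.K := by
  have ha0 := ne_zero_a h
  have hca : c * a ∈ O.K := by
    have h1 : Ind 1 (b / a) := by
      have := ind_smul h (inv_ne_zero ha0)
      rwa [inv_mul_cancel₀ ha0, mul_comm, ← div_eq_mul_inv] at this
    have hg2 : G2 1 (b / a) ∈ O.K := isPR_G2 h1 IsPR.one hτ
    have hg3 : G3 1 (b / a) ∈ O.K := isPR_G3 h1 IsPR.one hτ
    have hca0 : c * a ≠ 0 := mul_ne_zero hc ha0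
    have e2 : G2 (c * a) (c * b) = G2 1 (b / a) / (c * a) ^ 4 := by
      rw [← G2_smul hca0, mul_one, mul_assoc, mul_div_cancel₀ _ ha0]
    have e3 : G3 (c * a) (c * b) = G3 1 (b / a) / (c * a) ^ 6 := by
      rw [← G3_smul hca0, mul_one, mul_assoc, mul_div_cancel₀ _ ha0]
    have halg : ∀ x : ℂ, IsAlgebraic O.K x → x ∈ O.K := fun x hx => EF_algClosed (O := O) hx
    rcases hcc with ⟨-, h1⟩ | ⟨-, h1⟩
    · rw [e2, div_eq_one_iff_eq (pow_ne_zero _ hca0)] at h1
      exact Essential.root_mem halg (by norm_num : 0 < 4) (by rw [← h1]; exact hg2)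
    · rw [e3, div_eq_one_iff_eq (pow_ne_zero _ hca0)] at h1
      exact Essential.root_mem halg (by norm_num : 0 < 6) (by rw [← h1]; exact hg3)
  refine ⟨hca, ?_⟩
  have := mul_mem hca hτ
  rwa [mul_assoc, mul_div_cancel₀ _ ha0] at this

theorem relative0 (O : CF) (hτ : b / a ∈ O.K) (hp : LinearIndependent (kfield a b) p) :
    HasT O.K (cnum a b p) (2 * (n - md O h p)) := by
  by_cases hnE : a ∈ O.K ∧ b ∈ O.K ∧ ∀ i, p i ∈ O.K
  · have h3 : (Submodule.span (kfield a b) (Set.range p) ⊓ WK O h : Submodule (kfield a b) ℂ) =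
        Submodule.span (kfield a b) (Set.range p) := by
      rw [inf_eq_left, Submodule.span_le]
      rintro _ ⟨i, rfl⟩
      exact O.K.div_mem (hnE.2.2 i) hnE.1
    have h4 : md O h p = n := by
      unfold md
      rw [h3, finrank_span_eq_card hp, Fintype.card_fin]
    rw [h4, Nat.sub_self, mul_zero]
    exact hasT_zero _
  · obtain ⟨s, hs1, hs2⟩ := relative O h hτ hp hnE
    exact ⟨s, by unfold md; omega, hs2⟩

theorem chainB (hoff : ∀ i, Off a b (p i)) (hp : LinearIndependent (kfield a b) p) :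
    ∀ (r : ℕ) (O : CF), b / a ∈ O.K → Ch (Set.range (cnum a b p)) r O →
      HasT O.K (cnum a b p) (2 * (n - md O h p) + r) := by
  classical
  intro r
  induction r with
  | zero => exact fun O hτ _ => relative0 h O hτ hp
  | succ r ih =>
    rintro O hτ ⟨O₁, hle, ⟨x, hx, hx₁, hx0⟩, hCh⟩
    have IH := ih O₁ (hle hτ) hCh
    have hm1 := md_mono h hle p
    have hm2 := md_le h O₁ hp
    by_cases hm : md O h p = md O₁ h p
    · have h1 := add_sub hle (unit_indep O hx0) (fun _ => hx₁) (fun _ => alg_of_mem hx) IH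
      refine h1.mono ?_
      rw [Fintype.card_unit]
      omega
    · obtain ⟨q, hqU, hqoff, hqi, hspan, hrel⟩ := basis_off h p
        (Submodule.span (kfield a b) (Set.range p) ⊓ WK O₁ h) inf_le_left
      obtain ⟨c, hc, hcc⟩ := Essential.exists_scale h
      obtain ⟨hca, hcb⟩ := scale_mem h O hτ hc hcc
      have h' : Ind (c * a) (c * b) := ind_smul h hc
      have ha0 := ne_zero_a h
      obtain ⟨r', e, he, hr', hind⟩ := exists_sub O h (p := q) hqi
      have hr2 : Module.finrank (kfield a b) (Submodule.span (kfield a b) (Set.range q) ⊓ WK O h :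
          Submodule (kfield a b) ℂ) = md O h p := by
        rw [hspan, inf_assoc, inf_eq_right.2 (WK_mono h hle)]
        rfl
      rw [hr2] at hr'
      have hr3 : r' + md O h p = md O₁ h p := hr'
      have hcq : ∀ j, c * q j ∈ O₁.K := fun j => by
        have h1 : q j / a ∈ O₁.K := (hqU j).2
        have h2 := O₁.K.mul_mem (hle hca) h1
        rwa [mul_assoc, mul_div_cancel₀ _ ha0] at h2
      obtain ⟨s, hs1, hs2⟩ := rel_all (O := O) h' hca hcb r' (fun i => c * q (e i)) (by omega) (by
        rw [EndL_smul hc]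
        intro α hα h0
        apply hind α hα
        have e1 : (∑ i, α i * q (e i)) / a = (∑ i, α i * (c * q (e i))) / (c * a) := by
          have e2 : ∑ i, α i * (c * q (e i)) = c * ∑ i, α i * q (e i) := by
            rw [Finset.mul_sum]
            exact Finset.sum_congr rfl fun i _ => by ring
          rw [e2, mul_div_mul_left _ _ hc]
        rw [e1]
        exact O.K.div_mem h0 hca)
      have h1 := add_sub hle (x := fun i : s => pnum (c * a) (c * b) (fun i => c * q (e i)) i)
        hs2 (by
          rintro ⟨⟨j, k⟩, -⟩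
          have hk : Off (c * a) (c * b) (c * q (e k)) := (off_smul hc _).2 (hqoff (e k))
          fin_cases j
          · exact hcq (e k)
          · exact isPR_wp h' hk (hle hca) (hle hcb) (hcq (e k))
          · exact isPR_wz h' hk (hle hca) (hle hcb) (hcq (e k))) (by
          rintro ⟨⟨j, k⟩, -⟩
          exact alg_scaled h hc (hcc.imp And.left And.left) hoff hqoff hrel
            (Sum.inr (j, e k))) IH
      refine h1.mono ?_
      rw [Fintype.card_coe]
      omega

end

end Pool.Agent.EllCL
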