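import Pool.Agent.EllCL.Chain

/-! # Shapes outside the elliptically closed field -/

open Cardinal

namespace Pool.Agent.EllCL

open Pool.Agent.EllSch

/-- both periods are rational combinations of the points -/
def Per (a b : ℂ) {n : ℕ} (p : Fin n → ℂ) : Prop :=
  a ∈ Submodule.span ℚ (Set.range p) ∧ b ∈ Submodule.span ℚ (Set.range p)

theorem per_of_lat {a b : ℂ} {n : ℕ} {p : Fin n → ℂ} {k k' : Fin n → ℤ} {x x' : ℤ × ℤ}
    (hd : x.1 * x'.2 - x.2 * x'.1 ≠ 0) (hk : ∑ i, (k i : ℂ) * p i = lat a b x)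
    (hk' : ∑ i, (k' i : ℂ) * p i = lat a b x') : Per a b p := by
  have hmem : ∀ m : Fin n → ℤ, ∑ i, (m i : ℂ) * p i ∈ Submodule.span ℚ (Set.range p) := by
    intro m
    refine Submodule.sum_mem _ fun i _ => ?_
    have e : (m i : ℂ) * p i = (m i : ℚ) • p i := by
      rw [Algebra.smul_def]
      simp
    rw [e]
    exact Submodule.smul_mem _ _ (Submodule.subset_span ⟨i, rfl⟩)
  have hx : lat a b x ∈ Submodule.span ℚ (Set.range p) := by
    have := hmem k
    rwa [hk] at this
  have hx' : lat a b x' ∈ Submodule.span ℚ (Set.range p) := by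
    have := hmem k'
    rwa [hk'] at this
  have hd' : ((x.1 : ℂ) * x'.2 - x.2 * x'.1) ≠ 0 := by exact_mod_cast hd
  constructor
  · have e : a = ((x'.2 : ℚ) / ((x.1 : ℚ) * x'.2 - x.2 * x'.1)) • lat a b x -
        ((x.2 : ℚ) / ((x.1 : ℚ) * x'.2 - x.2 * x'.1)) • lat a b x' := by
      rw [Algebra.smul_def, Algebra.smul_def]
      simp only [lat, eq_ratCast, Rat.cast_div, Rat.cast_sub, Rat.cast_mul, Rat.cast_intCast]
      rw [div_mul_eq_mul_div, div_mul_eq_mul_div, ← sub_div, eq_div_iff hd']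
      ring
    rw [e]
    exact Submodule.sub_mem _ (Submodule.smul_mem _ _ hx) (Submodule.smul_mem _ _ hx')
  · have e : b = ((x.1 : ℚ) / ((x.1 : ℚ) * x'.2 - x.2 * x'.1)) • lat a b x' -
        ((x'.1 : ℚ) / ((x.1 : ℚ) * x'.2 - x.2 * x'.1)) • lat a b x := by
      rw [Algebra.smul_def, Algebra.smul_def]
      simp only [lat, eq_ratCast, Rat.cast_div, Rat.cast_sub, Rat.cast_mul, Rat.cast_intCast]
      rw [div_mul_eq_mul_div, div_mul_eq_mul_div, ← sub_div, eq_div_iff hd']
      ring
    rw [e]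
    exact Submodule.sub_mem _ (Submodule.smul_mem _ _ hx') (Submodule.smul_mem _ _ hx)

theorem claimA (O : CF) {a b : ℂ} (h : Ind a b) (hτ : b / a ∉ O.K) {n : ℕ} {p : Fin n → ℂ}
    (hoff : ∀ i, Off a b (p i)) (hp : LinearIndependent ℚ p) :
    HasT O.K (cnum a b p) (2 * n) ∧ (¬ Per a b p → HasT O.K (cnum a b p) (2 * n + 1)) := by
  let v : PIx n → ℂ := Sum.elim ![a, b] p
  have hv : v ∈ UU n := ⟨h, fun i x => hoff i x⟩
  obtain ⟨s, hs1, hs2, hs3⟩ := coreK (O := O) n v hv hτ fun m hm => int_ind hp m hm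
  have hs4 : AlgebraicIndependent O.K (fun i : s => cnum a b p i) := by
    have e : (fun i : s => nev v (ee n i)) = fun i : s => cnum a b p i :=
      funext fun i => nev_ee v i
    rw [← e]
    exact hs1
  refine ⟨⟨s, hs2, hs4⟩, fun hper => ?_⟩
  rcases hs3 with hs3 | ⟨k, k', x, x', hd, hk, hk'⟩
  · exact ⟨s, hs3, hs4⟩
  · exact absurd (per_of_lat hd hk hk') hper

/-- if the shape is not in the field then the only endomorphisms are the integers -/
theorem end_int (O : CF) {a b : ℂ} (h : Ind a b) (hτ : b / a ∉ O.K) {α : ℂ} (hα : α ∈ EndL a b) :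
    ∃ m : ℤ, α = m := by
  have ha0 := ne_zero_a h
  obtain ⟨y, hy⟩ := hα (1, 0)
  have hy' : α * a = y.1 * a + y.2 * b := by simpa [lat] using hy
  have e : α = y.1 + y.2 * (b / a) := by
    field_simp
    linear_combination hy'
  by_cases h2 : y.2 = 0
  · exact ⟨y.1, by rw [e, h2]; simp⟩
  · exfalso
    apply hτ
    have h3 : (y.2 : ℂ) ≠ 0 := by exact_mod_cast h2
    have h4 : b / a = (α - y.1) / y.2 := by
      rw [e]
      field_simp
      ring
    rw [h4]
    exact O.K.div_mem (O.K.sub_mem (end_mem_all O h hα) (intCast_mem _ _)) (intCast_mem _ _)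

theorem li_kfield (O : CF) {a b : ℂ} (h : Ind a b) (hτ : b / a ∉ O.K) {n : ℕ} {p : Fin n → ℂ}
    (hp : LinearIndependent ℚ p) : LinearIndependent (kfield a b) p := by
  rw [kfield_eq]
  apply Pool.Agent.Schn.linInd_closure
  intro α hα h0 i
  choose m hm using fun i => end_int O h hτ (hα i)
  have h1 := int_ind hp m (by rw [← h0]; exact Finset.sum_congr rfl fun i _ => by rw [hm])
  rw [hm, h1]
  simp

theorem li_rat {a b : ℂ} {m : ℕ} {q : Fin m → ℂ} (hq : LinearIndependent (kfield a b) q)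
    {c : ℂ} (hc : c ≠ 0) : LinearIndependent ℚ fun j => c * q j := by
  rw [Fintype.linearIndependent_iff] at hq ⊢
  intro g hg i
  have h1 := hq (fun j => ⟨(g j : ℂ), SubfieldClass.ratCast_mem _ _⟩) (by
    have h2 : c * ∑ j, (g j : ℂ) * q j = 0 := by
      rw [← hg, Finset.mul_sum]
      refine Finset.sum_congr rfl fun j _ => ?_
      rw [Algebra.smul_def, eq_ratCast]
      ring
    rw [← (mul_eq_zero.1 h2).resolve_left hc]
    rfl) i
  have h3 : (g i : ℂ) = 0 := congrArg Subtype.val h1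
  exact_mod_cast h3

theorem per_scaled (O : CF) {a b : ℂ} (h : Ind a b) (hτ : b / a ∉ O.K) {n : ℕ} {p : Fin n → ℂ}
    {m : ℕ} {q : Fin m → ℂ}
    (hpq : ∀ j, ∃ (l : ℕ) (α : Fin n → ℂ), 0 < l ∧ (∀ i, α i ∈ EndL a b) ∧
        (l : ℂ) * q j = ∑ i, α i * p i) {c : ℂ} (hc : c ≠ 0)
    (hper : Per (c * a) (c * b) fun j => c * q j) : Per a b p := by
  have hq : ∀ j, q j ∈ Submodule.span ℚ (Set.range p) := by
    intro j
    obtain ⟨l, α, hl, hα, hlq⟩ := hpq j
    have hl0 : (l : ℂ) ≠ 0 := Nat.cast_ne_zero.2 hl.ne'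
    choose y hy using fun i => end_int O h hτ (hα i)
    have e : q j = ∑ i, ((y i : ℚ) / l) • p i := by
      rw [← mul_right_inj' hl0, hlq, Finset.mul_sum]
      refine Finset.sum_congr rfl fun i _ => ?_
      rw [Algebra.smul_def, eq_ratCast, hy]
      push_cast
      field_simp
    rw [e]
    exact Submodule.sum_mem _ fun i _ => Submodule.smul_mem _ _ (Submodule.subset_span ⟨i, rfl⟩)
  have key : ∀ z, c * z ∈ Submodule.span ℚ (Set.range fun j => c * q j) →
      z ∈ Submodule.span ℚ (Set.range p) := by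
    intro z hz
    rw [Submodule.mem_span_range_iff_exists_fun] at hz
    obtain ⟨g, hg⟩ := hz
    have e : z = ∑ j, g j • q j := by
      rw [← mul_right_inj' hc, ← hg, Finset.mul_sum]
      refine Finset.sum_congr rfl fun j _ => ?_
      rw [Algebra.smul_def, Algebra.smul_def]
      ring
    rw [e]
    exact Submodule.sum_mem _ fun j _ => Submodule.smul_mem _ _ (hq j)
  exact ⟨key a hper.1, key b hper.2⟩

theorem chainA {a b : ℂ} (h : Ind a b) {n : ℕ} {p : Fin n → ℂ} (hoff : ∀ i, Off a b (p i))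
    (hp : LinearIndependent ℚ p) :
    ∀ (r : ℕ) (O : CF), b / a ∉ O.K → Ch (Set.range (cnum a b p)) r O →
      HasT O.K (cnum a b p) (2 * n + r - 1) ∧
      (¬ Per a b p → HasT O.K (cnum a b p) (2 * n + r)) := by
  classical
  intro r
  induction r with
  | zero =>
    intro O hτ _
    obtain ⟨h1, h2⟩ := claimA O h hτ hoff hp
    exact ⟨h1.mono (by omega), fun _ => h1.mono (by omega)⟩
  | succ r ih =>
    rintro O hτ ⟨O₁, hle, ⟨x, hx, hx₁, hx0⟩, hCh⟩
    by_cases hτ₁ : b / a ∈ O₁.K
    swap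
    · obtain ⟨h1, h2⟩ := ih O₁ hτ₁ hCh
      have key : ∀ N, HasT O₁.K (cnum a b p) N → HasT O.K (cnum a b p) (1 + N) := by
        intro N hN
        have h3 := add_sub hle (unit_indep O hx0) (fun _ => hx₁) (fun _ => alg_of_mem hx) hN
        rwa [Fintype.card_unit] at h3
      exact ⟨(key _ h1).mono (by omega), fun hper => (key _ (h2 hper)).mono (by omega)⟩
    · have hpk := li_kfield O h hτ hp
      have IH := chainB h hoff hpk r O₁ hτ₁ hCh
      have hm2 := md_le h O₁ hpk
      obtain ⟨q, hqU, hqoff, hqi, -, hrel⟩ := basis_off h p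
        (Submodule.span (kfield a b) (Set.range p) ⊓ WK O₁ h) inf_le_left
      obtain ⟨c, hc, hcc⟩ := Essential.exists_scale h
      obtain ⟨hca, hcb⟩ := scale_mem h O₁ hτ₁ hc hcc
      have h' : Ind (c * a) (c * b) := ind_smul h hc
      have ha0 := ne_zero_a h
      have hcq : ∀ j, c * q j ∈ O₁.K := fun j => by
        have h1 : q j / a ∈ O₁.K := (hqU j).2
        have h2 := O₁.K.mul_mem hca h1
        rwa [mul_assoc, mul_div_cancel₀ _ ha0] at h2
      have hτ' : c * b / (c * a) ∉ O.K := by rwa [mul_div_mul_left _ _ hc]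
      have hqoff' : ∀ j, Off (c * a) (c * b) (c * q j) := fun j => (off_smul hc _).2 (hqoff j)
      obtain ⟨h1, h2⟩ := claimA O h' hτ' hqoff' (li_rat hqi hc)
      have key : ∀ N, HasT O.K (cnum (c * a) (c * b) fun j => c * q j) N →
          HasT O.K (cnum a b p) (N + (2 * (n - md O₁ h p) + r)) := by
        rintro N ⟨s, hs1, hs2⟩
        have h3 := add_sub hle (x := fun i : s => cnum (c * a) (c * b) (fun j => c * q j) i)
          hs2 (by
            rintro ⟨(j | ⟨j, k⟩), -⟩
            · fin_cases j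
              · exact isPR_G2 h' hca hcb
              · exact isPR_G3 h' hca hcb
            · fin_cases j
              · exact hcq k
              · exact isPR_wp h' (hqoff' k) hca hcb (hcq k)
              · exact isPR_wz h' (hqoff' k) hca hcb (hcq k))
          (fun i => alg_scaled h hc (hcc.imp And.left And.left) hoff hqoff hrel i) IH
        rw [Fintype.card_coe] at h3
        exact h3.mono (by omega)
      have e : Module.finrank (kfield a b) (Submodule.span (kfield a b) (Set.range p) ⊓ WK O₁ h :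
          Submodule (kfield a b) ℂ) = md O₁ h p := rfl
      refine ⟨(key _ h1).mono (by omega), fun hper => (key _ (h2 fun h4 => hper ?_)).mono
        (by omega)⟩
      exact per_scaled O h hτ hrel hc h4

/-- a lattice with invariants in the field has periods in the field -/
theorem period_mem (O : CF) {a b : ℂ} (h : Ind a b) (h2 : G2 a b ∈ O.K) (h3 : G3 a b ∈ O.K) :
    a ∈ O.K ∧ b ∈ O.K := by
  have ha0 := ne_zero_a h
  by_cases hτ : b / a ∈ O.K
  · obtain ⟨c, hc, hcc⟩ := Essential.exists_scale h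
    obtain ⟨hca, hcb⟩ := scale_mem h O hτ hc hcc
    have halg : ∀ x : ℂ, IsAlgebraic O.K x → x ∈ O.K := fun x hx => EF_algClosed (O := O) hx
    have hcK : c ∈ O.K := by
      rcases hcc with ⟨h1, -⟩ | ⟨h1, -⟩
      · exact Essential.root_mem halg (by norm_num : 0 < 4) (by rw [h1]; exact h2)
      · exact Essential.root_mem halg (by norm_num : 0 < 6) (by rw [h1]; exact h3)
    constructor
    · have := O.K.div_mem hca hcK
      rwa [mul_div_cancel_left₀ _ hc] at this
    · have := O.K.div_mem hcb hcK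
      rwa [mul_div_cancel_left₀ _ hc] at this
  · exfalso
    obtain ⟨-, h4⟩ := claimA O h hτ (p := (Fin.elim0 : Fin 0 → ℂ)) (fun i => i.elim0)
      (linearIndependent_empty_type)
    obtain ⟨s, hs1, hs2⟩ := h4 (by
      rintro ⟨h5, -⟩
      rw [Set.range_eq_empty, Submodule.span_empty, Submodule.mem_bot] at h5
      exact ha0 h5)
    have hne : s.Nonempty := Finset.card_pos.1 (by omega)
    obtain ⟨i, hi⟩ := hne
    have h5 := hs2.transcendental ⟨i, hi⟩
    apply h5
    have h6 : cnum a b (Fin.elim0 : Fin 0 → ℂ) i ∈ O.K := by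
      rcases i with j | ⟨-, k⟩
      · fin_cases j
        · exact h2
        · exact h3
      · exact k.elim0
    exact isAlgebraic_algebraMap (⟨_, h6⟩ : O.K)

end Pool.Agent.EllCL
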