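import Pool.Agent.EllCL.LowerDefs
import Pool.Agent.LowEl.CA

/-!
# Lower elementary functions of several variables
-/

namespace Pool.Agent.EllCL

open Pool.Agent.LowEl

theorem LowerElem.of_eq {n : ℕ} {f g : (Fin n → ℕ) → ℕ} (hf : LowerElem f) (H : ∀ v, f v = g v) :
    LowerElem g := (funext H : f = g) ▸ hf

variable {n : ℕ} {f g : (Fin n → ℕ) → ℕ}

theorem LowerElem.app {φ : ℕ → ℕ} (hφ : LowerElem fun v : Fin 1 → ℕ => φ (v 0))
    (hf : LowerElem f) : LowerElem fun v => φ (f v) :=
  LowerElem.comp (f := fun v : Fin 1 → ℕ => φ (v 0)) (g := fun _ => f) hφ fun _ => hf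

theorem LowerElem.app2 {φ : ℕ → ℕ → ℕ} (hφ : LowerElem fun v : Fin 2 → ℕ => φ (v 0) (v 1))
    (hf : LowerElem f) (hg : LowerElem g) : LowerElem fun v => φ (f v) (g v) :=
  LowerElem.comp (f := fun v : Fin 2 → ℕ => φ (v 0) (v 1)) (g := ![f, g]) hφ fun i => by
    fin_cases i
    · exact hf
    · exact hg

theorem LowerElem.s (hf : LowerElem f) : LowerElem fun v => f v + 1 :=
  LowerElem.app (φ := fun x => x + 1) LowerElem.succ hf

theorem LowerElem.const (k : ℕ) : LowerElem fun _ : Fin n → ℕ => k := by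
  induction k with
  | zero => exact LowerElem.zero
  | succ k ih => exact ih.s

theorem LowerElem.tsub (hf : LowerElem f) (hg : LowerElem g) : LowerElem fun v => f v - g v :=
  LowerElem.app2 (φ := fun x y => x - y) LowerElem.sub hf hg

/-- bounded summation -/
theorem LowerElem.bsum {F : (Fin n → ℕ) → ℕ → ℕ}
    (hF : LowerElem fun w : Fin (n + 1) → ℕ => F (Fin.tail w) (w 0)) (hf : LowerElem f) :
    LowerElem fun v => ∑ i ∈ Finset.range (f v + 1), F v i := by
  have h1 := LowerElem.comp (f := fun v : Fin (n + 1) → ℕ => ∑ i ∈ Finset.range (v 0 + 1),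
    (fun w : Fin (n + 1) → ℕ => F (Fin.tail w) (w 0)) (Function.update v 0 i))
    (g := fun (j : Fin (n + 1)) (v : Fin n → ℕ) => (Fin.cons (f v) v : Fin (n + 1) → ℕ) j)
    (LowerElem.sum hF) (by
      intro j
      refine Fin.cases ?_ (fun j => ?_) j
      · simpa only [Fin.cons_zero] using hf
      · simpa only [Fin.cons_succ] using LowerElem.proj j)
  refine h1.of_eq fun v => ?_
  show ∑ i ∈ Finset.range ((Fin.cons (f v) v : Fin (n + 1) → ℕ) 0 + 1),
    F (Fin.tail (Function.update (Fin.cons (f v) v : Fin (n + 1) → ℕ) 0 i))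
      (Function.update (Fin.cons (f v) v : Fin (n + 1) → ℕ) 0 i 0) = _
  simp only [Fin.cons_zero, Fin.update_cons_zero, Fin.tail_cons]

theorem LowerElem.proj_tail {F : (Fin n → ℕ) → ℕ} (hF : LowerElem F) :
    LowerElem fun w : Fin (n + 1) → ℕ => F (Fin.tail w) :=
  LowerElem.comp (f := F) (g := fun i w => Fin.tail w i) hF fun i => LowerElem.proj i.succ

/-- bounded summation over a strict range -/
theorem LowerElem.bsum' {F : (Fin n → ℕ) → ℕ → ℕ}
    (hF : LowerElem fun w : Fin (n + 1) → ℕ => F (Fin.tail w) (w 0)) (hf : LowerElem f) :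
    LowerElem fun v => ∑ i ∈ Finset.range (f v), F v i := by
  have h1 := LowerElem.bsum hF hf
  have h2 : LowerElem fun v => F v (f v) := by
    have h3 := LowerElem.comp (f := fun w : Fin (n + 1) → ℕ => F (Fin.tail w) (w 0))
      (g := fun (j : Fin (n + 1)) (v : Fin n → ℕ) => (Fin.cons (f v) v : Fin (n + 1) → ℕ) j) hF (by
        intro j
        refine Fin.cases ?_ (fun j => ?_) j
        · simpa only [Fin.cons_zero] using hf
        · simpa only [Fin.cons_succ] using LowerElem.proj j)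
    exact h3
  refine (h1.tsub h2).of_eq fun v => ?_
  rw [Finset.sum_range_succ, Nat.add_sub_cancel]

theorem LowerElem.tmul (hf : LowerElem f) (hg : LowerElem g) : LowerElem fun v => f v * g v := by
  refine (LowerElem.bsum' (F := fun v _ => f v) hf.proj_tail hg).of_eq fun v => ?_
  rw [Finset.sum_const, Finset.card_range, smul_eq_mul, mul_comm]

theorem LowerElem.tadd (hf : LowerElem f) (hg : LowerElem g) : LowerElem fun v => f v + g v := by
  refine (((hf.s.tmul hg.s).tsub (hf.tmul hg)).tsub (LowerElem.const 1)).of_eq fun v => ?_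
  have h1 : (f v + 1) * (g v + 1) = f v * g v + (f v + g v + 1) := by ring
  rw [h1, Nat.add_sub_cancel_left, Nat.add_sub_cancel]

/-- the indicator of `f v ≤ g v` -/
theorem LowerElem.le (hf : LowerElem f) (hg : LowerElem g) :
    LowerElem fun v => if f v ≤ g v then 1 else 0 := by
  refine ((LowerElem.const 1).tsub (hf.tsub hg)).of_eq fun v => ?_
  split_ifs with h
  · rw [Nat.sub_eq_zero_of_le h]
  · omega

theorem LowerElem.ite {h k : (Fin n → ℕ) → ℕ} (hf : LowerElem f) (hg : LowerElem g)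
    (hh : LowerElem h) (hk : LowerElem k) :
    LowerElem fun v => if f v ≤ g v then h v else k v := by
  refine (((hf.le hg).tmul hh).tadd (((LowerElem.const 1).tsub (hf.le hg)).tmul hk)).of_eq
    fun v => ?_
  split_ifs with h1
  · simp
  · simp

theorem LowerElem.pair (hf : LowerElem f) (hg : LowerElem g) :
    LowerElem fun v => Nat.pair (f v) (g v) := by
  refine (LowerElem.ite hf.s hg ((hg.tmul hg).tadd hf) (((hf.tmul hf).tadd hf).tadd hg)).of_eq
    fun v => ?_
  unfold Nat.pair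
  by_cases h : f v < g v
  · rw [if_pos h, if_pos (show f v + 1 ≤ g v from h)]
  · rw [if_neg h, if_neg (show ¬ f v + 1 ≤ g v from h)]

theorem LowerElem.sqrt (hf : LowerElem f) : LowerElem fun v => Nat.sqrt (f v) := by
  have h1 : LowerElem fun w : Fin (n + 1) → ℕ =>
      (fun (v : Fin n → ℕ) (i : ℕ) => if (i + 1) * (i + 1) ≤ f v then 1 else 0)
        (Fin.tail w) (w 0) :=
    LowerElem.le (f := fun w : Fin (n + 1) → ℕ => (w 0 + 1) * (w 0 + 1))
      (g := fun w => f (Fin.tail w)) ((LowerElem.proj 0).s.tmul (LowerElem.proj 0).s) hf.proj_tail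
  refine (LowerElem.bsum' (F := fun (v : Fin n → ℕ) (i : ℕ) =>
    if (i + 1) * (i + 1) ≤ f v then 1 else 0) h1 hf).of_eq fun v => ?_
  show ∑ i ∈ Finset.range (f v), (if (i + 1) * (i + 1) ≤ f v then 1 else 0) = _
  have h2 : ∀ i, ((i + 1) * (i + 1) ≤ f v) = (i < Nat.sqrt (f v)) := by
    intro i
    rw [← Nat.le_sqrt]
    rfl
  simp only [h2]
  rw [← Finset.sum_filter, Finset.sum_const, smul_eq_mul, mul_one]
  have h3 : (Finset.range (f v)).filter (fun i => i < Nat.sqrt (f v)) =
      Finset.range (Nat.sqrt (f v)) := by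
    ext i
    rw [Finset.mem_filter, Finset.mem_range, Finset.mem_range]
    exact ⟨fun h => h.2, fun h => ⟨h.trans_le (Nat.sqrt_le_self _), h⟩⟩
  rw [h3, Finset.card_range]

theorem unpair_eq (a : ℕ) : Nat.unpair a = if Nat.sqrt a ≤ a - Nat.sqrt a * Nat.sqrt a then
    (Nat.sqrt a, a - Nat.sqrt a * Nat.sqrt a - Nat.sqrt a) else
    (a - Nat.sqrt a * Nat.sqrt a, Nat.sqrt a) := by
  unfold Nat.unpair
  simp only
  by_cases h : a - Nat.sqrt a * Nat.sqrt a < Nat.sqrt a
  · rw [if_pos h, if_neg (Nat.not_le.2 h)]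
  · rw [if_neg h, if_pos (Nat.not_lt.1 h)]

theorem LowerElem.left (hf : LowerElem f) : LowerElem fun v => (Nat.unpair (f v)).1 := by
  refine (LowerElem.ite hf.sqrt (hf.tsub (hf.sqrt.tmul hf.sqrt)) hf.sqrt
    (hf.tsub (hf.sqrt.tmul hf.sqrt))).of_eq fun v => ?_
  rw [unpair_eq]
  split_ifs <;> rfl

theorem LowerElem.right (hf : LowerElem f) : LowerElem fun v => (Nat.unpair (f v)).2 := by
  refine (LowerElem.ite hf.sqrt (hf.tsub (hf.sqrt.tmul hf.sqrt))
    ((hf.tsub (hf.sqrt.tmul hf.sqrt)).tsub hf.sqrt) hf.sqrt).of_eq fun v => ?_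
  rw [unpair_eq]
  split_ifs <;> rfl

theorem lowerElem_of_L1 {φ : ℕ → ℕ} (h : L1 φ) : LowerElem fun v : Fin 1 → ℕ => φ (v 0) := by
  induction h with
  | zero => exact LowerElem.zero
  | succ => exact LowerElem.succ
  | left => exact (LowerElem.proj 0).left
  | right => exact (LowerElem.proj 0).right
  | pair _ _ h1 h2 => exact h1.pair h2
  | comp _ _ h1 h2 => exact h1.app h2
  | sub => exact (LowerElem.proj 0).left.tsub (LowerElem.proj 0).right
  | @sum f _ h1 =>
    refine LowerElem.bsum' (f := fun v : Fin 1 → ℕ => (Nat.unpair (v 0)).2)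
      (F := fun v i => f (Nat.pair (Nat.unpair (v 0)).1 i)) ?_ (LowerElem.proj 0).right
    exact LowerElem.app h1 (LowerElem.pair
      (LowerElem.left (f := fun w : Fin 2 → ℕ => w 1) (LowerElem.proj 1)) (LowerElem.proj 0))

theorem isLowerElem_of {z : ℂ} (h : IsLE z) : IsLowerElem z := by
  obtain ⟨A, hA, h⟩ := h
  refine ⟨fun n => (A n).1, fun n => (A n).2.1, fun n => (A n).2.2.1, fun n => (A n).2.2.2.1,
    fun n => (A n).2.2.2.2, ?_, h⟩
  intro f hf
  apply lowerElem_of_L1
  apply lf_nat_iff.1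
  simp only [List.mem_cons, List.not_mem_nil, or_false] at hf
  rcases hf with rfl | rfl | rfl | rfl | rfl
  · exact hA.t1
  · exact hA.t2
  · exact hA.t3
  · exact hA.t4
  · exact hA.t5

end Pool.Agent.EllCL
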