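import Pool.Agent.EllCL.Essential
import Pool.Agent.EllCL.Lower
import Pool.Agent.LowEl.Sums
import Pool.Agent.LowEl.Search
import Pool.Agent.EllPR.Statement

/-!
# Examples of elliptically closed fields, and the smallest one
-/

open Filter Topology

namespace Pool.Agent.EllCL

open Pool.Agent.EllSch

/-- the derivative of a system is strict -/
theorem strict_system {K : Subfield ℂ} {n : ℕ} {b : Fin n → ℂ} {G : Fin n → (Fin n → ℂ) → ℂ}
    (hG : ∀ i, EllFun K b (G i)) {L : (Fin n → ℂ) →L[ℂ] (Fin n → ℂ)}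
    (hL : HasFDerivAt (fun v i => G i v) L b) : HasStrictFDerivAt (fun v i => G i v) L b := by
  choose L' hL' using fun i => (hG i).strict
  have h1 : HasStrictFDerivAt (fun v i => G i v) (ContinuousLinearMap.pi L') b :=
    hasStrictFDerivAt_pi.2 hL'
  rwa [h1.hasFDerivAt.unique hL] at h1

section lower

variable {ι : Type} [Fintype ι]

theorem ellFun_lower {b : ι → ℂ} {f : (ι → ℂ) → ℂ} (hf : EllFun LowEl.LF b f) :
    LowEl.CA f b := by
  induction hf with
  | const hc => exact LowEl.CA.const hc b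
  | coord i => exact LowEl.CA.proj i b
  | add _ _ h1 h2 => exact h1.add h2
  | mul _ _ h1 h2 => exact h1.mul h2
  | inv _ h0 h1 => exact h1.inv h0
  | weierP _ _ _ hi ho h1 h2 h3 =>
    have hi' := ind_iff'.1 hi
    refine (LowEl.ca_wp h1 h2 h3 hi' ho).congr' ?_
    filter_upwards [ev_ind h1.continuousAt h2.continuousAt hi'] with v hv
    exact (weierP_eq hv _).symm
  | weierZ _ _ _ hi ho h1 h2 h3 =>
    have hi' := ind_iff'.1 hi
    refine (LowEl.ca_wz h1 h2 h3 hi' ho).congr' ?_
    filter_upwards [ev_ind h1.continuousAt h2.continuousAt hi'] with v hv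
    exact (weierZ_eq hv _).symm

/-- the field of lower elementary numbers is elliptically closed -/
theorem closed_lower : EllClosed LowEl.LF := by
  intro n b G L hG hG0 hL i
  exact LowEl.zero_mem L (strict_system hG hL) (funext hG0) (fun k => ellFun_lower (hG k)) i

end lower

section pr

variable {O : Set (ℕ → ℕ)} {ι : Type} [Fintype ι]

theorem ellFun_pr {b : ι → ℂ} {f : (ι → ℂ) → ℂ} (hf : EllFun (EllPR.EF O) b f) :
    EllPR.CA O f b := by
  induction hf with
  | const hc => exact EllPR.CA.const hc b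
  | coord i => exact EllPR.CA.proj i b
  | add _ _ h1 h2 => exact h1.add h2
  | mul _ _ h1 h2 => exact h1.mul h2
  | inv _ h0 h1 => exact h1.inv h0
  | weierP _ _ _ hi ho h1 h2 h3 =>
    have hi' := ind_iff'.1 hi
    refine (EllPR.ca_wp h1 h2 h3 hi' ho).congr' ?_
    filter_upwards [ev_ind h1.continuousAt h2.continuousAt hi'] with v hv
    exact (weierP_eq hv _).symm
  | weierZ _ _ _ hi ho h1 h2 h3 =>
    have hi' := ind_iff'.1 hi
    refine (EllPR.ca_wz h1 h2 h3 hi' ho).congr' ?_
    filter_upwards [ev_ind h1.continuousAt h2.continuousAt hi'] with v hv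
    exact (weierZ_eq hv _).symm

/-- the field of numbers which are primitive recursive relative to `O` is elliptically closed -/
theorem closed_pr : EllClosed (EllPR.EF O) := by
  intro n b G L hG hG0 hL i
  exact EllPR.newton L (strict_system hG hL) (funext hG0) (fun k => ellFun_pr (hG k)) i

/-- every countable set of numbers is contained in such a field with countable `O` -/
theorem exists_oracle {A : Set ℂ} (hA : A.Countable) :
    ∃ O : Set (ℕ → ℕ), O.Countable ∧ A ⊆ EllPR.EF O := by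
  have h1 : ∀ z : ℂ, ∃ x : ℕ → EllPR.T, ∀ n : ℕ, ‖z - EllPR.val (x n)‖ ≤ 1 / ((n : ℝ) + 1) := by
    intro z
    have h2 : ∀ n : ℕ, ∃ x : EllPR.T, ‖z - EllPR.val x‖ ≤ 1 / ((n : ℝ) + 1) := by
      intro n
      obtain ⟨x, hx⟩ := EllPR.T.exists_val_near z (ε := 1 / ((n : ℝ) + 1)) (by positivity)
      exact ⟨x, by rw [← norm_neg, neg_sub]; exact hx.le⟩
    choose x hx using h2
    exact ⟨x, hx⟩
  choose x hx using h1
  let O : Set (ℕ → ℕ) := ⋃ z ∈ A, {fun n => (x z n).1, fun n => (x z n).2.1,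
    fun n => (x z n).2.2.1, fun n => (x z n).2.2.2.1, fun n => (x z n).2.2.2.2}
  refine ⟨O, hA.biUnion fun z _ => (Set.toFinite _).countable, fun z hz => ?_⟩
  have hO : ∀ f ∈ ({fun n => (x z n).1, fun n => (x z n).2.1,
    fun n => (x z n).2.2.1, fun n => (x z n).2.2.2.1, fun n => (x z n).2.2.2.2} :
      Set (ℕ → ℕ)), EllPR.PRIn O f := fun f hf => EllPR.PRIn.oracle (Set.mem_biUnion hz hf)
  show EllPR.IsPR O z
  rw [EllPR.isPR_iff]
  exact ⟨_, _, _, _, _, hO _ (by simp), hO _ (by simp), hO _ (by simp), hO _ (by simp),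
    hO _ (by simp), fun n => hx z n⟩

end pr

/-! ### The closure -/

theorem EllFun.mono {K K' : Subfield ℂ} (h : K ≤ K') {ι : Type} {b : ι → ℂ} {f : (ι → ℂ) → ℂ}
    (hf : EllFun K b f) : EllFun K' b f := by
  induction hf with
  | const hc => exact .const (h hc)
  | coord i => exact .coord i
  | add _ _ h1 h2 => exact h1.add h2
  | mul _ _ h1 h2 => exact h1.mul h2
  | inv _ h0 h1 => exact h1.inv h0
  | weierP _ _ _ hi ho h1 h2 h3 => exact .weierP h1 h2 h3 hi ho
  | weierZ _ _ _ hi ho h1 h2 h3 => exact .weierZ h1 h2 h3 hi ho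

theorem ecl_le {A : Set ℂ} {K : Subfield ℂ} (hK : EllClosed K) (hA : A ⊆ K) : ecl A ≤ K :=
  sInf_le ⟨hK, hA⟩

theorem subset_ecl (A : Set ℂ) : A ⊆ ecl A := by
  intro z hz
  show z ∈ sInf {K : Subfield ℂ | EllClosed K ∧ A ⊆ K}
  rw [Subfield.mem_sInf]
  exact fun K hK => hK.2 hz

theorem closed_ecl (A : Set ℂ) : EllClosed (ecl A) := by
  intro n b G L hG hG0 hL i
  show b i ∈ sInf {K : Subfield ℂ | EllClosed K ∧ A ⊆ K}
  rw [Subfield.mem_sInf]
  intro K hK
  exact hK.1 n b G L (fun i => (hG i).mono (ecl_le hK.1 hK.2)) hG0 hL i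

theorem countable_ecl {A : Set ℂ} (hA : A.Countable) : ((ecl A : Subfield ℂ) : Set ℂ).Countable := by
  obtain ⟨O, hO, hAO⟩ := exists_oracle hA
  exact (EllPR.countable_EF hO).mono (ecl_le closed_pr hAO)

/-- the smallest elliptically closed field -/
noncomputable def E0 : CF := ⟨ecl ∅, closed_ecl ∅⟩

theorem E0_le {K : Subfield ℂ} (hK : EllClosed K) : E0.K ≤ K := ecl_le hK (Set.empty_subset _)

theorem countable_E0 : ((EF E0 : Subfield ℂ) : Set ℂ).Countable := countable_ecl Set.countable_empty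

theorem E0_lower {z : ℂ} (hz : z ∈ E0.K) : IsLowerElem z := isLowerElem_of (E0_le closed_lower hz)

end Pool.Agent.EllCL
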