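import Mathlib

/-!
# Elliptically closed fields

The Weierstrass functions as functions of a basis of the lattice and of the argument, the functions
built from them, and the subfields of the complex numbers which contain the coordinates of all
nondegenerate zeros of square systems of such functions.
-/

namespace Pool.Agent.EllCL

/-- the lattice points -/
noncomputable def latticePt (ω₁ ω₂ : ℂ) (x : ℤ × ℤ) : ℂ := (x.1 : ℂ) * ω₁ + (x.2 : ℂ) * ω₂

/-- the Weierstrass function `℘` -/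
noncomputable def weierP (ω₁ ω₂ z : ℂ) : ℂ :=
  1 / z ^ 2 + ∑' x : ℤ × ℤ, (if x = 0 then (0 : ℂ) else
    (1 / (z - latticePt ω₁ ω₂ x) ^ 2 - 1 / (latticePt ω₁ ω₂ x) ^ 2))

/-- the Weierstrass function `ζ` -/
noncomputable def weierZ (ω₁ ω₂ z : ℂ) : ℂ :=
  1 / z + ∑' x : ℤ × ℤ, (if x = 0 then (0 : ℂ) else
    (1 / (z - latticePt ω₁ ω₂ x) + 1 / latticePt ω₁ ω₂ x + z / (latticePt ω₁ ω₂ x) ^ 2))

/-- the invariant `g₂` -/
noncomputable def g₂ (ω₁ ω₂ : ℂ) : ℂ :=
  60 * ∑' x : ℤ × ℤ, (if x = 0 then (0 : ℂ) else 1 / (latticePt ω₁ ω₂ x) ^ 4)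

/-- the invariant `g₃` -/
noncomputable def g₃ (ω₁ ω₂ : ℂ) : ℂ :=
  140 * ∑' x : ℤ × ℤ, (if x = 0 then (0 : ℂ) else 1 / (latticePt ω₁ ω₂ x) ^ 6)

/-- `EllFun K b f`: the function `f` is built from constants in `K` and the coordinate functions by
addition, multiplication, inversion and the Weierstrass functions `℘` and `ζ` as functions of the
basis of the lattice and of the argument, in such a way that every subexpression is defined at the
point `b` -/
inductive EllFun (K : Subfield ℂ) {ι : Type} (b : ι → ℂ) : ((ι → ℂ) → ℂ) → Prop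
  | const {c : ℂ} (hc : c ∈ K) : EllFun K b fun _ => c
  | coord (i : ι) : EllFun K b fun v => v i
  | add {f g : (ι → ℂ) → ℂ} : EllFun K b f → EllFun K b g → EllFun K b fun v => f v + g v
  | mul {f g : (ι → ℂ) → ℂ} : EllFun K b f → EllFun K b g → EllFun K b fun v => f v * g v
  | inv {f : (ι → ℂ) → ℂ} : EllFun K b f → f b ≠ 0 → EllFun K b fun v => (f v)⁻¹
  | weierP {f g h : (ι → ℂ) → ℂ} : EllFun K b f → EllFun K b g → EllFun K b h →
      LinearIndependent ℝ ![f b, g b] → (∀ x, h b ≠ latticePt (f b) (g b) x) →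
      EllFun K b fun v => weierP (f v) (g v) (h v)
  | weierZ {f g h : (ι → ℂ) → ℂ} : EllFun K b f → EllFun K b g → EllFun K b h →
      LinearIndependent ℝ ![f b, g b] → (∀ x, h b ≠ latticePt (f b) (g b) x) →
      EllFun K b fun v => weierZ (f v) (g v) (h v)

/-- the subfield `K` is elliptically closed: it contains the coordinates of every zero `b` with
invertible derivative of every system of `n` functions of `n` variables as in `EllFun K b` -/
def EllClosed (K : Subfield ℂ) : Prop :=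
  ∀ (n : ℕ) (b : Fin n → ℂ) (G : Fin n → (Fin n → ℂ) → ℂ) (L : (Fin n → ℂ) ≃L[ℂ] (Fin n → ℂ)),
    (∀ i, EllFun K b (G i)) → (∀ i, G i b = 0) →
    HasFDerivAt (fun v i => G i v) (L : (Fin n → ℂ) →L[ℂ] (Fin n → ℂ)) b → ∀ i, b i ∈ K

/-- the intersection of all elliptically closed subfields which contain `A` -/
noncomputable def ecl (A : Set ℂ) : Subfield ℂ := sInf {K | EllClosed K ∧ A ⊆ K}

/-- `α` is an endomorphism of the lattice, `α Λ ⊆ Λ` -/
def IsEnd (ω₁ ω₂ α : ℂ) : Prop :=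
  ∀ x : ℤ × ℤ, ∃ y : ℤ × ℤ, α * latticePt ω₁ ω₂ x = latticePt ω₁ ω₂ y

/-- the field `k` of Q1: the subfield generated by the endomorphisms of the lattice, that is `ℚ`, or
`ℚ(ω₂ / ω₁)` in the case of complex multiplication -/
noncomputable def kfield (ω₁ ω₂ : ℂ) : Subfield ℂ := Subfield.closure {α | IsEnd ω₁ ω₂ α}

/-- the hypotheses of Q1: `ω₁, ω₂` is a basis of a lattice, the points are off the lattice and
linearly independent over `k` -/
structure Admissible (ω₁ ω₂ : ℂ) {n : ℕ} (p : Fin n → ℂ) : Prop where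
  basis : LinearIndependent ℝ ![ω₁, ω₂]
  off : ∀ (i : Fin n) (x : ℤ × ℤ), p i ≠ latticePt ω₁ ω₂ x
  indep : LinearIndependent (kfield ω₁ ω₂) p

/-- the field `k (g₂, g₃) (pᵢ, ℘(pᵢ), ζ(pᵢ))`; for `k = ℚ` it is the field `F` of Q1 -/
noncomputable def F (k : Type) [Field k] [Algebra k ℂ] (ω₁ ω₂ : ℂ) {n : ℕ} (p : Fin n → ℂ) :
    IntermediateField k ℂ :=
  IntermediateField.adjoin k
    ({g₂ ω₁ ω₂, g₃ ω₁ ω₂} ∪ ⋃ i, {p i, weierP ω₁ ω₂ (p i), weierZ ω₁ ω₂ (p i)})

end Pool.Agent.EllCL
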