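import Pool.Agent.EllCL.Defs

/-! # The dimension over an elliptically closed field -/

namespace Pool.Agent.EllCL

/-- the dimension of `S` over `K`: the least `d` such that there are `a₁, …, a_d` for which the
smallest elliptically closed field which contains `K` and `a₁, …, a_d` contains `S` -/
noncomputable def eclDim (K : Subfield ℂ) (S : Set ℂ) : ℕ :=
  sInf {d | ∃ a : Fin d → ℂ, S ⊆ ecl (K ∪ Set.range a)}

end Pool.Agent.EllCL
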