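import Pool.Agent.EllCL.ChainA
import Pool.Agent.EllCL.DimDefs

/-! # The Schanuel inequality with the dimension -/

open Cardinal

namespace Pool.Agent.EllCL

open Pool.Agent.EllSch

/-! ### The dimension -/

theorem ecl_union_empty (O : CF) (u : Fin 0 → ℂ) : ecl (O.K ∪ Set.range u) = O.K := by
  refine le_antisymm (ecl_le O.closed ?_) fun x hx => subset_ecl _ (Or.inl hx)
  rintro x (hx | ⟨i, rfl⟩)
  · exact hx
  · exact i.elim0

theorem eclDim_eq_zero (O : CF) {S : Set ℂ} (hS : S.Finite) : eclDim O.K S = 0 ↔ S ⊆ O.K := by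
  unfold eclDim
  rw [Nat.sInf_eq_zero]
  constructor
  · rintro (⟨u, hu⟩ | h0)
    · rwa [ecl_union_empty] at hu
    · exfalso
      have : Finite S := hS
      obtain ⟨m, ⟨e⟩⟩ := Finite.exists_equiv_fin S
      have h1 : m ∈ {d | ∃ a : Fin d → ℂ, S ⊆ ecl (O.K ∪ Set.range a)} :=
        ⟨fun i => (e.symm i : ℂ), fun x hx => subset_ecl _ (Or.inr ⟨e ⟨x, hx⟩, by simp⟩)⟩
      rw [h0] at h1
      exact h1
  · intro h1
    left
    refine ⟨Fin.elim0, ?_⟩
    rw [ecl_union_empty]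
    exact h1

theorem data_finite {a b : ℂ} {n : ℕ} (p : Fin n → ℂ) :
    (({a, b} : Set ℂ) ∪ Set.range p).Finite := (Set.toFinite _).union (Set.finite_range p)

theorem data_subset {O : CF} {a b : ℂ} {n : ℕ} {p : Fin n → ℂ} :
    ({a, b} : Set ℂ) ∪ Set.range p ⊆ O.K ↔ a ∈ O.K ∧ b ∈ O.K ∧ ∀ i, p i ∈ O.K := by
  constructor
  · intro h
    exact ⟨h (Or.inl (Or.inl rfl)), h (Or.inl (Or.inr rfl)), fun i => h (Or.inr ⟨i, rfl⟩)⟩
  · rintro ⟨h1, h2, h3⟩ x ((rfl | rfl) | ⟨i, rfl⟩)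
    · exact h1
    · exact h2
    · exact h3 i

theorem ch_of_dim (O : CF) {a b : ℂ} (h : Ind a b) {n : ℕ} (p : Fin n → ℂ) :
    Ch (Set.range (cnum a b p)) (eclDim O.K ({a, b} ∪ Set.range p)) O := by
  obtain ⟨d, hd⟩ : ∃ d, d = eclDim O.K ({a, b} ∪ Set.range p) := ⟨_, rfl⟩
  rw [← hd]
  have hlt : ∀ j < d, ∀ u : Fin j → ℂ, ¬ (({a, b} : Set ℂ) ∪ Set.range p ⊆
      ecl (O.K ∪ Set.range u)) := by
    intro j hj u hu
    rw [hd] at hj
    exact Nat.notMem_of_lt_sInf hj ⟨u, hu⟩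
  have key : ∀ (r j : ℕ) (u : Fin j → ℂ), j + r ≤ d →
      Ch (Set.range (cnum a b p)) r ⟨ecl (O.K ∪ Set.range u), closed_ecl _⟩ := by
    intro r
    induction r with
    | zero => exact fun _ _ _ => trivial
    | succ r ih =>
      intro j u hj
      have h1 : ∃ x ∈ Set.range (cnum a b p), x ∉ ecl (O.K ∪ Set.range u) := by
        by_contra hcon
        push Not at hcon
        apply hlt j (by omega) u
        obtain ⟨ha, hb⟩ := period_mem ⟨ecl (O.K ∪ Set.range u), closed_ecl _⟩ h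
          (hcon _ ⟨Sum.inl 0, rfl⟩) (hcon _ ⟨Sum.inl 1, rfl⟩)
        exact (data_subset (O := ⟨ecl (O.K ∪ Set.range u), closed_ecl _⟩)).2
          ⟨ha, hb, fun i => hcon _ ⟨Sum.inr (0, i), rfl⟩⟩
      obtain ⟨x, hx, hx0⟩ := h1
      refine ⟨⟨ecl (O.K ∪ Set.range (Fin.snoc u x : Fin (j + 1) → ℂ)), closed_ecl _⟩,
        ecl_le (closed_ecl _) ?_, ⟨x, hx, subset_ecl _ (Or.inr ⟨Fin.last j, by simp⟩), hx0⟩,
        ih (j + 1) _ (by omega)⟩
      rintro y (hy | ⟨i, rfl⟩)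
      · exact subset_ecl _ (Or.inl hy)
      · exact subset_ecl _ (Or.inr ⟨i.castSucc, by simp⟩)
  have h2 := key d 0 Fin.elim0 (by omega)
  have e : (⟨ecl (O.K ∪ Set.range (Fin.elim0 : Fin 0 → ℂ)), closed_ecl _⟩ : CF) = O := by
    obtain ⟨K, hK⟩ := O
    congr 1
    exact ecl_union_empty ⟨K, hK⟩ _
  rwa [e] at h2

/-! ### The Legendre determinant -/

theorem det_mem (O : CF) {a b : ℂ} (h : Ind a b) : det a b ∈ O.K := by
  have hi : Ind 1 Complex.I := by simp [Ind]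
  have h2 : (2 : ℂ) ∈ O.K := isPR_natCast 2
  have h1 : det 1 Complex.I ∈ O.K := by
    unfold det eta1 eta2
    exact O.K.sub_mem
      (O.K.mul_mem IsPR.one (O.K.mul_mem h2 (isPR_wz hi (FS.off_half_b hi) IsPR.one IsPR.I
        (O.K.div_mem IsPR.I h2))))
      (O.K.mul_mem IsPR.I (O.K.mul_mem h2 (isPR_wz hi (FS.off_half_a hi) IsPR.one IsPR.I
        (O.K.div_mem IsPR.one h2))))
  have halg : ∀ x : ℂ, IsAlgebraic O.K x → x ∈ O.K := fun x hx => EF_algClosed (O := O) hx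
  refine Essential.root_mem halg (by norm_num : 0 < 2) ?_
  rw [det_sq h, ← det_sq hi]
  exact O.K.pow_mem h1 2

theorem int_comb {n : ℕ} {p : Fin n → ℂ} {z : ℂ} (hz : z ∈ Submodule.span ℚ (Set.range p)) :
    ∃ (N : ℤ) (k : Fin n → ℤ), N ≠ 0 ∧ ∑ i, (k i : ℂ) * p i = N * z := by
  classical
  rw [Submodule.mem_span_range_iff_exists_fun] at hz
  obtain ⟨g, hg⟩ := hz
  refine ⟨∏ i, ((g i).den : ℤ), fun i => (g i).num * ∏ j ∈ Finset.univ.erase i, ((g j).den : ℤ),
    Finset.prod_ne_zero_iff.2 fun i _ => by exact_mod_cast (g i).den_nz, ?_⟩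
  rw [← hg, Finset.mul_sum]
  refine Finset.sum_congr rfl fun i _ => ?_
  rw [Algebra.smul_def, eq_ratCast, ← Finset.prod_erase_mul _ _ (Finset.mem_univ i)]
  have h1 : ((g i : ℚ) : ℂ) = (g i).num / (g i).den := by
    exact_mod_cast (Rat.num_div_den (g i)).symm
  have h2 : ((g i).den : ℂ) ≠ 0 := by exact_mod_cast (g i).den_nz
  rw [h1]
  push_cast
  field_simp

theorem det_alg {a b : ℂ} (h : Ind a b) {n : ℕ} {p : Fin n → ℂ} (hoff : ∀ i, Off a b (p i))
    (hper : Per a b p) :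
    IsAlgebraic (IntermediateField.adjoin ℚ (Set.range (cnum a b p))) (det a b) := by
  let v : PIx n → ℂ := Sum.elim ![a, b] p
  have hv : v ∈ UU n := ⟨h, fun i x => hoff i x⟩
  have hrange : nev v '' (Set.range (ee n)) = Set.range (cnum a b p) := by
    ext x
    constructor
    · rintro ⟨_, ⟨i, rfl⟩, rfl⟩
      exact ⟨i, (nev_ee v i).symm⟩
    · rintro ⟨i, rfl⟩
      exact ⟨_, ⟨i, rfl⟩, nev_ee v i⟩
  rw [← hrange, ← mem_FF]
  have hp : ∀ i, p i ∈ FF v := by
    intro i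
    have := gen_mem_FF v (Sum.inr (0, i))
    rwa [nev_ee] at this
  have key : ∀ z ∈ Submodule.span ℚ (Set.range p), z ∈ FF v := by
    intro z hz
    obtain ⟨N, k, hN, hk⟩ := int_comb hz
    have hN' : (N : ℂ) ≠ 0 := by exact_mod_cast hN
    have e : z = (∑ i, (k i : ℂ) * p i) / N := by rw [hk, mul_div_cancel_left₀ _ hN']
    rw [e]
    exact div_mem (sum_mem fun i _ => mul_mem (intCast_mem _ _) (hp i)) (intCast_mem _ _)
  have h1 : eta1 a b ∈ FF v := by
    obtain ⟨N, k, hN, hk⟩ := int_comb hper.1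
    have hN' : (N : ℂ) ≠ 0 := by exact_mod_cast hN
    have h3 : eta a b (N, 0) ∈ FF v := eta_mem_FF hv k (N, 0) (by
      refine hk.trans ?_
      show (N : ℂ) * a = lat a b (N, 0)
      simp [lat])
    have e : eta1 a b = eta a b (N, 0) / N := by
      simp only [eta]
      field_simp
      simp
    rw [e]
    exact div_mem h3 (intCast_mem _ _)
  have h2 : eta2 a b ∈ FF v := by
    obtain ⟨N, k, hN, hk⟩ := int_comb hper.2
    have hN' : (N : ℂ) ≠ 0 := by exact_mod_cast hN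
    have h3 : eta a b (0, N) ∈ FF v := eta_mem_FF hv k (0, N) (by
      refine hk.trans ?_
      show (N : ℂ) * b = lat a b (0, N)
      simp [lat])
    have e : eta2 a b = eta a b (0, N) / N := by
      simp only [eta]
      field_simp
      simp
    rw [e]
    exact div_mem h3 (intCast_mem _ _)
  exact sub_mem (mul_mem (key a hper.1) h2) (mul_mem (key b hper.2) h1)

/-! ### The inequalities -/

variable {a b : ℂ} (h : Ind a b) {n : ℕ} {p : Fin n → ℂ}

theorem dim_pos (O : CF) (hτ : b / a ∉ O.K) (p : Fin n → ℂ) :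
    1 ≤ eclDim O.K ({a, b} ∪ Set.range p) := by
  rw [Nat.one_le_iff_ne_zero]
  intro h0
  rw [eclDim_eq_zero O (data_finite p), data_subset] at h0
  exact hτ (O.K.div_mem h0.2.1 h0.1)

include h in
theorem fin_rat (hoff : ∀ i, Off a b (p i)) (hp : LinearIndependent ℚ p) (O : CF)
    (hτ : b / a ∉ O.K) :
    HasT ℚ (cnum a b p) (2 * n + eclDim O.K ({a, b} ∪ Set.range p)) := by
  obtain ⟨h1, h2⟩ := chainA h hoff hp _ O hτ (ch_of_dim O h p)
  by_cases hper : Per a b p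
  · have hx : AlgebraicIndependent ℚ (fun _ : Unit => det a b) := by
      rw [algebraicIndependent_unique_type_iff]
      exact Final2.transcendental_det h
    have h3 := add_tower (K₁ := O.K) hx (fun _ => det_mem O h) (fun _ => det_alg h hoff hper) h1
    rw [Fintype.card_unit] at h3
    exact h3.mono (by omega)
  · have hx : AlgebraicIndependent ℚ (fun x : Empty => (x.elim : ℂ)) :=
      algebraicIndependent_empty_type_iff.2 (algebraMap ℚ ℂ).injective
    have h3 := add_tower (K₁ := O.K) hx (fun x => x.elim) (fun x => x.elim) (h2 hper)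
    exact h3.mono (by omega)

end Pool.Agent.EllCL
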