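import Pool.Agent.EllCL.Dim

/-! # The part of the data which is defined over the field, and transcendence degrees -/

open Cardinal

namespace Pool.Agent.EllCL

open Pool.Agent.EllSch

/-- the part of the data which is defined over the field -/
theorem fin_ess {a b : ℂ} (h : Ind a b) {n : ℕ} {p : Fin n → ℂ} (hoff : ∀ i, Off a b (p i))
    (hp : LinearIndependent (kfield a b) p) (O : CF) (hτ : b / a ∈ O.K) :
    ∃ (c : ℂ) (q : Fin (md O h p) → ℂ), c ≠ 0 ∧ c * a ∈ O.K ∧ c * b ∈ O.K ∧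
      (∀ j, q j ∈ O.K) ∧ (∀ j, Off (c * a) (c * b) (q j)) ∧
      LinearIndependent (kfield (c * a) (c * b)) q ∧
      (∀ j, ∃ (l : ℕ) (α : Fin n → ℂ), 1 ≤ l ∧ (∀ i, α i ∈ EndL a b) ∧
        (l : ℂ) * q j = ∑ i, α i * (c * p i)) ∧
      ∀ N, HasT ℚ (cnum (c * a) (c * b) q) N →
        HasT ℚ (cnum a b p) (N + (2 * (n - md O h p) + eclDim O.K ({a, b} ∪ Set.range p))) := by
  have IH := chainB h hoff hp _ O hτ (ch_of_dim O h p)
  obtain ⟨q, hqU, hqoff, hqi, -, hrel⟩ := basis_off h p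
    (Submodule.span (kfield a b) (Set.range p) ⊓ WK O h) inf_le_left
  obtain ⟨c, hc, hcc⟩ := Essential.exists_scale h
  obtain ⟨hca, hcb⟩ := scale_mem h O hτ hc hcc
  have h' : Ind (c * a) (c * b) := ind_smul h hc
  have ha0 := ne_zero_a h
  have hcq : ∀ j, c * q j ∈ O.K := fun j => by
    have h1 : q j / a ∈ O.K := (hqU j).2
    have h2 := O.K.mul_mem hca h1
    rwa [mul_assoc, mul_div_cancel₀ _ ha0] at h2
  have hqoff' : ∀ j, Off (c * a) (c * b) (c * q j) := fun j => (off_smul hc _).2 (hqoff j)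
  refine ⟨c, fun j => c * q j, hc, hca, hcb, hcq, hqoff', ?_, fun j => ?_, ?_⟩
  · rw [kfield_eq, EndL_smul hc, ← kfield_eq]
    rw [Fintype.linearIndependent_iff] at hqi ⊢
    intro g hg
    apply hqi g
    have h1 : c * ∑ j, (g j : ℂ) * q j = 0 := by
      rw [← hg, Finset.mul_sum]
      refine Finset.sum_congr rfl fun j _ => ?_
      rw [Subfield.smul_def, smul_eq_mul]
      ring
    rw [← (mul_eq_zero.1 h1).resolve_left hc]
    rfl
  · obtain ⟨l, α, hl, hα, hlq⟩ := hrel j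
    refine ⟨l, α, hl, hα, ?_⟩
    have e : (l : ℂ) * (c * q j) = c * (l * q j) := by ring
    rw [e, hlq, Finset.mul_sum]
    exact Finset.sum_congr rfl fun i _ => by ring
  · rintro N ⟨s, hs1, hs2⟩
    have h3 := add_tower (K₁ := O.K)
      (x := fun i : s => cnum (c * a) (c * b) (fun j => c * q j) i.1) hs2 (by
        rintro ⟨(j | ⟨j, k⟩), -⟩
        · fin_cases j
          · exact isPR_G2 h' hca hcb
          · exact isPR_G3 h' hca hcb
        · fin_cases j
          · exact hcq k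
          · exact isPR_wp h' (hqoff' k) hca hcb (hcq k)
          · exact isPR_wz h' (hqoff' k) hca hcb (hcq k))
      (fun i => alg_scaled h hc (hcc.imp And.left And.left) hoff hqoff hrel i.1) IH
    rw [Fintype.card_coe] at h3
    exact h3.mono (by omega)

/-- Schneider's theorem: one of the numbers is transcendental -/
theorem hasT_one {a b : ℂ} {m : ℕ} {q : Fin m → ℂ} (hq : ∀ j, Off a b (q j))
    (hm : 0 < m) (hsch : ∀ z, Off a b z → IsAlgebraic ℚ (G2 a b) → IsAlgebraic ℚ (G3 a b) →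
      IsAlgebraic ℚ z → IsAlgebraic ℚ (wp a b z) → False) :
    HasT ℚ (cnum a b q) 1 := by
  by_contra hcon
  have halg : ∀ i, IsAlgebraic ℚ (cnum a b q i) := by
    intro i
    by_contra htr
    apply hcon
    refine ⟨{i}, by simp, ?_⟩
    rw [algebraicIndependent_unique_type_iff]
    have h2 : ((default : ({i} : Finset (Fin 2 ⊕ (Fin 3 × Fin m)))) :
        Fin 2 ⊕ (Fin 3 × Fin m)) = i := Finset.mem_singleton.1 (Subtype.prop _)
    rw [h2]
    exact htr
  exact hsch (q ⟨0, hm⟩) (hq _) (halg (Sum.inl 0)) (halg (Sum.inl 1))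
    (halg (Sum.inr (0, ⟨0, hm⟩))) (halg (Sum.inr (1, ⟨0, hm⟩)))

theorem rat_of_kfield {a b : ℂ} {m : ℕ} {q : Fin m → ℂ} (hq : LinearIndependent (kfield a b) q) :
    LinearIndependent ℚ q := by
  have h1 := li_rat hq (one_ne_zero : (1 : ℂ) ≠ 0)
  simpa only [one_mul] using h1

/-! ### Transcendence degrees -/

theorem hasT_trdeg {k : Type} [Field k] [Algebra k ℂ] {a b : ℂ} (h : Ind a b) {n : ℕ}
    {p : Fin n → ℂ} {N : ℕ} (hT : HasT k (cnum a b p) N) :
    ((N : ℕ) : Cardinal) ≤ Algebra.trdeg k (F k a b p) := by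
  obtain ⟨s, hs1, hs2⟩ := hT
  rw [F_eq h]
  refine le_trans ?_ (card_le_trdeg hs2 _ fun i _ => IntermediateField.subset_adjoin _ _ ⟨i, rfl⟩)
  exact_mod_cast hs1

theorem trdeg_hasT {a b : ℂ} (h : Ind a b) {n : ℕ} (p : Fin n → ℂ) :
    ∃ N : ℕ, Algebra.trdeg ℚ (F ℚ a b p) = N ∧ HasT ℚ (cnum a b p) N := by
  rw [F_eq h]
  obtain ⟨s, hs1, hs2⟩ := exists_trdeg_eq_rat (cnum a b p)
  exact ⟨s.card, hs2, s, le_refl _, hs1⟩

end Pool.Agent.EllCL
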