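import Pool.Agent.EllCL.Fix

/-! # All essential counterexamples are in every countable elliptically closed field -/

open Cardinal

namespace Pool.Agent.EllCL

open Pool.Agent.EllSch

open Essential in
theorem essential_cl {O : CF} (hO : ((EF O : Subfield ℂ) : Set ℂ).Countable) :
    ∀ (a b : ℂ), Ind a b → ∀ (n : ℕ) (p : Fin n → ℂ), (∀ i, Off a b (p i)) →
      (∀ α : Fin n → ℂ, (∀ i, α i ∈ EndL a b) → ∑ i, α i * p i = 0 → α = 0) →
      ¬ (a ∈ EF O ∧ b ∈ EF O ∧ ∀ i, p i ∈ EF O) →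
      (∃ s : Finset (Fin 2 ⊕ (Fin 3 × Fin n)), 2 * n + 1 ≤ s.card ∧
        AlgebraicIndependent ℚ (fun i : s => cnum a b p i)) ∨
      ∃ (c : ℂ) (m : ℕ) (q : Fin m → ℂ), c ≠ 0 ∧ 1 ≤ m ∧ m ≤ n ∧ c * a ∈ EF O ∧ c * b ∈ EF O ∧
        (∀ j, q j ∈ EF O ∧ Off (c * a) (c * b) (q j)) ∧
        (∀ α : Fin m → ℂ, (∀ i, α i ∈ EndL a b) → ∑ i, α i * q i = 0 → α = 0) ∧
        (∀ j, ∃ (l : ℕ) (α : Fin n → ℂ), 0 < l ∧ (∀ i, α i ∈ EndL a b) ∧
          (l : ℂ) * q j = ∑ i, α i * (c * p i)) ∧
        ∀ s : Finset (Fin 2 ⊕ (Fin 3 × Fin m)),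
          AlgebraicIndependent ℚ (fun i : s => cnum (c * a) (c * b) q i) →
          ∃ s' : Finset (Fin 2 ⊕ (Fin 3 × Fin n)), s.card + 2 * (n - m) + 1 ≤ s'.card ∧
            AlgebraicIndependent ℚ (fun i : s' => cnum a b p i) := by
  classical
  have hEalg : ∀ x : ℂ, IsAlgebraic (EF O) x → x ∈ EF O := fun x hx => EF_algClosed hx
  have hE : ∀ a b : ℂ, Ind a b → a ∈ EF O → b ∈ EF O → GoodE a b (EF O) :=
    fun a b h ha hb => goodE_cl hO h ha hb
  have hvar : ∀ (n : ℕ) (v : PIx n → ℂ), v ∈ UU n → EllPR.Var n v ∨ v (Sum.inl 1) / v (Sum.inl 0) ∈ EF O :=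
    fun n v hv => var_or_cl n v hv
  generalize EF O = E at hEalg hE hvar ⊢
  intro a b h n p hp hind hnE
  have ha0 : a ≠ 0 := by
    rintro rfl
    exact h (by simp)
  by_cases hτ : b / a ∈ E
  swap
  · -- generic shape
    left
    let v : PIx n → ℂ := Sum.elim ![a, b] p
    have hv : v ∈ UU n := ⟨h, fun i x => hp i x⟩
    obtain ⟨s, hs1, hs2⟩ := EllPR.core2_pt n v hv ((hvar n v hv).resolve_right hτ)
      (fun m hm => by
        have h1 := hind (fun i => (m i : ℂ)) (fun i => intCast_mem _ _) hm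
        funext i
        have h2 := congrFun h1 i
        simpa using h2)
    refine ⟨s, hs1, ?_⟩
    have e : (fun i : s => nev v (ee n i)) = fun i : s => cnum a b p i := by
      funext i
      obtain ⟨i, hi⟩ := i
      rcases i with j | ⟨j, k⟩
      · fin_cases j
        · exact NumSetup.nev_vg2 v
        · exact NumSetup.nev_vg3 v
      · fin_cases j
        · exact NumSetup.nev_vp v k
        · exact NumSetup.nev_vx v k
        · exact NumSetup.nev_vz v k
    rw [← e]
    exact hs2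
  -- the combinatorial end of the argument
  have fin : ∀ (c : ℂ) (m : ℕ) (q : Fin m → ℂ), c ≠ 0 → m ≤ n → c * a ∈ E → c * b ∈ E →
        (∀ j, q j ∈ E ∧ Off (c * a) (c * b) (q j)) →
        (∀ α : Fin m → ℂ, (∀ i, α i ∈ EndL a b) → ∑ i, α i * q i = 0 → α = 0) →
        (∀ j, ∃ (l : ℕ) (α : Fin n → ℂ), 0 < l ∧ (∀ i, α i ∈ EndL a b) ∧
          (l : ℂ) * q j = ∑ i, α i * (c * p i)) →
        (∀ s : Finset (Fin 2 ⊕ (Fin 3 × Fin m)),
          AlgebraicIndependent ℚ (fun i : s => cnum (c * a) (c * b) q i) →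
          ∃ s' : Finset (Fin 2 ⊕ (Fin 3 × Fin n)), s.card + 2 * (n - m) + 1 ≤ s'.card ∧
            AlgebraicIndependent ℚ (fun i : s' => cnum a b p i)) →
      (∃ s : Finset (Fin 2 ⊕ (Fin 3 × Fin n)), 2 * n + 1 ≤ s.card ∧
        AlgebraicIndependent ℚ (fun i : s => cnum a b p i)) ∨
      ∃ (c : ℂ) (m : ℕ) (q : Fin m → ℂ), c ≠ 0 ∧ 1 ≤ m ∧ m ≤ n ∧ c * a ∈ E ∧ c * b ∈ E ∧
        (∀ j, q j ∈ E ∧ Off (c * a) (c * b) (q j)) ∧
        (∀ α : Fin m → ℂ, (∀ i, α i ∈ EndL a b) → ∑ i, α i * q i = 0 → α = 0) ∧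
        (∀ j, ∃ (l : ℕ) (α : Fin n → ℂ), 0 < l ∧ (∀ i, α i ∈ EndL a b) ∧
          (l : ℂ) * q j = ∑ i, α i * (c * p i)) ∧
        ∀ s : Finset (Fin 2 ⊕ (Fin 3 × Fin m)),
          AlgebraicIndependent ℚ (fun i : s => cnum (c * a) (c * b) q i) →
          ∃ s' : Finset (Fin 2 ⊕ (Fin 3 × Fin n)), s.card + 2 * (n - m) + 1 ≤ s'.card ∧
            AlgebraicIndependent ℚ (fun i : s' => cnum a b p i) := by
    intro c m q hc hmn hca hcb hq hqi hqc hcount
    rcases Nat.eq_zero_or_pos m with rfl | hm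
    · left
      have h0 : IsEmpty {x : Fin 2 ⊕ (Fin 3 × Fin 0) // x ∈ (∅ : Finset _)} :=
        ⟨fun x => absurd x.2 (Finset.notMem_empty _)⟩
      obtain ⟨s', h1, h2⟩ := hcount ∅
        ((algebraicIndependent_empty_type_iff).2 (algebraMap ℚ ℂ).injective)
      exact ⟨s', by simpa using h1, h2⟩
    · exact Or.inr ⟨c, m, q, hc, hm, hmn, hca, hcb, hq, hqi, hqc, hcount⟩
  by_cases ha : a ∈ E
  · -- periods in `E`
    have hb : b ∈ E := by
      have := mul_mem ha hτ
      rwa [mul_div_cancel₀ _ ha0] at this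
    have HE := hE a b h ha hb
    obtain ⟨m, q, hmn, hq, hqi, hqc, hmE, hcount⟩ := reduction_fix h E HE.end_mem HE.G2_mem
      HE.G3_mem HE.cl HE.rel p hp hind
    have hlt : m < n := by
      refine lt_of_le_of_ne hmn fun he => hnE ⟨ha, hb, hmE he⟩
    refine fin 1 m q one_ne_zero hmn (by rwa [one_mul]) (by rwa [one_mul]) (fun j => ?_) hqi
      (fun j => ?_) ?_
    · rw [one_mul, one_mul]; exact hq j
    · obtain ⟨l, α, h1, h2, h3⟩ := hqc j
      exact ⟨l, α, h1, h2, by simpa using h3⟩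
    · intro s hs
      rw [one_mul, one_mul] at hs
      obtain ⟨s', h1, h2⟩ := hcount s hs
      rw [if_pos hlt] at h1
      exact ⟨s', h1, h2⟩
  · -- rescale
    obtain ⟨c, hc, hcc⟩ := exists_scale h
    have hca : c * a ∈ E := by
      obtain ⟨a', ha', hag2, hag3⟩ : ∃ a' : ℂ, a' ≠ 0 ∧ G2 1 (b / a) ∈ E ∧ G3 1 (b / a) ∈ E := by
        have h1 : Ind 1 (b / a) := by
          have := ind_smul h (inv_ne_zero ha0)
          rwa [inv_mul_cancel₀ ha0, mul_comm, ← div_eq_mul_inv] at this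
        have H1 := hE 1 (b / a) h1 (one_mem _) hτ
        exact ⟨1, one_ne_zero, H1.G2_mem, H1.G3_mem⟩
      have hca0 : c * a ≠ 0 := mul_ne_zero hc ha0
      have e2 : G2 (c * a) (c * b) = G2 1 (b / a) / (c * a) ^ 4 := by
        rw [← G2_smul hca0, mul_one, mul_assoc, mul_div_cancel₀ _ ha0]
      have e3 : G3 (c * a) (c * b) = G3 1 (b / a) / (c * a) ^ 6 := by
        rw [← G3_smul hca0, mul_one, mul_assoc, mul_div_cancel₀ _ ha0]
      rcases hcc with ⟨-, h1⟩ | ⟨-, h1⟩
      · rw [e2, div_eq_one_iff_eq (pow_ne_zero _ hca0)] at h1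
        exact root_mem hEalg (by norm_num : 0 < 4) (by rw [← h1]; exact hag2)
      · rw [e3, div_eq_one_iff_eq (pow_ne_zero _ hca0)] at h1
        exact root_mem hEalg (by norm_num : 0 < 6) (by rw [← h1]; exact hag3)
    have hcE : c ∉ E := by
      intro h1
      apply ha
      have := div_mem hca h1
      rwa [mul_div_cancel_left₀ _ hc] at this
    have hcb : c * b ∈ E := by
      have := mul_mem hca hτ
      rwa [mul_assoc, mul_div_cancel₀ _ ha0] at this
    have h' : Ind (c * a) (c * b) := ind_smul h hc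
    have HE := hE _ _ h' hca hcb
    obtain ⟨m, q, hmn, hq, hqi, hqc, hmE, hcount⟩ := reduction_fix h' E HE.end_mem HE.G2_mem
      HE.G3_mem HE.cl HE.rel (fun i => c * p i) (fun i => (off_smul hc _).2 (hp i)) (by
        rw [EndL_smul hc]
        intro α hα h0
        apply hind α hα
        have e : ∑ i, α i * (c * p i) = c * ∑ i, α i * p i := by
          rw [Finset.mul_sum]
          refine Finset.sum_congr rfl fun i _ => ?_
          ring
        rw [e] at h0
        exact (mul_eq_zero.1 h0).resolve_left hc)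
    rw [EndL_smul hc] at hqi hqc
    refine fin c m q hc hmn hca hcb hq hqi hqc ?_
    intro s hs
    obtain ⟨s₁, hs₁, hs₁'⟩ := Final2.exists_max2 (E := ℚ) (cnum a b p)
    refine ⟨s₁, ?_, hs₁⟩
    -- everything is algebraic over the numbers of `p`
    have hcalg : IsAlgebraic (IntermediateField.adjoin ℚ (cnum a b p '' s₁)) c := by
      rcases hcc with ⟨h1, -⟩ | ⟨h1, -⟩
      · exact IsAlgebraic.of_pow (by norm_num : 0 < 4) (by rw [h1]; exact hs₁' (Sum.inl 0))
      · exact IsAlgebraic.of_pow (by norm_num : 0 < 6) (by rw [h1]; exact hs₁' (Sum.inl 1))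
    have halg : ∀ i, IsAlgebraic (IntermediateField.adjoin ℚ (cnum a b p '' s₁))
        (cnum (c * a) (c * b) (fun i => c * p i) i) := by
      rintro (j | ⟨j, k⟩)
      · fin_cases j
        · show IsAlgebraic _ (G2 (c * a) (c * b))
          rw [G2_smul hc]
          exact alg_div (hs₁' (Sum.inl 0)) (hcalg.pow 4)
        · show IsAlgebraic _ (G3 (c * a) (c * b))
          rw [G3_smul hc]
          exact alg_div (hs₁' (Sum.inl 1)) (hcalg.pow 6)
      · fin_cases j
        · exact hcalg.mul (hs₁' (Sum.inr (0, k)))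
        · show IsAlgebraic _ (wp (c * a) (c * b) (c * p k))
          rw [wp_smul hc]
          exact alg_div (hs₁' (Sum.inr (1, k))) (hcalg.pow 2)
        · show IsAlgebraic _ (wz (c * a) (c * b) (c * p k))
          rw [wz_smul hc]
          exact alg_div (hs₁' (Sum.inr (2, k))) hcalg
    obtain ⟨s₂, hs₂, hs₂'⟩ := hcount s hs
    have hle := Final2.card_le (cnum a b p) s₁
      (fun i : s₂ => cnum (c * a) (c * b) (fun i => c * p i) i) hs₂' (fun i => halg i)
    rw [Fintype.card_coe] at hle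
    by_cases hlt : m < n
    · rw [if_pos hlt] at hs₂
      omega
    · have hmn' : m = n := by omega
      -- the scale is transcendental over `E`
      have hqE : ∀ i, cnum (c * a) (c * b) q i ∈ E := by
        rintro (j | ⟨j, k⟩)
        · fin_cases j
          · exact HE.G2_mem
          · exact HE.G3_mem
        · obtain ⟨c1, c2, c3⟩ := HE.cl (q k) (hq k).1 (hq k).2
          fin_cases j
          · exact (hq k).1
          · exact c1
          · exact c3
      have hct : AlgebraicIndependent E (fun _ : Unit => c) := by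
        rw [algebraicIndependent_unique_type_iff]
        exact fun h1 => hcE (hEalg c h1)
      have hu := hs.sumElim_of_tower (S := E) (by
        rintro _ ⟨i, rfl⟩
        exact ⟨⟨_, hqE i⟩, rfl⟩) hct
      have halgq : ∀ i, IsAlgebraic (IntermediateField.adjoin ℚ (cnum a b p '' s₁))
          (cnum (c * a) (c * b) q i) := by
        refine Red.algebraic_cnum h' (p := fun i => c * p i) (fun i => (off_smul hc _).2 (hp i))
          (fun j => (hq j).2) (fun j => ?_) halg
        obtain ⟨l, α, h1, h2, h3⟩ := hqc j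
        exact ⟨l, α, h1, fun i => by rw [EndL_smul hc]; exact h2 i, h3⟩
      have hle2 := Final2.card_le (cnum a b p) s₁ _ hu (by
        rintro (i | i)
        · exact hcalg
        · exact halgq i)
      rw [Fintype.card_sum, Fintype.card_unique, Fintype.card_coe] at hle2
      omega


end Pool.Agent.EllCL
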