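import Pool.Agent.EllCL.Basic
import Pool.Agent.EllSch.Add
import Pool.Agent.EllSch.Fix.CMul

/-!
# The Weierstrass functions over an elliptically closed field
-/

open Filter Topology

namespace Pool.Agent.EllCL

open Pool.Agent.EllSch

variable {O : CF} {ι : Type} [Fintype ι] {A B Z : (ι → ℂ) → ℂ} {v : ι → ℂ}

theorem ca_wp (hA : CA O A v) (hB : CA O B v) (hZ : CA O Z v) (h : Ind (A v) (B v))
    (hz : Off (A v) (B v) (Z v)) : CA O (fun v => wp (A v) (B v) (Z v)) v := by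
  have hev := ev_ind hA.continuousAt hB.continuousAt h
  obtain ⟨A', a1, a2⟩ := hA
  obtain ⟨B', b1, b2⟩ := hB
  obtain ⟨Z', c1, c2⟩ := hZ
  rw [a2.eq_of_nhds, b2.eq_of_nhds] at h
  rw [a2.eq_of_nhds, b2.eq_of_nhds, c2.eq_of_nhds] at hz
  refine ⟨_, EllFun.weierP a1 b1 c1 (ind_iff'.2 h) hz, ?_⟩
  filter_upwards [a2, b2, c2, hev] with w ha hb hc hi
  rw [← ha, ← hb, ← hc]
  exact (weierP_eq hi _).symm

theorem ca_wz (hA : CA O A v) (hB : CA O B v) (hZ : CA O Z v) (h : Ind (A v) (B v))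
    (hz : Off (A v) (B v) (Z v)) : CA O (fun v => wz (A v) (B v) (Z v)) v := by
  have hev := ev_ind hA.continuousAt hB.continuousAt h
  obtain ⟨A', a1, a2⟩ := hA
  obtain ⟨B', b1, b2⟩ := hB
  obtain ⟨Z', c1, c2⟩ := hZ
  rw [a2.eq_of_nhds, b2.eq_of_nhds] at h
  rw [a2.eq_of_nhds, b2.eq_of_nhds, c2.eq_of_nhds] at hz
  refine ⟨_, EllFun.weierZ a1 b1 c1 (ind_iff'.2 h) hz, ?_⟩
  filter_upwards [a2, b2, c2, hev] with w ha hb hc hi
  rw [← ha, ← hb, ← hc]
  exact (weierZ_eq hi _).symm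

theorem exists_aux {a b z : ℂ} (h : Ind a b) (hz : Off a b z) :
    ∃ n : ℕ, Off a b (a / ((n : ℂ) + 1)) ∧ Off a b (z + a / ((n : ℂ) + 1)) ∧
      Off a b (z - a / ((n : ℂ) + 1)) := by
  have ha0 : a ≠ 0 := by
    rintro rfl
    exact h (by simp)
  have ht : Tendsto (fun k : ℕ => a / ((k : ℂ) + 1)) atTop (𝓝[≠] 0) := by
    rw [tendsto_nhdsWithin_iff]
    constructor
    · have h1 := tendsto_one_div_add_atTop_nhds_zero_nat (𝕜 := ℂ)
      have h2 := h1.const_mul a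
      rw [mul_zero] at h2
      refine h2.congr fun k => ?_
      rw [mul_one_div]
    · refine Filter.Eventually.of_forall fun k => ?_
      have h1 : ((k : ℂ) + 1) ≠ 0 := by exact_mod_cast Nat.succ_ne_zero k
      exact div_ne_zero ha0 h1
  have ht' : Tendsto (fun k : ℕ => a / ((k : ℂ) + 1)) atTop (𝓝 0) :=
    tendsto_nhds_of_tendsto_nhdsWithin ht
  have h1 := ht.eventually (FS.off_punctured h)
  have h2 : ∀ᶠ u in 𝓝 (0 : ℂ), Off a b (z + u) := by
    have h3 : Tendsto (fun u : ℂ => z + u) (𝓝 0) (𝓝 (z + 0)) :=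
      (continuous_const.add continuous_id).tendsto 0
    rw [add_zero] at h3
    exact h3.eventually ((isOpen_off h).mem_nhds hz)
  have h4 : ∀ᶠ u in 𝓝 (0 : ℂ), Off a b (z - u) := by
    have h3 : Tendsto (fun u : ℂ => z - u) (𝓝 0) (𝓝 (z - 0)) :=
      (continuous_const.sub continuous_id).tendsto 0
    rw [sub_zero] at h3
    exact h3.eventually ((isOpen_off h).mem_nhds hz)
  obtain ⟨n, hn1, hn2, hn3⟩ := (h1.and ((ht'.eventually h2).and (ht'.eventually h4))).exists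
  exact ⟨n, hn1, hn2, hn3⟩

/-- `℘'` is a rational function of values of `℘` and `ζ` -/
theorem wq_formula {a b z u : ℂ} (h : Ind a b) (hz : Off a b z) (hu : Off a b u)
    (h1 : Off a b (z + u)) (h2 : Off a b (z - u)) :
    (wz a b (z + u) + wz a b (z - u) - 2 * wz a b z) * (wp a b z - wp a b u) = wq a b z := by
  have hne : wp a b z ≠ wp a b u := by
    intro he
    rcases CMul.eq_or_neg h hz hu he with ⟨x, hx⟩ | ⟨x, hx⟩
    · exact h2 x (by rw [hx]; ring)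
    · exact h1 x (by rw [hx]; ring)
  have hne' : wp a b z ≠ wp a b (-u) := by rwa [wp_neg h]
  have e1 := wz_add h hz hu h1 hne
  have e2 := wz_add h hz (off_neg.2 hu) (by rwa [← sub_eq_add_neg]) hne'
  rw [← sub_eq_add_neg, wz_neg, wq_neg h, wp_neg h] at e2
  rw [e1, e2]
  have h0 : wp a b z - wp a b u ≠ 0 := sub_ne_zero.2 hne
  field_simp
  ring

theorem ca_wq (hA : CA O A v) (hB : CA O B v) (hZ : CA O Z v) (h : Ind (A v) (B v))
    (hz : Off (A v) (B v) (Z v)) : CA O (fun v => wq (A v) (B v) (Z v)) v := by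
  obtain ⟨n, n1, n2, n3⟩ := exists_aux h hz
  have hn : ((n : ℂ) + 1) ≠ 0 := by exact_mod_cast Nat.succ_ne_zero n
  have hU : CA O (fun v => A v / ((n : ℂ) + 1)) v :=
    hA.div (CA.const (IsPR.add (isPR_natCast n) IsPR.one) v) hn
  have h1 := ev_off' hA.continuousAt hB.continuousAt hZ.continuousAt h hz
  have h2 := ev_off' hA.continuousAt hB.continuousAt hU.continuousAt h n1
  have h3 := ev_off' hA.continuousAt hB.continuousAt (hZ.add hU).continuousAt h n2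
  have h4 := ev_off' hA.continuousAt hB.continuousAt (hZ.sub hU).continuousAt h n3
  have hc2 : CA O (fun _ : ι → ℂ => (2 : ℂ)) v := CA.const (isPR_natCast 2) v
  have key := (((ca_wz hA hB (hZ.add hU) h n2).add (ca_wz hA hB (hZ.sub hU) h n3)).sub
    (hc2.mul (ca_wz hA hB hZ h hz))).mul ((ca_wp hA hB hZ h hz).sub (ca_wp hA hB hU h n1))
  refine key.congr' ?_
  filter_upwards [h1, h2, h3, h4] with w w1 w2 w3 w4
  exact wq_formula w1.1 w1.2 w2.2 w3.2 w4.2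

theorem e_ne {a b : ℂ} (h : Ind a b) : wp a b (a / 2) ≠ wp a b (b / 2) := by
  intro he
  have h1 : ∀ x : ℤ × ℤ, (a - b) / 2 ≠ lat a b x := by
    apply FS.off_half h (p := 1) (q := -1)
    · simp [lat]; ring
    · decide
  have h2 : ∀ x : ℤ × ℤ, (a + b) / 2 ≠ lat a b x := by
    apply FS.off_half h (p := 1) (q := 1)
    · simp [lat]; ring
    · decide
  rcases CMul.eq_or_neg h (FS.off_half_a h) (FS.off_half_b h) he with ⟨x, hx⟩ | ⟨x, hx⟩
  · exact h1 x (by rw [sub_div, hx]; ring)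
  · exact h2 x (by rw [add_div, hx]; ring)

theorem G_formula {a b : ℂ} (h : Ind a b) :
    G2 a b = 4 * (wp a b (a / 2) ^ 2 + wp a b (a / 2) * wp a b (b / 2) + wp a b (b / 2) ^ 2) ∧
      G3 a b = -4 * (wp a b (a / 2) * wp a b (b / 2) * (wp a b (a / 2) + wp a b (b / 2))) := by
  have e1 := ode h (FS.off_half_a h)
  have e2 := ode h (FS.off_half_b h)
  rw [FS.wq_half_a h] at e1
  rw [FS.wq_half_b h] at e2
  have hne : wp a b (a / 2) - wp a b (b / 2) ≠ 0 := sub_ne_zero.2 (e_ne h)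
  have h2 : G2 a b =
      4 * (wp a b (a / 2) ^ 2 + wp a b (a / 2) * wp a b (b / 2) + wp a b (b / 2) ^ 2) := by
    apply mul_left_cancel₀ hne
    linear_combination e1 - e2
  refine ⟨h2, ?_⟩
  rw [h2] at e1
  linear_combination e1

theorem ca_e (hA : CA O A v) (hB : CA O B v) (h : Ind (A v) (B v)) :
    CA O (fun v => wp (A v) (B v) (A v / 2)) v ∧ CA O (fun v => wp (A v) (B v) (B v / 2)) v := by
  have hc2 : CA O (fun _ : ι → ℂ => (2 : ℂ)) v := CA.const (isPR_natCast 2) v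
  exact ⟨ca_wp hA hB (hA.div hc2 two_ne_zero) h (FS.off_half_a h),
    ca_wp hA hB (hB.div hc2 two_ne_zero) h (FS.off_half_b h)⟩

theorem ca_G2 (hA : CA O A v) (hB : CA O B v) (h : Ind (A v) (B v)) :
    CA O (fun v => G2 (A v) (B v)) v := by
  have hev := ev_ind hA.continuousAt hB.continuousAt h
  obtain ⟨h1, h2⟩ := ca_e hA hB h
  have hc4 : CA O (fun _ : ι → ℂ => (4 : ℂ)) v := CA.const (isPR_natCast 4) v
  refine (hc4.mul (((h1.pow 2).add (h1.mul h2)).add (h2.pow 2))).congr' ?_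
  filter_upwards [hev] with w hw
  exact (G_formula hw).1.symm

theorem ca_G3 (hA : CA O A v) (hB : CA O B v) (h : Ind (A v) (B v)) :
    CA O (fun v => G3 (A v) (B v)) v := by
  have hev := ev_ind hA.continuousAt hB.continuousAt h
  obtain ⟨h1, h2⟩ := ca_e hA hB h
  have hc4 : CA O (fun _ : ι → ℂ => (-4 : ℂ)) v := CA.const (IsPR.neg (isPR_natCast 4)) v
  refine (hc4.mul ((h1.mul h2).mul (h1.add h2))).congr' ?_
  filter_upwards [hev] with w hw
  exact (G_formula hw).2.symm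

theorem ca_eta1 (hA : CA O A v) (hB : CA O B v) (h : Ind (A v) (B v)) :
    CA O (fun v => eta1 (A v) (B v)) v := by
  have h2 : (2 : ℂ) ≠ 0 := two_ne_zero
  have c2 : CA O (fun _ : ι → ℂ => (2 : ℂ)) v := CA.const (isPR_natCast 2) v
  exact c2.mul (ca_wz hA hB (hA.div c2 h2) h (FS.off_half_a h))

theorem ca_eta2 (hA : CA O A v) (hB : CA O B v) (h : Ind (A v) (B v)) :
    CA O (fun v => eta2 (A v) (B v)) v := by
  have h2 : (2 : ℂ) ≠ 0 := two_ne_zero
  have c2 : CA O (fun _ : ι → ℂ => (2 : ℂ)) v := CA.const (isPR_natCast 2) v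
  exact c2.mul (ca_wz hA hB (hB.div c2 h2) h (FS.off_half_b h))

theorem ca_wp0 {v : Fin 3 → ℂ} (h : Ind (v 0) (v 1)) (hz : Off (v 0) (v 1) (v 2)) :
    CA O (fun u : Fin 3 → ℂ => wp (u 0) (u 1) (u 2)) v :=
  ca_wp (CA.proj 0 v) (CA.proj 1 v) (CA.proj 2 v) h hz

theorem ca_wq0 {v : Fin 3 → ℂ} (h : Ind (v 0) (v 1)) (hz : Off (v 0) (v 1) (v 2)) :
    CA O (fun u : Fin 3 → ℂ => wq (u 0) (u 1) (u 2)) v :=
  ca_wq (CA.proj 0 v) (CA.proj 1 v) (CA.proj 2 v) h hz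

theorem ca_wz0 {v : Fin 3 → ℂ} (h : Ind (v 0) (v 1)) (hz : Off (v 0) (v 1) (v 2)) :
    CA O (fun u : Fin 3 → ℂ => wz (u 0) (u 1) (u 2)) v :=
  ca_wz (CA.proj 0 v) (CA.proj 1 v) (CA.proj 2 v) h hz

theorem ca_G20 {v : Fin 2 → ℂ} (h : Ind (v 0) (v 1)) :
    CA O (fun u : Fin 2 → ℂ => G2 (u 0) (u 1)) v :=
  ca_G2 (CA.proj 0 v) (CA.proj 1 v) h

theorem ca_G30 {v : Fin 2 → ℂ} (h : Ind (v 0) (v 1)) :
    CA O (fun u : Fin 2 → ℂ => G3 (u 0) (u 1)) v :=
  ca_G3 (CA.proj 0 v) (CA.proj 1 v) h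

end Pool.Agent.EllCL
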