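import Pool.Agent.EllPR.TransferPR
import Pool.Agent.EllCL.Weier

/-!
# The transfer lemma over an elliptically closed field
-/

open Filter Topology

namespace Pool.Agent.EllCL

open Pool.Agent.EllSch Pool.Agent.EllSch.Transfer

/-- If all the functions are elliptic over the field, then the values of `τ` at the points which
carry no vector field tangent to all the relations along which `τ` varies are in the field. -/
theorem transfer_cl {O : CF} {ι : Type} [Fintype ι] [DecidableEq ι] (k0 : ι) (R : Type)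
    [CommRing R] [IsNoetherianRing R] (ev : (ι → ℂ) → R →+* ℂ) (U : Set (ι → ℂ)) (hU : IsOpen U)
    (d : ι → Derivation ℤ R R) (κ : (ι → ℂ) → ℂ) (hκ : ∀ a ∈ U, κ a ≠ 0)
    (X : ι → R) (hX : ∀ a ∈ U, ∀ k, ev a (X k) = a k)
    (hd : ∀ a ∈ U, ∀ T : R, ∃ L : (ι → ℂ) →L[ℂ] ℂ, HasStrictFDerivAt (fun v => ev v T) L a ∧
      ∀ k, κ a * L (Pi.single k 1) = ev a (d k T))
    (τ : (ι → ℂ) → ℂ) (T : ι → R) (u : (ι → ℂ) → ℂ)
    (hτ : ∀ a ∈ U, ∃ L : (ι → ℂ) →L[ℂ] ℂ, HasStrictFDerivAt τ L a ∧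
      ∀ k, L (Pi.single k 1) = u a * ev a (T k))
    (hCA : ∀ a ∈ U, ∀ x : R, CA O (fun v => ev v x) a) (hτCA : ∀ a ∈ U, CA O τ a)
    (a : ι → ℂ) (ha : a ∈ U) (hbad : ¬ ∃ q : ι → R,
      (∀ h : R, ev a h = 0 → ev a (∑ k, q k * d k h) = 0) ∧ ev a (∑ k, q k * T k) ≠ 0) :
    IsPR O (τ a) := by
  classical
  obtain ⟨r, h, c, D, hc, hh, hD, hchart, V, hV, hVτ⟩ := local_const' k0 ev U hU d κ hκ X hX hd τ T u
    hτ (RingHom.ker (ev a)) a ha (fun x => RingHom.mem_ker) hbad
  obtain ⟨ea, hea⟩ := hchart a ha hD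
  set e := hea.toOpenPartialHomeomorph (Ph ev h c) with he
  have hecoe : (e : (ι → ℂ) → ι → ℂ) = Ph ev h c := hea.toOpenPartialHomeomorph_coe
  have hea_src : a ∈ e.source := hea.mem_toOpenPartialHomeomorph_source
  have hea_tgt : Ph ev h c a ∈ e.target := hea.image_mem_toOpenPartialHomeomorph_target
  have hsymm_a : e.symm (Ph ev h c a) = a := by
    have := e.left_inv hea_src
    rw [hecoe] at this
    exact this
  have hcontD : ContinuousAt (fun v => ev v D) a := by
    obtain ⟨L, hL, _⟩ := hd a ha D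
    exact hL.hasFDerivAt.continuousAt
  have hDev : ∀ᶠ v in 𝓝 a, ev v D ≠ 0 := hcontD.eventually_ne hD
  have hN : V ∩ U ∩ {v | ev v D ≠ 0} ∈ 𝓝 a :=
    Filter.inter_mem (Filter.inter_mem hV (hU.mem_nhds ha)) hDev
  have hcs : ContinuousAt e.symm (Ph ev h c a) := e.continuousAt_symm hea_tgt
  have hpre : ∀ᶠ w in 𝓝 (Ph ev h c a), e.symm w ∈ V ∩ U ∩ {v | ev v D ≠ 0} := by
    apply hcs.eventually_mem
    rw [hsymm_a]
    exact hN
  obtain ⟨ρ, hρ0, hρ⟩ := Metric.mem_nhds_iff.1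
    (Filter.inter_mem hpre (e.open_target.mem_nhds hea_tgt))
  -- a nearby point with rational free coordinates
  choose x hx using fun k => Pool.Agent.EllPR.T.exists_val_near (Ph ev h c a k) (half_pos hρ0)
  let w : ι → ℂ := fun k => if ∃ i, c i = k then 0 else EllPR.val (x k)
  have hwd : w ∈ Metric.ball (Ph ev h c a) ρ := by
    rw [Metric.mem_ball, dist_eq_norm]
    refine lt_of_le_of_lt ?_ (half_lt_self hρ0)
    rw [pi_norm_le_iff_of_nonneg (half_pos hρ0).le]
    intro k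
    rw [Pi.sub_apply]
    by_cases hk : ∃ i, c i = k
    · have h1 : w k = 0 := if_pos hk
      obtain ⟨i, rfl⟩ := hk
      rw [h1, Ph_col ev h c hc, hh i, sub_zero, norm_zero]
      exact (half_pos hρ0).le
    · have h1 : w k = EllPR.val (x k) := if_neg hk
      rw [h1]
      exact (hx k).le
  have hw := hρ hwd
  set b := e.symm w with hb
  obtain ⟨⟨⟨hbV, hbU⟩, hbD⟩, htgt⟩ := hw
  have hPb : Ph ev h c b = w := by
    have := e.right_inv htgt
    rw [hecoe] at this
    exact this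
  have hbh : ∀ i, ev b (h i) = 0 := by
    intro i
    rw [← Ph_col ev h c hc b i, hPb]
    exact if_pos ⟨i, rfl⟩
  rw [← hVτ b hbV hbU hbh]
  refine (hτCA b hbU).isPR fun k => ?_
  obtain ⟨eb, heb⟩ := hchart b hbU hbD
  have hone : ∀ j k, IsPR O ((Pi.single j (1 : ℂ) : ι → ℂ) k) := by
    intro j k
    by_cases hjk : k = j
    · subst hjk; rw [Pi.single_eq_same]; exact IsPR.one
    · rw [Pi.single_eq_of_ne hjk]; exact IsPR.zero
  have hwPR : ∀ k, IsPR O (w k) := by
    intro k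
    by_cases hk : ∃ i, c i = k
    · have h1 : w k = 0 := if_pos hk
      rw [h1]; exact IsPR.zero
    · have h1 : w k = EllPR.val (x k) := if_neg hk
      rw [h1]; exact isPR_val _
  apply newton (G := fun v => Ph ev h c v - w) eb (heb.sub_const w) (by rw [hPb, sub_self])
  intro k
  have h1 : (fun v : ι → ℂ => (Ph ev h c v - w) k) = fun v => v k +
      ∑ j, (ev v (h j) - v (c j)) * (Pi.single (c j) (1 : ℂ) : ι → ℂ) k - w k := by
    funext v
    simp only [Ph, Pi.sub_apply, Pi.add_apply, Finset.sum_apply, Pi.smul_apply, smul_eq_mul]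
  rw [h1]
  refine ((CA.proj k b).add (CA.sum _ fun j _ => ?_)).sub (CA.const (hwPR k) b)
  exact ((hCA b hbU (h j)).sub (CA.proj (c j) b)).mul (CA.const (hone _ _) b)

end Pool.Agent.EllCL
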