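import Pool.Agent.EllPR.NumPR
import Pool.Agent.EllCL.Transfer

/-! # The main theorem outside an elliptically closed field -/

open MvPolynomial Cardinal

namespace Pool.Agent.EllCL

open Pool.Agent.EllSch

noncomputable section

variable {O : CF} {n : ℕ}

theorem ca_nval {b : PIx n → ℂ} (hb : b ∈ UU n) (x : VIx n) : CA O (fun v => nval v x) b := by
  have ha : CA O (fun v : PIx n → ℂ => v (Sum.inl 0)) b := CA.proj _ b
  have hb1 : CA O (fun v : PIx n → ℂ => v (Sum.inl 1)) b := CA.proj _ b
  rcases x with j | ⟨i, j⟩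
  · fin_cases j
    · exact ha
    · exact hb1
    · exact ca_eta1 ha hb1 hb.1
    · exact ca_eta2 ha hb1 hb.1
    · exact ca_G2 ha hb1 hb.1
    · exact ca_G3 ha hb1 hb.1
  · have hp : CA O (fun v : PIx n → ℂ => v (Sum.inr i)) b := CA.proj _ b
    fin_cases j
    · exact hp
    · exact ca_wp ha hb1 hp hb.1 (hb.2 i)
    · exact ca_wq ha hb1 hp hb.1 (hb.2 i)
    · exact ca_wz ha hb1 hp hb.1 (hb.2 i)

theorem ca_nev {b : PIx n → ℂ} (hb : b ∈ UU n) (x : RR n) : CA O (fun v => nev v x) b := by
  induction x using MvPolynomial.induction_on with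
  | C c =>
    simp only [NumSetup.nev_C]
    exact CA.const (IsPR.ratCast c) b
  | add p q hp hq =>
    simp only [map_add]
    exact hp.add hq
  | mul_X p x hp =>
    simp only [map_mul, NumSetup.nev_X]
    exact hp.mul (ca_nval hb x)

theorem var_or_cl (n : ℕ) (v : PIx n → ℂ) (hv : v ∈ UU n) :
    EllPR.Var n v ∨ IsPR O (v (Sum.inl 1) / v (Sum.inl 0)) := by
  classical
  by_cases hq : EllPR.Var n v
  · exact Or.inl hq
  · right
    exact transfer_cl (O := O) (Sum.inl 0) (RR n) (nev (n := n)) (UU n) NumSetup.isOpen_UU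
      (NumSetup.dd n) (fun v => det (v (Sum.inl 0)) (v (Sum.inl 1))) (fun v hv => det_ne_zero hv.1)
      (Sum.elim ![va, vb] vp) (NumSetup.nev_coord) (fun v hv T => NumSetup.strict hv T)
      (fun v => v (Sum.inl 1) / v (Sum.inl 0)) (NumSetup.bk n) (fun v => 1 / v (Sum.inl 0) ^ 2)
      (fun v hv => NumSetup.strict_tau hv) (fun v hv x => ca_nev hv x)
      (fun v hv => (CA.proj _ v).div (CA.proj _ v) (by
        intro h0
        apply hv.1
        rw [h0]; simp)) v hv hq

end

end Pool.Agent.EllCL
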