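import Pool.Agent.EllPR.CombE
import Pool.Agent.EllCL.Num

/-! # An elliptically closed field and a lattice with periods in it -/

open MvPolynomial

namespace Pool.Agent.EllCL

open Pool.Agent.EllSch

variable {O : CF}

theorem isPR_G2 {a b : ℂ} (h : Ind a b) (ha : IsPR O a) (hb : IsPR O b) : IsPR O (G2 a b) :=
  (ca_G20 (v := ![a, b]) h).isPR fun k => by fin_cases k; exacts [ha, hb]

theorem isPR_G3 {a b : ℂ} (h : Ind a b) (ha : IsPR O a) (hb : IsPR O b) : IsPR O (G3 a b) :=
  (ca_G30 (v := ![a, b]) h).isPR fun k => by fin_cases k; exacts [ha, hb]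

theorem isPR_wp {a b z : ℂ} (h : Ind a b) (hz : Off a b z) (ha : IsPR O a) (hb : IsPR O b)
    (hz' : IsPR O z) : IsPR O (wp a b z) :=
  (ca_wp0 (v := ![a, b, z]) h hz).isPR fun k => by fin_cases k; exacts [ha, hb, hz']

theorem isPR_wq {a b z : ℂ} (h : Ind a b) (hz : Off a b z) (ha : IsPR O a) (hb : IsPR O b)
    (hz' : IsPR O z) : IsPR O (wq a b z) :=
  (ca_wq0 (v := ![a, b, z]) h hz).isPR fun k => by fin_cases k; exacts [ha, hb, hz']

theorem isPR_wz {a b z : ℂ} (h : Ind a b) (hz : Off a b z) (ha : IsPR O a) (hb : IsPR O b)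
    (hz' : IsPR O z) : IsPR O (wz a b z) :=
  (ca_wz0 (v := ![a, b, z]) h hz).isPR fun k => by fin_cases k; exacts [ha, hb, hz']

theorem isPR_lat {a b : ℂ} (ha : IsPR O a) (hb : IsPR O b) (x : ℤ × ℤ) : IsPR O (lat a b x) := by
  rw [← mem_EF] at *
  exact add_mem (mul_mem (intCast_mem _ _) ha) (mul_mem (intCast_mem _ _) hb)

theorem ca_ev {a b : ℂ} (h : Ind a b) (ha : IsPR O a) (hb : IsPR O b) {m : ℕ} {w : Fin m → ℂ}
    (hw : ∀ i, Off a b (w i)) (x : FTr.R0 (EF O) m) :
    CA O (fun v => FTr.ev a b (EF O) v x) w := by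
  induction x using MvPolynomial.induction_on with
  | C c =>
    simp only [FTr.ev_C]
    exact CA.const c.2 w
  | add p q hp hq =>
    simp only [map_add]
    exact hp.add hq
  | mul_X p x hp =>
    simp only [map_mul, FTr.ev_X]
    refine hp.mul ?_
    obtain ⟨i, j⟩ := x
    have hA : CA O (fun _ : Fin m → ℂ => a) w := CA.const ha w
    have hB : CA O (fun _ : Fin m → ℂ => b) w := CA.const hb w
    have hZ : CA O (fun v : Fin m → ℂ => v i) w := CA.proj i w
    fin_cases j
    · exact hZ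
    · exact ca_wp hA hB hZ h (hw i)
    · exact ca_wq hA hB hZ h (hw i)
    · exact ca_wz hA hB hZ h (hw i)

/-- if the coordinate `v k` is not primitive recursive, there is a derivation of `ℂ` over the field
of primitive recursive numbers which respects the Weierstrass functions at all the `v i` and does
not kill `v k` -/
theorem transfer_fix_cl {a b : ℂ} (h : Ind a b) (ha : IsPR O a) (hb : IsPR O b) (m : ℕ) (k : Fin m)
    (v : Fin m → ℂ) (hv : ∀ i, Off a b (v i)) (hvk : ¬ IsPR O (v k)) :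
      ∃ δ : Derivation (EF O) ℂ ℂ, (∀ i, GoodAt a b δ (v i)) ∧ δ (v k) ≠ 0 := by
  classical
  have h2 : G2 a b ∈ EF O := isPR_G2 h ha hb
  let k0 : Subfield ℂ := EF O
  let g2 : k0 := ⟨G2 a b, h2⟩
  have hU : IsOpen {v : Fin m → ℂ | ∀ i, Off a b (v i)} := by
    have h1 : {v : Fin m → ℂ | ∀ i, Off a b (v i)} =
        ⋂ i : Fin m, (fun v : Fin m → ℂ => v i) ⁻¹' {z | Off a b z} := by
      ext v
      simp
    rw [h1]
    exact isOpen_iInter_of_finite fun i => (isOpen_off h).preimage (continuous_apply i)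
  have hq : ∃ q : Fin m → FTr.R0 k0 m,
      (∀ h : FTr.R0 k0 m, FTr.ev a b k0 v h = 0 →
        FTr.ev a b k0 v (∑ j, q j * FTr.dk g2 j h) = 0) ∧
      FTr.ev a b k0 v (∑ j, q j * if k = j then 1 else 0) ≠ 0 := by
    by_contra hcon
    apply hvk
    exact transfer_cl (O := O) k (FTr.R0 k0 m) (fun v => (FTr.ev a b k0 v).toRingHom)
      {v : Fin m → ℂ | ∀ i, Off a b (v i)} hU
      (fun j => (FTr.dk g2 j).restrictScalars ℤ) (fun _ => 1) (fun _ _ => one_ne_zero)
      (fun j => X (j, 0)) (fun v _ j => FTr.ev_X v (j, 0))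
      (fun v hv T => by
        obtain ⟨L, hL, hL'⟩ := FTr.strict h g2 rfl hv T
        refine ⟨L, hL, fun j => ?_⟩
        rw [one_mul]
        exact hL' j)
      (fun v => v k) (fun j => if k = j then 1 else 0) (fun _ => 1)
      (fun v hv => by
        obtain ⟨L, hL, hL'⟩ := FTr.strict_coord (v := v) k (hasStrictDerivAt_id (v k))
        refine ⟨L, hL, fun j => ?_⟩
        rw [hL' j, one_mul]
        split_ifs
        · exact (map_one (FTr.ev a b k0 v)).symm
        · exact (map_zero (FTr.ev a b k0 v)).symm)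
      (fun w hw x => ca_ev h ha hb hw x) (fun w hw => CA.proj k w) v hv hcon
  obtain ⟨q, hq1, hq2⟩ := hq
  obtain ⟨D, hD⟩ := FTr.exists_of_ring (FTr.val a b v) (FTr.dq g2 q) (by
    intro h hh
    rw [FTr.dq_apply]
    exact hq1 h hh)
  have hX : ∀ (i : Fin m) (j : Fin 4), D (FTr.val a b v (i, j)) =
      FTr.ev a b k0 v (q i) * FTr.ev a b k0 v
        (![1, X (i, 2), 6 * X (i, 1) ^ 2 - C (g2 / 2), -X (i, 1)] j) := by
    intro i j
    have h1 := hD (X (i, j))
    rw [aeval_X] at h1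
    rw [h1, FTr.dq_X]
    simp only [FTr.gen]
    rw [Finset.sum_eq_single i, if_pos rfl, ← map_mul]
    · rfl
    · intro l _ hl
      rw [if_neg hl.symm, mul_zero]
    · intro hn
      exact absurd (Finset.mem_univ i) hn
  have hv0 : ∀ i, D (v i) = FTr.ev a b k0 v (q i) := by
    intro i
    have h1 := hX i 0
    have h5 : FTr.ev a b k0 v
        ((![1, X (i, 2), 6 * X (i, 1) ^ 2 - C (g2 / 2), -X (i, 1)] : Fin 4 → FTr.R0 k0 m) 0) = 1 :=
      map_one _
    rw [h5, mul_one] at h1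
    exact h1
  refine ⟨D, fun i => ⟨?_, ?_, ?_⟩, ?_⟩
  · have h1 := hX i 1
    rw [hv0, mul_comm]
    have h5 : FTr.ev a b k0 v
        ((![1, X (i, 2), 6 * X (i, 1) ^ 2 - C (g2 / 2), -X (i, 1)] : Fin 4 → FTr.R0 k0 m) 1) =
          wq a b (v i) := FTr.ev_X v (i, 2)
    rw [h5] at h1
    exact h1
  · have h1 := hX i 2
    rw [hv0, mul_comm]
    have h5 : FTr.ev a b k0 v
        ((![1, X (i, 2), 6 * X (i, 1) ^ 2 - C (g2 / 2), -X (i, 1)] : Fin 4 → FTr.R0 k0 m) 2) =
          6 * wp a b (v i) ^ 2 - G2 a b / 2 := by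
      show FTr.ev a b k0 v (6 * X (i, 1) ^ 2 - C (g2 / 2)) = _
      simp only [map_sub, map_mul, map_pow, map_ofNat, FTr.ev_X, FTr.ev_C]
      have h1 : ((g2 / 2 : k0) : ℂ) = G2 a b / 2 := by
        push_cast
        rfl
      rw [h1]
      rfl
    rw [h5] at h1
    exact h1
  · have h1 := hX i 3
    rw [hv0, mul_comm]
    have h5 : FTr.ev a b k0 v
        ((![1, X (i, 2), 6 * X (i, 1) ^ 2 - C (g2 / 2), -X (i, 1)] : Fin 4 → FTr.R0 k0 m) 3) =
          -wp a b (v i) := by
      show FTr.ev a b k0 v (-X (i, 1)) = _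
      rw [map_neg, FTr.ev_X]
      rfl
    rw [h5] at h1
    exact h1
  · rw [hv0]
    simpa using hq2


theorem mem_of_rigid {a b : ℂ} (h : Ind a b) (ha : IsPR O a) (hb : IsPR O b) {x : ℂ}
    (hx : Rigid a b (EF O) x) : x ∈ EF O := by
  classical
  obtain ⟨V, hV, hx⟩ := hx
  by_cases hoff : Off a b x
  · by_contra hcon
    let W : Finset ℂ := insert x V
    have hWoff : ∀ v ∈ W, Off a b v := by
      intro v hv
      rcases Finset.mem_insert.1 hv with rfl | hv
      · exact hoff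
      · exact hV v hv
    let e : W ≃ Fin W.card := W.equivFin
    have hxW : x ∈ W := Finset.mem_insert_self _ _
    let k : Fin W.card := e ⟨x, hxW⟩
    have hvk : ((e.symm k : W) : ℂ) = x := by
      simp only [k, Equiv.symm_apply_apply]
    obtain ⟨δ, hδ, hne⟩ := transfer_fix_cl h ha hb W.card k (fun i => ((e.symm i : W) : ℂ))
      (fun i => hWoff _ (e.symm i).2) (by rw [hvk]; exact hcon)
    apply hne
    simp only [hvk]
    apply hx
    intro v hv
    have := hδ (e ⟨v, Finset.mem_insert_of_mem hv⟩)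
    simpa only [Equiv.symm_apply_apply] using this
  · obtain ⟨y, hy⟩ := (Basic.not_off_iff a b x).1 hoff
    rw [hy]
    exact isPR_lat ha hb y

theorem mem_of_algebraic_aux {a b : ℂ} (h : Ind a b) (ha : IsPR O a) (hb : IsPR O b) {x : ℂ}
    (hx : IsAlgebraic (EF O) x) : x ∈ EF O := by
  have hfld : FE.fld a b (EF O) = EF O := by
    ext z
    exact ⟨fun hz => mem_of_rigid h ha hb hz, fun hz => FE.rigid_of_mem hz⟩
  apply mem_of_rigid h ha hb
  apply FE.rigid_of_algebraic
  rw [hfld]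
  exact hx

/-- the field of primitive recursive numbers is algebraically closed -/
theorem EF_algClosed {x : ℂ} (hx : IsAlgebraic (EF O) x) : x ∈ EF O :=
  mem_of_algebraic_aux (a := 1) (b := Complex.I) (by simp [Ind]) IsPR.one IsPR.I hx

theorem endL_le {a b : ℂ} (h : Ind a b) (ha : IsPR O a) (hb : IsPR O b) :
    (EndL a b : Set ℂ) ⊆ EF O := by
  intro α hα
  obtain ⟨y, hy⟩ := hα (1, 0)
  have ha0 : a ≠ 0 := Comb.ne_zero_left h
  have e : α = lat a b y / a := by
    rw [← hy]
    simp only [lat]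
    push_cast
    field_simp
    ring
  rw [e]
  exact div_mem (isPR_lat ha hb y) ha

/-- the relative Schanuel property over the field of primitive recursive numbers -/
theorem goodE_cl (hO : ((EF O : Subfield ℂ) : Set ℂ).Countable) {a b : ℂ} (h : Ind a b) (ha : IsPR O a) (hb : IsPR O b) :
    GoodE a b (EF O) := by
  classical
  have hcl : ∀ z ∈ EF O, Off a b z → wp a b z ∈ EF O ∧ wq a b z ∈ EF O ∧ wz a b z ∈ EF O :=
    fun z hz hoff => ⟨isPR_wp h hoff ha hb hz, isPR_wq h hoff ha hb hz, isPR_wz h hoff ha hb hz⟩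
  have hS : CombProp a b (EF O : Set ℂ) := EllPR.comb_E h (isPR_lat ha hb) (endL_le h ha hb)
    (isPR_G2 h ha hb) (isPR_G3 h ha hb) fun z hz hoff => (hcl z hz hoff).1
  obtain ⟨E, hEdef⟩ : ∃ E : Subfield ℂ, E = EF O := ⟨_, rfl⟩
  rw [← hEdef] at hS hcl ⊢
  let k0 : Subfield ℂ := E
  have hSk : (E : Set ℂ) ⊆ k0 := subset_rfl
  have hk : (k0 : Set ℂ).Countable := by
    show ((E : Subfield ℂ) : Set ℂ).Countable
    rw [hEdef]; exact hO
  have h2 : G2 a b ∈ k0 := hS.2.1
  have h3 : G3 a b ∈ k0 := hS.2.2.1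
  have hE : ∀ x, x ∈ E ↔ Rigid a b k0 x := by
    intro x
    refine ⟨fun hx => FE.rigid_of_mem hx, fun hx => ?_⟩
    rw [hEdef]
    apply mem_of_rigid h ha hb
    rw [← hEdef]
    exact hx
  have hElat : ∀ x, lat a b x ∈ E := fun x => by rw [hEdef]; exact isPR_lat ha hb x
  refine ⟨hElat, hS.1, h2, h3, hcl, ?_⟩
  intro n p hn hp
  have hoff : ∀ β : Fin n → ℂ, (∀ i, β i ∈ EndL a b) → β ≠ 0 → Off a b (∑ i, β i * p i) := by
    intro β hβ hβ0 v hv
    exact hβ0 (hp β hβ (by rw [hv]; exact hElat v))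
  have hoffp : ∀ i, Off a b (p i) := by
    intro i
    have := hoff (Pi.single i 1) (fun j => by
      by_cases hj : j = i
      · subst hj; rw [Pi.single_eq_same]; exact one_mem _
      · rw [Pi.single_eq_of_ne hj]; exact zero_mem _) (fun h0 => one_ne_zero (α := ℂ) (by
        have := congrFun h0 i
        rwa [Pi.single_eq_same] at this))
    rw [Finset.sum_eq_single i] at this
    · rwa [Pi.single_eq_same, one_mul] at this
    · intro j _ hj
      rw [Pi.single_eq_of_ne hj, zero_mul]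
    · intro hi; exact absurd (Finset.mem_univ i) hi
  let num : Fin 3 × Fin n → ℂ := fun q => ![p q.2, wp a b (p q.2), wz a b (p q.2)] q.1
  obtain ⟨s, hs, hsalg⟩ := FFin.exists_max' (E := E) num
  refine ⟨s, ?_, hs⟩
  by_contra hcard
  have hcard' : s.card ≤ 2 * n := by omega
  -- finitely many elements of `E` suffice
  choose e he1 he2 using fun q => FFin.exists_fin_alg E (num '' s) (hsalg q)
  let e0 : Finset ℂ := Finset.univ.biUnion e
  have he0 : ∀ c ∈ e0, Rigid a b k0 c := by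
    intro c hc
    rw [Finset.mem_biUnion] at hc
    obtain ⟨q, -, hq⟩ := hc
    exact (hE c).1 (he1 q (by exact_mod_cast hq))
  obtain ⟨K, D, hK, hDK, hpK, hgood, heK, hgen⟩ := generic_der h k0 hk h2 h3 p hoffp e0 he0
  let t : Fin s.card → ℂ := fun k => num (s.equivFin.symm k)
  have hrange : Set.range t = num '' s := by
    ext c
    constructor
    · rintro ⟨k, rfl⟩
      exact ⟨_, (s.equivFin.symm k).2, rfl⟩
    · rintro ⟨q, hq, rfl⟩
      exact ⟨s.equivFin ⟨q, hq⟩, by simp [t]⟩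
  have hnumK : ∀ q, num q ∈ K := by
    rintro ⟨j, i⟩
    fin_cases j
    · exact (hpK i).1
    · exact (hpK i).2.1
    · exact (hpK i).2.2.2
  have halg : ∀ q, IsAlgebraic (Subfield.closure ((e0 : Set ℂ) ∪ Set.range t)) (num q) := by
    intro q
    rw [hrange]
    refine FFin.alg_up (Subfield.closure_mono (Set.union_subset_union_left _ ?_)) (he2 q)
    intro c hc
    exact Finset.mem_coe.2 (Finset.mem_biUnion.2 ⟨q, Finset.mem_univ _, by exact_mod_cast hc⟩)
  refine FFin.contra h hS k0 hSk hn p K D hK hDK hpK hgood hoff ?_ heK hcard' t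
    (fun k => hnumK _) (fun i => ⟨halg (0, i), halg (1, i), halg (2, i)⟩)
  intro β hβ hβ0
  refine hgen β (fun i => hSk (hS.1 (hβ i))) fun hr => hβ0 (hp β hβ ((hE _).2 hr))


end Pool.Agent.EllCL
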