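import Pool.Agent.EllCL.Num

/-!
# The ring of functions with coefficients in a subfield
-/

open MvPolynomial

namespace Pool.Agent.EllCL

open Pool.Agent.EllSch

noncomputable section

/-- the polynomial ring over a subfield -/
abbrev RK (k0 : Subfield ℂ) (n : ℕ) : Type := MvPolynomial (VIx n) k0

variable (k0 : Subfield ℂ) {n : ℕ}

/-- evaluation -/
def kev (v : PIx n → ℂ) : RK k0 n →+* ℂ := (aeval (nval v) : RK k0 n →ₐ[k0] ℂ).toRingHom

/-- the inclusion of the ring with rational coefficients -/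
def inc : RR n →+* RK k0 n := MvPolynomial.map (algebraMap ℚ k0)

theorem kev_X (v : PIx n → ℂ) (x : VIx n) : kev k0 v (X x) = nval v x := by
  simp [kev]

theorem kev_C (v : PIx n → ℂ) (c : k0) : kev k0 v (C c) = c := by
  show (aeval (nval v) : RK k0 n →ₐ[k0] ℂ) (C c) = c
  rw [aeval_C]
  rfl

theorem inc_X (x : VIx n) : inc k0 (X x) = X x := by
  simp [inc]

theorem kev_inc (v : PIx n → ℂ) (h : RR n) : kev k0 v (inc k0 h) = nev v h := by
  have h1 : (kev k0 v).comp (inc k0) = nev v := by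
    apply MvPolynomial.ringHom_ext
    · intro c
      exact (eq_ratCast (((kev k0 v).comp (inc k0)).comp C) c).trans
        (eq_ratCast ((nev v).comp C) c).symm
    · intro x
      rw [RingHom.comp_apply, inc_X, kev_X, NumSetup.nev_X]
  rw [← h1]
  rfl

/-- the derivation -/
def dk (k : PIx n) : Derivation ℤ (RK k0 n) (RK k0 n) :=
  (mkDerivation k0 fun x => inc k0 (NumSetup.dd n k (X x))).restrictScalars ℤ

theorem dk_X (k : PIx n) (x : VIx n) : dk k0 k (X x) = inc k0 (NumSetup.dd n k (X x)) :=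
  mkDerivation_X k0 _ x

theorem dk_C (k : PIx n) (c : k0) : dk k0 k (C c) = 0 :=
  derivation_C (mkDerivation k0 fun x => inc k0 (NumSetup.dd n k (X x))) c

theorem dk_inc (k : PIx n) (h : RR n) : dk k0 k (inc k0 h) = inc k0 (NumSetup.dd n k h) := by
  induction h using MvPolynomial.induction_on with
  | C c =>
    rw [NumSetup.dd_C, map_zero]
    have h1 : inc k0 (C c : RR n) = C (algebraMap ℚ k0 c) := MvPolynomial.map_C _ _
    rw [h1, dk_C]
  | add p q hp hq => rw [map_add, map_add, hp, hq, map_add, map_add]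
  | mul_X p x hp =>
    rw [map_mul, Derivation.leibniz, Derivation.leibniz, hp, inc_X, dk_X]
    simp only [smul_eq_mul, map_add, map_mul, inc_X]

theorem sum_dk (q : PIx n → RK k0 n) (h : RK k0 n) :
    (∑ k, q k • dk k0 k : Derivation ℤ (RK k0 n) (RK k0 n)) h = ∑ k, q k * dk k0 k h := by
  have h1 := map_sum (Derivation.coeFnAddMonoidHom :
    Derivation ℤ (RK k0 n) (RK k0 n) →+ RK k0 n → RK k0 n)
    (fun k => q k • dk k0 k) Finset.univ
  have h2 := congrFun h1 h
  rw [Finset.sum_apply] at h2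
  exact h2

theorem kstrict {v : PIx n → ℂ} (hv : v ∈ UU n) (T : RK k0 n) :
    NumSetup.Str v (fun v => kev k0 v T) (fun k => kev k0 v (dk k0 k T)) := by
  induction T using MvPolynomial.induction_on with
  | C c =>
    refine ⟨0, ?_, fun k => ?_⟩
    · simp only [kev_C]
      exact hasStrictFDerivAt_const _ _
    · show det (v (Sum.inl 0)) (v (Sum.inl 1)) * (0 : (PIx n → ℂ) →L[ℂ] ℂ) (Pi.single k 1) =
        kev k0 v (dk k0 k (C c))
      rw [dk_C]; simp
  | add p q hp hq =>
    obtain ⟨L, hL, hL'⟩ := hp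
    obtain ⟨M, hM, hM'⟩ := hq
    refine ⟨L + M, ?_, fun k => ?_⟩
    · simp only [map_add]
      exact hL.add hM
    · have h1 := hL' k
      have h2 := hM' k
      simp only [map_add] at *
      rw [_root_.add_apply, mul_add, h1, h2]
  | mul_X p x hp =>
    obtain ⟨L, hL, hL'⟩ := hp
    obtain ⟨M, hM, hM'⟩ := NumSetup.strict_X hv x
    have e1 : ∀ w : PIx n → ℂ, kev k0 w (X x) = nev w (X x) := fun w => by
      rw [kev_X, NumSetup.nev_X]
    refine ⟨kev k0 v p • M + kev k0 v (X x) • L, ?_, fun k => ?_⟩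
    · simp only [map_mul]
      have hM2 : HasStrictFDerivAt (fun v => kev k0 v (X x)) M v := by
        simp only [e1]
        exact hM
      exact hL.mul hM2
    · have h1 := hL' k
      have h2 := hM' k
      simp only at h1 h2
      show det (v (Sum.inl 0)) (v (Sum.inl 1)) *
        (kev k0 v p • M + kev k0 v (X x) • L) (Pi.single k 1) = kev k0 v (dk k0 k (p * X x))
      rw [Derivation.leibniz, map_add, smul_eq_mul, smul_eq_mul, map_mul, map_mul, ← h1, dk_X,
        kev_inc, ← h2]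
      simp only [_root_.add_apply, _root_.smul_apply, smul_eq_mul]
      ring

/-- the point `v` carries a vector field tangent to all the relations over the subfield along which
`b / a` varies -/
def VarK (n : ℕ) (v : PIx n → ℂ) : Prop := ∃ q : PIx n → RK k0 n,
  (∀ h : RK k0 n, kev k0 v h = 0 → kev k0 v (∑ k, q k * dk k0 k h) = 0) ∧
  kev k0 v (∑ k, q k * inc k0 (NumSetup.bk n k)) ≠ 0

/-- values of the derivation on the variables -/
def genK (α β : RK k0 n) (γ : Fin n → RK k0 n) (x : VIx n) : RK k0 n :=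
  α * inc k0 (NumSetup.gA x) + β * inc k0 (NumSetup.gB x) +
    Sum.elim (fun _ => 0) (fun q => γ q.1 * inc k0 (NumSetup.gG q)) x

theorem sum_genK (q : PIx n → RK k0 n) (α β : PIx n → RR n) (γ : PIx n → Fin n → RR n)
    (x : VIx n) :
    ∑ k, q k * inc k0 (NumSetup.gen (α k) (β k) (γ k) x) =
      genK k0 (∑ k, q k * inc k0 (α k)) (∑ k, q k * inc k0 (β k))
        (fun i => ∑ k, q k * inc k0 (γ k i)) x := by
  unfold NumSetup.gen genK
  rcases x with j | p
  · simp only [Sum.elim_inl, add_zero, map_add, map_mul, mul_add, Finset.sum_add_distrib,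
      Finset.sum_mul]
    congr 1 <;> exact Finset.sum_congr rfl fun k _ => by ring
  · simp only [Sum.elim_inr, map_add, map_mul, mul_add, Finset.sum_add_distrib, Finset.sum_mul]
    congr 1
    · congr 1 <;> exact Finset.sum_congr rfl fun k _ => by ring
    · exact Finset.sum_congr rfl fun k _ => by ring

theorem num_field_K (v : PIx n → ℂ) (hv : v ∈ UU n) (hq : VarK k0 n v) :
    ∃ (K : Type) (_ : Field K) (_ : Algebra ℂ K) (D : Derivation ℂ K K) (φ : RK k0 n →+* K),
      Good D (φ.comp (inc k0)) v ∧ (∀ h, φ h = 0 ↔ kev k0 v h = 0) ∧ ∀ c, D (φ (C c)) = 0 := by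
  obtain ⟨q, hq1, hq2⟩ := hq
  set δ : Derivation ℤ (RK k0 n) (RK k0 n) := ∑ k, q k • dk k0 k with hδ
  have hδa : ∀ h, δ h = ∑ k, q k * dk k0 k h := by
    intro h
    rw [hδ]
    exact sum_dk k0 q h
  obtain ⟨α, hα⟩ : ∃ α : RK k0 n, α = ∑ k, q k * inc k0 (NumSetup.ak n k) := ⟨_, rfl⟩
  obtain ⟨β, hβ'⟩ : ∃ β : RK k0 n, β = ∑ k, q k * inc k0 (NumSetup.bk n k) := ⟨_, rfl⟩
  obtain ⟨γ, hγ⟩ : ∃ γ : Fin n → RK k0 n, γ = fun i => ∑ k, q k * inc k0 (NumSetup.gk n k i) :=
    ⟨_, rfl⟩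
  have hX : ∀ x, δ (inc k0 (X x)) = genK k0 α β γ x := by
    intro x
    rw [hδa, hα, hβ', hγ]
    simp only [dk_inc, NumSetup.dd_X]
    exact sum_genK k0 _ _ _ _ _
  have hβ : kev k0 v β ≠ 0 := by rw [hβ']; exact hq2
  have hker : ∀ h, kev k0 v h = 0 → kev k0 v (δ h) = 0 := by
    intro h hh
    rw [hδa]
    exact hq1 h hh
  have ea : δ (inc k0 va) = α * inc k0 va + β * inc k0 ve1 := by
    refine (hX (Sum.inl 0)).trans ?_
    simp only [genK, NumSetup.gA, NumSetup.gB, Sum.elim_inl, Matrix.cons_val]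
    ring
  have eb : δ (inc k0 vb) = α * inc k0 vb + β * inc k0 ve2 := by
    refine (hX (Sum.inl 1)).trans ?_
    simp only [genK, NumSetup.gA, NumSetup.gB, Sum.elim_inl, Matrix.cons_val]
    ring
  have e1 : δ (inc k0 ve1) = -(α * inc k0 ve1) -
      β * (inc k0 (C (1 / 12)) * inc k0 vg2) * inc k0 va := by
    refine (hX (Sum.inl 2)).trans ?_
    simp only [genK, NumSetup.gA, NumSetup.gB, Sum.elim_inl, Matrix.cons_val, map_neg, map_mul]
    ring
  have e2 : δ (inc k0 ve2) = -(α * inc k0 ve2) -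
      β * (inc k0 (C (1 / 12)) * inc k0 vg2) * inc k0 vb := by
    refine (hX (Sum.inl 3)).trans ?_
    simp only [genK, NumSetup.gA, NumSetup.gB, Sum.elim_inl, Matrix.cons_val, map_neg, map_mul]
    ring
  have eg2 : δ (inc k0 vg2) = -(4 * α * inc k0 vg2) - 6 * β * inc k0 vg3 := by
    refine (hX (Sum.inl 4)).trans ?_
    simp only [genK, NumSetup.gA, NumSetup.gB, Sum.elim_inl, Matrix.cons_val, map_neg, map_mul,
      map_ofNat]
    ring
  have eg3 : δ (inc k0 vg3) = -(6 * α * inc k0 vg3) -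
      β * (inc k0 (C (1 / 3)) * inc k0 vg2 ^ 2) := by
    refine (hX (Sum.inl 5)).trans ?_
    simp only [genK, NumSetup.gA, NumSetup.gB, Sum.elim_inl, Matrix.cons_val, map_neg, map_mul,
      map_ofNat, map_pow]
    ring
  have ep : ∀ i, δ (inc k0 (vp i)) = α * inc k0 (vp i) + β * inc k0 (vz i) + γ i ∧
      δ (inc k0 (vx i)) = -(2 * α * inc k0 (vx i)) + β * (-(2 * inc k0 (vx i) ^ 2) +
        inc k0 (C (1 / 3)) * inc k0 vg2) + γ i * inc k0 (vy i) ∧
      δ (inc k0 (vz i)) = -(α * inc k0 (vz i)) + β * (inc k0 (C (1 / 2)) * inc k0 (vy i) -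
        inc k0 (C (1 / 12)) * inc k0 vg2 * inc k0 (vp i)) - γ i * inc k0 (vx i) := by
    intro i
    refine ⟨(hX (Sum.inr (i, 0))).trans ?_, (hX (Sum.inr (i, 1))).trans ?_,
      (hX (Sum.inr (i, 3))).trans ?_⟩
    · simp only [genK, NumSetup.gA, NumSetup.gB, NumSetup.gG, Sum.elim_inr, Matrix.cons_val,
        map_one]
      ring
    · simp only [genK, NumSetup.gA, NumSetup.gB, NumSetup.gG, Sum.elim_inr, Matrix.cons_val,
        map_neg, map_mul, map_add, map_pow, map_ofNat]
      ring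
    · simp only [genK, NumSetup.gA, NumSetup.gB, NumSetup.gG, Sum.elim_inr, Matrix.cons_val,
        map_neg, map_mul, map_sub]
      ring
  obtain ⟨ψ, -, hψD, hψ0⟩ := taylor (RK k0 n) (kev k0 v) δ hker
  obtain ⟨K, iF, iA, D, ι, hι, hιD, hconst⟩ := exists_diffField
  have : CharZero K := charZero_of_injective_algebraMap (algebraMap ℂ K).injective
  let Φ : RK k0 n →+* K := (ι : PowerSeries ℂ →+* K).comp ψ
  have hΦ0 : ∀ h, Φ h = 0 ↔ kev k0 v h = 0 := by
    intro h
    rw [← hψ0 h]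
    change ι (ψ h) = 0 ↔ _
    rw [map_eq_zero_iff ι hι]
  have hΦD : ∀ h, D (Φ h) = Φ (δ h) := by
    intro h
    have h1 := hψD h
    have h2 := hιD (ψ h)
    exact h2.trans (congrArg ι h1.symm)
  let φ : RR n →+* K := Φ.comp (inc k0)
  have hφΦ : ∀ h, φ h = Φ (inc k0 h) := fun h => rfl
  have hφ0 : ∀ h, φ h = 0 ↔ nev v h = 0 := by
    intro h
    rw [hφΦ, hΦ0, kev_inc]
  have hC : ∀ c : ℚ, Φ (inc k0 (C c)) = (c : K) := fun c => NumK.map_C φ c
  have hΔ : φ vg2 ^ 3 - 27 * φ vg3 ^ 2 ≠ 0 := by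
    have h1 : φ (vg2 ^ 3 - 27 * vg3 ^ 2) = φ vg2 ^ 3 - 27 * φ vg3 ^ 2 := by
      simp only [map_sub, map_mul, map_pow, map_ofNat]
    rw [← h1]
    intro h
    rw [hφ0] at h
    simp only [map_sub, map_mul, map_pow, map_ofNat, NumSetup.nev_vg2, NumSetup.nev_vg3] at h
    exact disc_ne_zero hv.1 h
  have d2 : D (φ vg2) = -4 * Φ α * φ vg2 - 6 * Φ β * φ vg3 := by
    rw [hφΦ, hΦD, eg2]
    simp only [map_sub, map_mul, map_neg, map_ofNat, hφΦ]
    ring
  have d3 : D (φ vg3) = -6 * Φ α * φ vg3 - Φ β * φ vg2 ^ 2 / 3 := by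
    rw [hφΦ, hΦD, eg3]
    simp only [map_sub, map_mul, map_neg, map_ofNat, map_pow, hC, hφΦ]
    push_cast
    ring
  obtain ⟨hal, hbe⟩ := al_be_unique hΔ d2 d3
  refine ⟨K, iF, iA, D, Φ, ⟨hv, hconst, hφ0, ?_, ?_, ?_, ?_⟩, hΦ0, fun c => ?_⟩
  · show be (φ vg2) (φ vg3) D ≠ 0
    rw [hbe]
    intro h
    exact hβ ((hΦ0 _).1 h)
  · show nab (φ vg2) (φ vg3) D (φ va, φ ve1) = 0
    unfold nab
    rw [hal, hbe]
    ext
    · simp only [hφΦ, hΦD, ea, map_add, map_mul, Prod.fst_zero]
      ring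
    · simp only [hφΦ, hΦD, e1, map_sub, map_mul, map_neg, hC, Prod.snd_zero]
      push_cast
      ring
  · show nab (φ vg2) (φ vg3) D (φ vb, φ ve2) = 0
    unfold nab
    rw [hal, hbe]
    ext
    · simp only [hφΦ, hΦD, eb, map_add, map_mul, Prod.fst_zero]
      ring
    · simp only [hφΦ, hΦD, e2, map_sub, map_mul, map_neg, hC, Prod.snd_zero]
      push_cast
      ring
  · intro i hy
    show nab (φ vg2) (φ vg3) D (φ (vp i), φ (vz i)) =
      src (φ vg2) (φ vg3) (φ (vx i)) (φ (vy i)) D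
    have hy' : φ (vy i) ≠ 0 := by
      intro h
      exact hy ((hφ0 _).1 h)
    obtain ⟨p1, p2, p4⟩ := ep i
    have hga : ga (φ vg2) (φ vg3) (φ (vx i)) (φ (vy i)) D = Φ (γ i) := by
      have hy2 := hy'
      unfold ga
      rw [hal, hbe]
      rw [div_eq_iff hy2, hφΦ (vx i), hΦD, p2]
      simp only [map_add, map_mul, map_neg, map_pow, map_ofNat, hC, hφΦ]
      push_cast
      ring
    unfold nab src
    rw [hal, hbe, hga]
    ext
    · simp only [hφΦ, hΦD, p1, map_add, map_mul]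
      ring
    · simp only [hφΦ, hΦD, p4, map_sub, map_add, map_mul, map_neg, hC]
      push_cast
      ring
  · rw [hΦD, hδa]
    have h1 : ∑ k, q k * dk k0 k (C c) = 0 := by
      apply Finset.sum_eq_zero
      intro k _
      rw [dk_C, mul_zero]
    rw [h1, map_zero]

/-- transfer of algebraic independence -/
theorem indepK {κ : Type} {v : PIx n → ℂ} {K : Type} [Field K] [Algebra ℂ K]
    {D : Derivation ℂ K K} (hconst : ∀ x, D x = 0 → x ∈ Set.range (algebraMap ℂ K))
    (φ : RK k0 n →+* K) (h0 : ∀ h, φ h = 0 ↔ kev k0 v h = 0) (hc : ∀ c, D (φ (C c)) = 0)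
    (e : κ → RR n) (hind : AlgebraicIndependent ℂ fun k => φ (inc k0 (e k))) :
    AlgebraicIndependent k0 fun k => nev v (e k) := by
  -- the embedding of the coefficients
  choose g hg using fun c : k0 => hconst (φ (C c)) (hc c)
  have hinj : Function.Injective (algebraMap ℂ K) := (algebraMap ℂ K).injective
  let σ : k0 →+* ℂ :=
    { toFun := g
      map_one' := hinj (by rw [hg, map_one, map_one, map_one])
      map_mul' := fun x y => hinj (by rw [hg, map_mul, map_mul, map_mul, hg, hg])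
      map_zero' := hinj (by rw [hg, map_zero, map_zero, map_zero])
      map_add' := fun x y => hinj (by rw [hg, map_add, map_add, map_add, hg, hg]) }
  have hσ : ∀ c, algebraMap ℂ K (σ c) = φ (C c) := hg
  rw [algebraicIndependent_iff] at hind ⊢
  intro P hP
  have h1 : kev k0 v (aeval (fun k => inc k0 (e k)) P) = 0 := by
    rw [← hP]
    have h2 : ((aeval (nval v) : RK k0 n →ₐ[k0] ℂ).comp (aeval fun k => inc k0 (e k))) =
        (aeval fun k => nev v (e k) : MvPolynomial κ k0 →ₐ[k0] ℂ) := by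
      apply MvPolynomial.algHom_ext
      intro k
      rw [AlgHom.comp_apply, aeval_X, aeval_X]
      exact kev_inc k0 v (e k)
    rw [← h2]
    rfl
  rw [← h0] at h1
  have h2 : φ (aeval (fun k => inc k0 (e k)) P) =
      aeval (fun k => φ (inc k0 (e k))) (MvPolynomial.map σ P) := by
    have h3 : φ.comp (aeval (fun k => inc k0 (e k)) : MvPolynomial κ k0 →ₐ[k0] RK k0 n).toRingHom =
        ((aeval fun k => φ (inc k0 (e k)) : MvPolynomial κ ℂ →ₐ[ℂ] K).toRingHom).comp
          (MvPolynomial.map σ) := by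
      apply MvPolynomial.ringHom_ext
      · intro c
        show φ ((aeval (fun k => inc k0 (e k)) : MvPolynomial κ k0 →ₐ[k0] RK k0 n) (C c)) =
          (aeval fun k => φ (inc k0 (e k)) : MvPolynomial κ ℂ →ₐ[ℂ] K) (MvPolynomial.map σ (C c))
        rw [aeval_C, MvPolynomial.map_C, aeval_C, hσ]
        rfl
      · intro k
        show φ ((aeval (fun k => inc k0 (e k)) : MvPolynomial κ k0 →ₐ[k0] RK k0 n) (X k)) =
          (aeval fun k => φ (inc k0 (e k)) : MvPolynomial κ ℂ →ₐ[ℂ] K) (MvPolynomial.map σ (X k))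
        rw [aeval_X, MvPolynomial.map_X, aeval_X]
    exact congrArg (fun f : MvPolynomial κ k0 →+* K => f P) h3
  rw [h2] at h1
  have h4 := hind _ h1
  exact (map_eq_zero_iff _ (MvPolynomial.map_injective σ σ.injective)).1 h4

variable {O : CF}

theorem ca_kev {b : PIx n → ℂ} (hb : b ∈ UU n) (x : RK O.K n) :
    CA O (fun v => kev O.K v x) b := by
  induction x using MvPolynomial.induction_on with
  | C c =>
    simp only [kev_C]
    exact CA.const c.2 b
  | add p q hp hq =>
    simp only [map_add]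
    exact hp.add hq
  | mul_X p x hp =>
    simp only [map_mul, kev_X]
    exact hp.mul (ca_nval hb x)

theorem varK_or_mem (n : ℕ) (v : PIx n → ℂ) (hv : v ∈ UU n) :
    VarK O.K n v ∨ IsPR O (v (Sum.inl 1) / v (Sum.inl 0)) := by
  classical
  by_cases hq : VarK O.K n v
  · exact Or.inl hq
  · right
    exact transfer_cl (O := O) (Sum.inl 0) (RK O.K n) (kev (n := n) O.K) (UU n)
      NumSetup.isOpen_UU (dk O.K) (fun v => det (v (Sum.inl 0)) (v (Sum.inl 1)))
      (fun v hv => det_ne_zero hv.1) (fun k => inc O.K ((Sum.elim ![va, vb] vp) k))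
      (fun v hv k => by rw [kev_inc]; exact NumSetup.nev_coord v hv k)
      (fun v hv T => kstrict O.K hv T)
      (fun v => v (Sum.inl 1) / v (Sum.inl 0)) (fun k => inc O.K (NumSetup.bk n k))
      (fun v => 1 / v (Sum.inl 0) ^ 2)
      (fun v hv => by
        simp only [kev_inc]
        exact NumSetup.strict_tau hv) (fun v hv x => ca_kev hv x)
      (fun v hv => (CA.proj _ v).div (CA.proj _ v) (by
        intro h0
        apply hv.1
        rw [h0]; simp)) v hv hq

/-- **Main theorem** over an elliptically closed field. -/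
theorem coreK (n : ℕ) (v : PIx n → ℂ) (hv : v ∈ UU n)
    (hτ : v (Sum.inl 1) / v (Sum.inl 0) ∉ O.K)
    (hp : ∀ m : Fin n → ℤ, ∑ i, (m i : ℂ) * v (Sum.inr i) = 0 → m = 0) :
    ∃ s : Finset (EIx n), AlgebraicIndependent O.K (fun i : s => nev v (ee n i)) ∧
      2 * n ≤ s.card ∧ (2 * n + 1 ≤ s.card ∨
        ∃ (k k' : Fin n → ℤ) (x x' : ℤ × ℤ), x.1 * x'.2 - x.2 * x'.1 ≠ 0 ∧
          ∑ i, (k i : ℂ) * v (Sum.inr i) = lat (v (Sum.inl 0)) (v (Sum.inl 1)) x ∧
          ∑ i, (k' i : ℂ) * v (Sum.inr i) = lat (v (Sum.inl 0)) (v (Sum.inl 1)) x') := by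
  classical
  obtain ⟨K, iK, iA, D, φ, H, h0, hc⟩ := num_field_K O.K v hv ((varK_or_mem n v hv).resolve_right hτ)
  obtain ⟨s, hs1, hs2⟩ := exists_max (fun i => (φ.comp (inc O.K)) (ee n i))
  obtain ⟨r, f, hf, hrank, hcase⟩ := rank_split hv.1 (fun i => v (Sum.inr i)) hp
  have hnum : AlgebraicIndependent O.K (fun i : s => nev v (ee n i)) :=
    indepK O.K H.hconst φ h0 hc (fun i : s => ee n i) hs1
  refine ⟨s, hnum, ?_⟩
  rcases hcase with hr | ⟨hr, k, x, hx, hk⟩ | ⟨hr, k, k', x, x', hx, hk, hk'⟩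
  · subst hr
    have hb : Function.Bijective f := Finite.injective_iff_bijective.1 hf
    have h1 : 2 * r + 1 ≤ s.card := H.case0 (fun m x hm => by
      have h4 := hrank (m ∘ f) x (by
        rw [← hm]
        exact Function.Bijective.sum_comp hb (fun k => (m k : ℂ) * v (Sum.inr k)))
      funext k
      obtain ⟨j, rfl⟩ := hb.2 k
      exact congrFun h4 j) s hs2
    exact ⟨by omega, Or.inl h1⟩
  · have h1 : 2 * n + 1 ≤ s.card := H.case1 hr f hrank k x hx hk s hs2
    exact ⟨by omega, Or.inl h1⟩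
  · have h1 := H.case2 hr f hrank k k' x x' hx hk hk' s hs2
    exact ⟨h1, Or.inr ⟨k, k', x, x', hx, hk, hk'⟩⟩

end

end Pool.Agent.EllCL
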