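import Pool.Agent.EllCL.Closed
import Pool.Agent.EllCL.RingK
import Pool.Agent.EllSch.Fix.Trdeg

/-!
# The relative Schanuel property over an arbitrary elliptically closed field
-/

open Cardinal

namespace Pool.Agent.EllCL

open Pool.Agent.EllSch

variable {O : CF}

/-- an element which is algebraic over a field generated by a subset is algebraic over the adjunction
of the rest of the subset to a field which contains part of it -/
theorem alg_adjoin {K' : Subfield ℂ} {e A : Set ℂ} (he : e ⊆ K') {x : ℂ}
    (hx : IsAlgebraic (Subfield.closure (e ∪ A)) x) :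
    IsAlgebraic (IntermediateField.adjoin K' A) x := by
  have h1 : Subfield.closure (e ∪ A) ≤ (IntermediateField.adjoin K' A).toSubfield := by
    rw [Subfield.closure_le]
    rintro y (hy | hy)
    · have h2 := (IntermediateField.adjoin K' A).algebraMap_mem ⟨y, he hy⟩
      exact h2
    · exact IntermediateField.subset_adjoin K' A hy
  exact hx.ringHom_of_comp_eq (Subfield.inclusion h1) (RingHom.id ℂ)
    (Subfield.inclusion h1).injective rfl

/-- the relative Schanuel property -/
theorem rel_all {a b : ℂ} (h : Ind a b) (ha : IsPR O a) (hb : IsPR O b) (n : ℕ) (p : Fin n → ℂ)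
    (hn : 0 < n)
    (hp : ∀ α : Fin n → ℂ, (∀ i, α i ∈ EndL a b) → ∑ i, α i * p i ∈ O.K → α = 0) :
    ∃ s : Finset (Fin 3 × Fin n), 2 * n + 1 ≤ s.card ∧
      AlgebraicIndependent O.K (fun i : s => pnum a b p i) := by
  classical
  obtain ⟨s, hs1, hs2⟩ := Final2.exists_max2 (E := O.K) (pnum a b p)
  refine ⟨s, ?_, hs1⟩
  choose e he1 he2 using fun q => FFin.exists_fin_alg O.K (pnum a b p '' s) (hs2 q)
  let e0 : Finset ℂ := Finset.univ.biUnion e
  let A : Set ℂ := (e0 : Set ℂ) ∪ {a, b}
  have hA : A ⊆ O.K := by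
    rintro x (hx | rfl | rfl)
    · obtain ⟨q, -, hq⟩ := Finset.mem_biUnion.1 (Finset.mem_coe.1 hx)
      exact he1 q (by exact_mod_cast hq)
    · exact ha
    · exact hb
  let O' : CF := ⟨ecl A, closed_ecl A⟩
  have hO' : ((EF O' : Subfield ℂ) : Set ℂ).Countable :=
    countable_ecl ((Finset.countable_toSet e0).union (Set.toFinite _).countable)
  have hle : O'.K ≤ O.K := ecl_le O.closed hA
  have ha' : IsPR O' a := subset_ecl A (Or.inr (Or.inl rfl))
  have hb' : IsPR O' b := subset_ecl A (Or.inr (Or.inr rfl))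
  obtain ⟨s', hs'1, hs'2⟩ := (goodE_cl (O := O') hO' h ha' hb').rel n p hn
    fun α hα h0 => hp α hα (hle h0)
  have h1 := Final2.card_le (k := O'.K) (pnum a b p) s (fun i : s' => pnum a b p i) hs'2
    (fun i => alg_adjoin (fun x hx => subset_ecl A (Or.inl (Finset.mem_coe.2
      (Finset.mem_biUnion.2 ⟨(i : Fin 3 × Fin n), Finset.mem_univ _, by exact_mod_cast hx⟩))))
      (he2 i))
  rw [Fintype.card_coe] at h1
  exact hs'1.trans h1

end Pool.Agent.EllCL
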