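import Mathlib

/-!
# Lower elementary complex numbers
-/

namespace Pool.Agent.EllCL

/-- the lower elementary functions (Skolem): the smallest class of functions of finitely many
natural numbers which contains the zero functions, the successor function, the projections and the
truncated difference and which is closed under composition and bounded summation
`(m, x) ↦ ∑_{i ≤ m} g (i, x)` -/
inductive LowerElem : {n : ℕ} → ((Fin n → ℕ) → ℕ) → Prop
  | zero {n : ℕ} : LowerElem fun _ : Fin n → ℕ => 0
  | succ : LowerElem fun v : Fin 1 → ℕ => v 0 + 1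
  | proj {n : ℕ} (i : Fin n) : LowerElem fun v => v i
  | sub : LowerElem fun v : Fin 2 → ℕ => v 0 - v 1
  | comp {m n : ℕ} {f : (Fin m → ℕ) → ℕ} {g : Fin m → (Fin n → ℕ) → ℕ} : LowerElem f →
      (∀ i, LowerElem (g i)) → LowerElem fun v => f fun i => g i v
  | sum {n : ℕ} {g : (Fin (n + 1) → ℕ) → ℕ} : LowerElem g →
      LowerElem fun v : Fin (n + 1) → ℕ => ∑ i ∈ Finset.range (v 0 + 1), g (Function.update v 0 i)

/-- `z` is a lower elementary complex number: the Gaussian rational approximations
`((p n - q n) + (r n - s n) i) / (t n + 1)`, with lower elementary `p, q, r, s, t`, are at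
distance at most `1 / (n + 1)` from `z` -/
def IsLowerElem (z : ℂ) : Prop :=
  ∃ p q r s t : ℕ → ℕ, (∀ f ∈ [p, q, r, s, t], LowerElem fun v : Fin 1 → ℕ => f (v 0)) ∧
    ∀ n : ℕ, ‖z - (((p n : ℂ) - q n) + ((r n : ℂ) - s n) * Complex.I) / ((t n : ℂ) + 1)‖ ≤
      1 / ((n : ℝ) + 1)

end Pool.Agent.EllCL
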