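import Pool.Agent.EllCL.General

/-! # The results in plain terms -/

open Cardinal

namespace Pool.Agent.EllCL

open Pool.Agent.EllSch

theorem g₂_eq (a b : ℂ) : g₂ a b = G2 a b := (G2_split a b).symm
theorem g₃_eq (a b : ℂ) : g₃ a b = G3 a b := (G3_split a b).symm

theorem F_eq {k : Type} [Field k] [Algebra k ℂ] {ω₁ ω₂ : ℂ} (h : Ind ω₁ ω₂) {n : ℕ}
    (p : Fin n → ℂ) :
    F k ω₁ ω₂ p = IntermediateField.adjoin k (Set.range (cnum ω₁ ω₂ p)) := by
  unfold F
  congr 1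
  simp only [g₂_eq, g₃_eq, weierP_eq h, weierZ_eq h]
  ext x
  constructor
  · rintro ((rfl | rfl) | hx)
    · exact ⟨Sum.inl 0, rfl⟩
    · exact ⟨Sum.inl 1, rfl⟩
    · obtain ⟨i, (rfl | rfl | rfl)⟩ := Set.mem_iUnion.1 hx
      · exact ⟨Sum.inr (0, i), rfl⟩
      · exact ⟨Sum.inr (1, i), rfl⟩
      · exact ⟨Sum.inr (2, i), rfl⟩
  · rintro ⟨j | ⟨j, i⟩, rfl⟩
    · fin_cases j
      · exact Or.inl (Or.inl rfl)
      · exact Or.inl (Or.inr rfl)
    · refine Or.inr (Set.mem_iUnion.2 ⟨i, ?_⟩)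
      fin_cases j
      · exact Or.inl rfl
      · exact Or.inr (Or.inl rfl)
      · exact Or.inr (Or.inr rfl)

theorem nev_ee {n : ℕ} (v : PIx n → ℂ) (i : EIx n) :
    nev v (ee n i) = cnum (v (Sum.inl 0)) (v (Sum.inl 1)) (fun i => v (Sum.inr i)) i := by
  rcases i with j | ⟨j, k⟩
  · fin_cases j
    · exact NumSetup.nev_vg2 v
    · exact NumSetup.nev_vg3 v
  · fin_cases j
    · exact NumSetup.nev_vp v k
    · exact NumSetup.nev_vx v k
    · exact NumSetup.nev_vz v k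

/-- independence over the rational numbers in terms of integer coefficients -/
theorem int_ind {n : ℕ} {p : Fin n → ℂ} (hp : LinearIndependent ℚ p) (m : Fin n → ℤ)
    (hm : ∑ i, (m i : ℂ) * p i = 0) : m = 0 := by
  rw [Fintype.linearIndependent_iff] at hp
  have h1 := hp (fun i => (m i : ℚ)) (by
    rw [← hm]
    refine Finset.sum_congr rfl fun i _ => ?_
    rw [Algebra.smul_def]
    simp)
  funext i
  exact_mod_cast h1 i

/-- the theorem on shapes outside an elliptically closed field -/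
theorem shapes {K : Subfield ℂ} (hK : EllClosed K) {ω₁ ω₂ : ℂ}
    (hω : LinearIndependent ℝ ![ω₁, ω₂]) (hτ : ω₂ / ω₁ ∉ K) {n : ℕ} {p : Fin n → ℂ}
    (hoff : ∀ i x, p i ≠ latticePt ω₁ ω₂ x) (hp : LinearIndependent ℚ p) :
    ((2 * n + 1 : ℕ) : Cardinal) ≤ Algebra.trdeg ℚ (F ℚ ω₁ ω₂ p) ∧
    ((2 * n : ℕ) : Cardinal) ≤ Algebra.trdeg K (F K ω₁ ω₂ p) ∧
    (¬ (ω₁ ∈ Submodule.span ℚ (Set.range p) ∧ ω₂ ∈ Submodule.span ℚ (Set.range p)) →
      ((2 * n + 1 : ℕ) : Cardinal) ≤ Algebra.trdeg K (F K ω₁ ω₂ p)) := by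
  have h : Ind ω₁ ω₂ := (ind_iff ω₁ ω₂).2 hω
  let O : CF := ⟨K, hK⟩
  let v : PIx n → ℂ := Sum.elim ![ω₁, ω₂] p
  have hv : v ∈ UU n := ⟨h, fun i x => hoff i x⟩
  have hτ' : ¬ IsPR O (v (Sum.inl 1) / v (Sum.inl 0)) := hτ
  have hind : ∀ m : Fin n → ℤ, ∑ i, (m i : ℂ) * v (Sum.inr i) = 0 → m = 0 :=
    fun m hm => int_ind hp m hm
  refine ⟨?_, ?_⟩
  · obtain ⟨s, hs1, hs2⟩ := EllPR.core2_pt n v hv ((var_or_cl n v hv).resolve_right hτ') hind
    rw [F_eq h]
    have hs3 : AlgebraicIndependent ℚ (fun i : s => cnum ω₁ ω₂ p i) := by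
      have e : (fun i : s => nev v (ee n i)) = fun i : s => cnum ω₁ ω₂ p i :=
        funext fun i => nev_ee v i
      rw [← e]
      exact hs2
    refine le_trans ?_ (card_le_trdeg_rat hs3 _ fun i _ =>
      IntermediateField.subset_adjoin _ _ ⟨i, rfl⟩)
    exact_mod_cast hs1
  · obtain ⟨s, hs1, hs2, hs3⟩ := coreK (O := O) n v hv hτ' hind
    have hs4 : AlgebraicIndependent K (fun i : s => cnum ω₁ ω₂ p i) := by
      have e : (fun i : s => nev v (ee n i)) = fun i : s => cnum ω₁ ω₂ p i :=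
        funext fun i => nev_ee v i
      rw [← e]
      exact hs1
    have hle := card_le_trdeg hs4 (IntermediateField.adjoin K (Set.range (cnum ω₁ ω₂ p)))
      fun i _ => IntermediateField.subset_adjoin _ _ ⟨i, rfl⟩
    rw [F_eq h]
    refine ⟨le_trans ?_ hle, fun hper => le_trans ?_ hle⟩
    · exact_mod_cast hs2
    · rcases hs3 with hs3 | ⟨k, k', x, x', hd, hk, hk'⟩
      · exact_mod_cast hs3
      · exfalso
        apply hper
        have hmem : ∀ m : Fin n → ℤ, ∑ i, (m i : ℂ) * p i ∈ Submodule.span ℚ (Set.range p) := by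
          intro m
          refine Submodule.sum_mem _ fun i _ => ?_
          have e : (m i : ℂ) * p i = (m i : ℚ) • p i := by
            rw [Algebra.smul_def]
            simp
          rw [e]
          exact Submodule.smul_mem _ _ (Submodule.subset_span ⟨i, rfl⟩)
        have hx : lat ω₁ ω₂ x ∈ Submodule.span ℚ (Set.range p) := by
          have := hmem k
          rwa [show ∑ i, (k i : ℂ) * p i = lat ω₁ ω₂ x from hk] at this
        have hx' : lat ω₁ ω₂ x' ∈ Submodule.span ℚ (Set.range p) := by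
          have := hmem k'
          rwa [show ∑ i, (k' i : ℂ) * p i = lat ω₁ ω₂ x' from hk'] at this
        have hd' : ((x.1 : ℂ) * x'.2 - x.2 * x'.1) ≠ 0 := by exact_mod_cast hd
        have hq : ((x.1 : ℚ) * x'.2 - x.2 * x'.1) ≠ 0 := by exact_mod_cast hd
        constructor
        · have e : ω₁ = ((x'.2 : ℚ) / ((x.1 : ℚ) * x'.2 - x.2 * x'.1)) • lat ω₁ ω₂ x -
              ((x.2 : ℚ) / ((x.1 : ℚ) * x'.2 - x.2 * x'.1)) • lat ω₁ ω₂ x' := by
            rw [Algebra.smul_def, Algebra.smul_def]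
            simp only [lat, eq_ratCast, Rat.cast_div, Rat.cast_sub, Rat.cast_mul, Rat.cast_intCast]
            rw [div_mul_eq_mul_div, div_mul_eq_mul_div, ← sub_div, eq_div_iff hd']
            ring
          rw [e]
          exact Submodule.sub_mem _ (Submodule.smul_mem _ _ hx) (Submodule.smul_mem _ _ hx')
        · have e : ω₂ = ((x.1 : ℚ) / ((x.1 : ℚ) * x'.2 - x.2 * x'.1)) • lat ω₁ ω₂ x' -
              ((x'.1 : ℚ) / ((x.1 : ℚ) * x'.2 - x.2 * x'.1)) • lat ω₁ ω₂ x := by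
            rw [Algebra.smul_def, Algebra.smul_def]
            simp only [lat, eq_ratCast, Rat.cast_div, Rat.cast_sub, Rat.cast_mul, Rat.cast_intCast]
            rw [div_mul_eq_mul_div, div_mul_eq_mul_div, ← sub_div, eq_div_iff hd']
            ring
          rw [e]
          exact Submodule.sub_mem _ (Submodule.smul_mem _ _ hx') (Submodule.smul_mem _ _ hx)

theorem ecl_empty_le {K : Subfield ℂ} (hK : EllClosed K) : ecl ∅ ≤ K :=
  ecl_le hK (Set.empty_subset _)

theorem ecl_lower {z : ℂ} (hz : z ∈ ecl ∅) : IsLowerElem z := E0_lower hz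

end Pool.Agent.EllCL
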