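import Pool.Agent.EllCL.Plain
import Pool.Agent.Schn.FracInd

/-! # The relative Schanuel inequality for all lattices of shape in the field -/

open Cardinal

namespace Pool.Agent.EllCL

open Pool.Agent.EllSch

theorem kfield_eq (a b : ℂ) : kfield a b = Subfield.closure (EndL a b : Set ℂ) := rfl

/-- endomorphisms of a lattice are algebraic numbers -/
theorem end_mem_all (O : CF) {a b : ℂ} (h : Ind a b) {α : ℂ} (hα : α ∈ EndL a b) : α ∈ O.K := by
  obtain ⟨t, k, htk, -⟩ := DerC.quad h hα
  refine EF_algClosed (O := O) ?_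
  have hint : IsIntegral ℤ α := by
    refine ⟨Polynomial.X ^ 2 - Polynomial.C t * Polynomial.X + Polynomial.C k, ?_, ?_⟩
    · monicity!
    · simp only [Polynomial.eval₂_add, Polynomial.eval₂_sub, Polynomial.eval₂_mul,
        Polynomial.eval₂_pow, Polynomial.eval₂_X, Polynomial.eval₂_C]
      simp only [algebraMap_int_eq, eq_intCast]
      rw [htk]
      ring
  exact (hint.tower_top (A := EF O)).isAlgebraic

theorem kfield_le (O : CF) {a b : ℂ} (h : Ind a b) : kfield a b ≤ O.K := by
  rw [kfield_eq]
  exact Subfield.closure_le.2 fun x hx => end_mem_all O h hx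

/-- the `k`-space of the `z` with `z / a` in the field -/
def WK (O : CF) {a b : ℂ} (h : Ind a b) : Submodule (kfield a b) ℂ where
  carrier := {z | z / a ∈ O.K}
  add_mem' := fun hx hy => by
    show _ / a ∈ O.K
    rw [add_div]
    exact O.K.add_mem hx hy
  zero_mem' := by
    show _ / a ∈ O.K
    rw [zero_div]
    exact O.K.zero_mem
  smul_mem' := fun c x hx => by
    show _ / a ∈ O.K
    rw [Subfield.smul_def, smul_eq_mul, mul_div_assoc]
    exact O.K.mul_mem (kfield_le O h c.2) hx

theorem mem_WK (O : CF) {a b : ℂ} (h : Ind a b) {z : ℂ} : z ∈ WK O h ↔ z / a ∈ O.K := Iff.rfl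

/-- a maximal subfamily which is independent modulo the field -/
theorem exists_sub (O : CF) {a b : ℂ} (h : Ind a b) {n : ℕ} {p : Fin n → ℂ}
    (hp : LinearIndependent (kfield a b) p) :
    ∃ (r : ℕ) (e : Fin r → Fin n), Function.Injective e ∧
      r + Module.finrank (kfield a b)
        (Submodule.span (kfield a b) (Set.range p) ⊓ WK O h : Submodule (kfield a b) ℂ) = n ∧
      ∀ α : Fin r → ℂ, (∀ i, α i ∈ EndL a b) → (∑ i, α i * p (e i)) / a ∈ O.K → α = 0 := by
  classical
  set W := WK O h with hW
  set S := Submodule.span (kfield a b) (Set.range p) with hS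
  have hfin : FiniteDimensional (kfield a b) S :=
    FiniteDimensional.span_of_finite _ (Set.finite_range _)
  obtain ⟨κ, e, he, hspan, hli⟩ := exists_linearIndependent' (kfield a b)
    (fun i => W.mkQ (p i))
  have : Finite κ := Finite.of_injective e he
  have : Fintype κ := Fintype.ofFinite κ
  let σ : Fin (Fintype.card κ) ≃ κ := (Fintype.equivFin κ).symm
  refine ⟨Fintype.card κ, fun i => e (σ i), fun i j hij => σ.injective (he hij), ?_, ?_⟩
  · let f : S →ₗ[kfield a b] (ℂ ⧸ W) := W.mkQ.comp S.subtype
    have h1 := LinearMap.finrank_range_add_finrank_ker f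
    have h2 : Module.finrank (kfield a b) S = n := by
      rw [hS, finrank_span_eq_card hp, Fintype.card_fin]
    have h3 : LinearMap.range f = Submodule.span (kfield a b) (Set.range fun i => W.mkQ (p i)) := by
      rw [LinearMap.range_comp, Submodule.range_subtype, hS, Submodule.map_span, ← Set.range_comp]
      rfl
    have h4 : Module.finrank (kfield a b) (LinearMap.range f) = Fintype.card κ := by
      rw [h3, ← hspan]
      exact finrank_span_eq_card hli
    have h5 : Module.finrank (kfield a b) (LinearMap.ker f) =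
        Module.finrank (kfield a b) (S ⊓ W : Submodule (kfield a b) ℂ) := by
      have h6 : LinearMap.ker f = Submodule.comap S.subtype W := by
        rw [LinearMap.ker_comp, Submodule.ker_mkQ]
      rw [h6, ← Submodule.finrank_map_subtype_eq S (Submodule.comap S.subtype W),
        Submodule.map_comap_subtype]
    rw [← h5, ← h4, h1, h2]
  · intro α hα h0
    rw [Fintype.linearIndependent_iff] at hli
    have h1 := hli (fun i => ⟨α (σ.symm i), Subfield.subset_closure (hα _)⟩) (by
      have h2 : (∑ i, α i * p (e (σ i))) ∈ W := h0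
      have h3 : W.mkQ (∑ i, α i * p (e (σ i))) = 0 := by
        rw [Submodule.mkQ_apply]
        exact (Submodule.Quotient.mk_eq_zero W).2 h2
      rw [map_sum] at h3
      rw [← h3, ← Equiv.sum_comp σ]
      refine Finset.sum_congr rfl fun i _ => ?_
      simp only [Equiv.symm_apply_apply, Function.comp_apply]
      rw [← map_smul, Subfield.smul_def, smul_eq_mul])
    funext i
    have h2 := congrArg Subtype.val (h1 (σ i))
    simp only [Equiv.symm_apply_apply] at h2
    exact h2

/-- the relative Schanuel inequality for shapes in the field -/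
theorem relative (O : CF) {a b : ℂ} (h : Ind a b) (hτ : b / a ∈ O.K) {n : ℕ} {p : Fin n → ℂ}
    (hp : LinearIndependent (kfield a b) p)
    (hnE : ¬ (a ∈ O.K ∧ b ∈ O.K ∧ ∀ i, p i ∈ O.K)) :
    ∃ s : Finset (Fin 2 ⊕ (Fin 3 × Fin n)),
      2 * (n - Module.finrank (kfield a b)
        (Submodule.span (kfield a b) (Set.range p) ⊓ WK O h : Submodule (kfield a b) ℂ)) + 1 ≤
        s.card ∧ AlgebraicIndependent O.K (fun i : s => cnum a b p i) := by
  classical
  have ha0 : a ≠ 0 := by
    rintro rfl
    exact h (by simp)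
  have hc : a⁻¹ ≠ 0 := inv_ne_zero ha0
  have hca : a⁻¹ * a ∈ O.K := by
    rw [inv_mul_cancel₀ ha0]
    exact O.K.one_mem
  have hcb : a⁻¹ * b ∈ O.K := by
    rw [mul_comm, ← div_eq_mul_inv]
    exact hτ
  have h' : Ind (a⁻¹ * a) (a⁻¹ * b) := ind_smul h hc
  obtain ⟨s₁, hs₁, hs₁'⟩ := Final2.exists_max2 (E := O.K) (cnum a b p)
  refine ⟨s₁, ?_, hs₁⟩
  have hmemK : ∀ x ∈ O.K, IsAlgebraic (IntermediateField.adjoin O.K (cnum a b p '' s₁)) x := by
    intro x hx
    have h1 : x ∈ IntermediateField.adjoin O.K (cnum a b p '' s₁) :=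
      (IntermediateField.adjoin O.K (cnum a b p '' s₁)).algebraMap_mem ⟨x, hx⟩
    exact isAlgebraic_algebraMap
      (⟨x, h1⟩ : IntermediateField.adjoin O.K (cnum a b p '' s₁))
  -- the scale is algebraic over the numbers
  have hcalg : IsAlgebraic (IntermediateField.adjoin O.K (cnum a b p '' s₁)) a⁻¹ := by
    by_cases hg2 : G2 a b = 0
    · have hg3 : G3 a b ≠ 0 := by
        intro h0
        apply disc_ne_zero h
        rw [hg2, h0]
        norm_num
      have h1 : G3 (a⁻¹ * a) (a⁻¹ * b) ∈ O.K := isPR_G3 h' hca hcb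
      have e : (a⁻¹) ^ 6 = G3 a b / G3 (a⁻¹ * a) (a⁻¹ * b) := by
        rw [G3_smul hc]
        field_simp
      refine IsAlgebraic.of_pow (by norm_num : 0 < 6) ?_
      rw [e]
      exact Essential.alg_div (hs₁' (Sum.inl 1)) (hmemK _ h1)
    · have h1 : G2 (a⁻¹ * a) (a⁻¹ * b) ∈ O.K := isPR_G2 h' hca hcb
      have e : (a⁻¹) ^ 4 = G2 a b / G2 (a⁻¹ * a) (a⁻¹ * b) := by
        rw [G2_smul hc]
        field_simp
      refine IsAlgebraic.of_pow (by norm_num : 0 < 4) ?_
      rw [e]
      exact Essential.alg_div (hs₁' (Sum.inl 0)) (hmemK _ h1)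
  obtain ⟨r, e, he, hr, hind⟩ := exists_sub O h hp
  have hrn : n - Module.finrank (kfield a b)
        (Submodule.span (kfield a b) (Set.range p) ⊓ WK O h : Submodule (kfield a b) ℂ) = r := by
    omega
  rw [hrn]
  rcases Nat.eq_zero_or_pos r with hr0 | hr0
  · -- all the points are in `a K`
    have hall : ∀ i, p i / a ∈ O.K := by
      have hS : FiniteDimensional (kfield a b) (Submodule.span (kfield a b) (Set.range p)) :=
        FiniteDimensional.span_of_finite _ (Set.finite_range _)
      have h2 : Module.finrank (kfield a b) (Submodule.span (kfield a b) (Set.range p)) = n := by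
        rw [finrank_span_eq_card hp, Fintype.card_fin]
      have h3 : (Submodule.span (kfield a b) (Set.range p) ⊓ WK O h : Submodule (kfield a b) ℂ) =
          Submodule.span (kfield a b) (Set.range p) := by
        apply Submodule.eq_of_le_of_finrank_eq inf_le_left
        rw [h2]
        omega
      intro i
      have h4 : p i ∈ (Submodule.span (kfield a b) (Set.range p) ⊓ WK O h :
          Submodule (kfield a b) ℂ) := by
        rw [h3]
        exact Submodule.subset_span ⟨i, rfl⟩
      exact h4.2
    have haE : a ∉ O.K := by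
      intro ha
      apply hnE
      refine ⟨ha, ?_, fun i => ?_⟩
      · have := O.K.mul_mem ha hτ
        rwa [mul_div_cancel₀ _ ha0] at this
      · have := O.K.mul_mem ha (hall i)
        rwa [mul_div_cancel₀ _ ha0] at this
    have hcE : a⁻¹ ∉ O.K := fun h1 => haE (by simpa using O.K.inv_mem h1)
    have hct : AlgebraicIndependent O.K (fun _ : Unit => a⁻¹) := by
      rw [algebraicIndependent_unique_type_iff]
      exact fun h1 => hcE (EF_algClosed (O := O) h1)
    have hle := Final2.card_le (k := O.K) (cnum a b p) s₁ (fun _ : Unit => a⁻¹) hct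
      (fun _ => hcalg)
    rw [Fintype.card_unit] at hle
    omega
  · obtain ⟨s, hs1, hs2⟩ := rel_all (O := O) h' hca hcb r (fun i => a⁻¹ * p (e i)) hr0 (by
      rw [EndL_smul hc]
      intro α hα h0
      apply hind α hα
      have e1 : (∑ i, α i * p (e i)) / a = ∑ i, α i * (a⁻¹ * p (e i)) := by
        rw [Finset.sum_div]
        exact Finset.sum_congr rfl fun i _ => by ring
      rw [e1]
      exact h0)
    have hle := Final2.card_le (k := O.K) (cnum a b p) s₁
      (fun i : s => pnum (a⁻¹ * a) (a⁻¹ * b) (fun i => a⁻¹ * p (e i)) i) hs2 (by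
        rintro ⟨⟨j, k⟩, -⟩
        fin_cases j
        · exact hcalg.mul (hs₁' (Sum.inr (0, e k)))
        · show IsAlgebraic _ (wp (a⁻¹ * a) (a⁻¹ * b) (a⁻¹ * p (e k)))
          rw [wp_smul hc]
          exact Essential.alg_div (hs₁' (Sum.inr (1, e k))) (hcalg.pow 2)
        · show IsAlgebraic _ (wz (a⁻¹ * a) (a⁻¹ * b) (a⁻¹ * p (e k)))
          rw [wz_smul hc]
          exact Essential.alg_div (hs₁' (Sum.inr (2, e k))) hcalg)
    rw [Fintype.card_coe] at hle
    omega

end Pool.Agent.EllCL
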