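import Pool.Agent.EllCL.Relative

/-! # Points of the span of a family of points -/

namespace Pool.Agent.EllCL

open Pool.Agent.EllSch

theorem natAbs_mul_mem {R : Subring ℂ} {k : ℤ} {x : ℂ} (h : (k : ℂ) * x ∈ R) :
    (k.natAbs : ℂ) * x ∈ R := by
  rcases Int.natAbs_eq k with h1 | h1
  · have h2 : (k : ℂ) = (k.natAbs : ℂ) := by
      conv_lhs => rw [h1]
      simp
    rwa [← h2]
  · have h2 : (k.natAbs : ℂ) = -(k : ℂ) := by
      conv_rhs => rw [h1]
      simp
    rw [h2, neg_mul]
    exact R.neg_mem h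

/-- the elements of `k` are quotients of endomorphisms by integers -/
theorem clear_den {a b : ℂ} (h : Ind a b) {x : ℂ} (hx : x ∈ kfield a b) :
    ∃ N : ℕ, 0 < N ∧ (N : ℂ) * x ∈ EndL a b := by
  rw [kfield_eq] at hx
  obtain ⟨y, hy, z, hz, hz0, hzy⟩ := Pool.Agent.Schn.frac_mem (EndL a b) hx
  obtain ⟨t, n, htn, -⟩ := DerC.quad h hz
  by_cases hn : n = 0
  · have h2 : z = t := by
      rw [hn] at htn
      have h3 : z * (z - t) = 0 := by
        rw [mul_sub]
        push_cast at htn
        linear_combination htn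
      exact sub_eq_zero.1 ((mul_eq_zero.1 h3).resolve_left hz0)
    have ht : t ≠ 0 := by
      rintro rfl
      exact hz0 (by simpa using h2)
    refine ⟨t.natAbs, Int.natAbs_pos.2 ht, natAbs_mul_mem ?_⟩
    rw [← h2, hzy]
    exact hy
  · refine ⟨n.natAbs, Int.natAbs_pos.2 hn, natAbs_mul_mem ?_⟩
    have h3 : (n : ℂ) * x = (t - z) * y := by
      rw [← hzy]
      linear_combination x * htn
    rw [h3]
    exact (EndL a b).mul_mem ((EndL a b).sub_mem (intCast_mem _ t) hz) hy

/-- a basis of a subspace of the span of the points consisting of points off the lattice which are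
commensurable with combinations of the points -/
theorem basis_off {a b : ℂ} (h : Ind a b) {n : ℕ} (p : Fin n → ℂ) (U : Submodule (kfield a b) ℂ)
    (hU : U ≤ Submodule.span (kfield a b) (Set.range p)) :
    ∃ q : Fin (Module.finrank (kfield a b) U) → ℂ, (∀ j, q j ∈ U) ∧ (∀ j, Off a b (q j)) ∧
      LinearIndependent (kfield a b) q ∧ Submodule.span (kfield a b) (Set.range q) = U ∧
      ∀ j, ∃ (l : ℕ) (α : Fin n → ℂ), 0 < l ∧ (∀ i, α i ∈ EndL a b) ∧
        (l : ℂ) * q j = ∑ i, α i * p i := by
  classical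
  have hfin : FiniteDimensional (kfield a b) (Submodule.span (kfield a b) (Set.range p)) :=
    FiniteDimensional.span_of_finite _ (Set.finite_range _)
  have hUfin : FiniteDimensional (kfield a b) U := Submodule.finiteDimensional_of_le hU
  let B := Module.finBasis (kfield a b) U
  let u : Fin (Module.finrank (kfield a b) U) → ℂ := fun j => (B j : ℂ)
  have hu0 : ∀ j, u j ≠ 0 := fun j h0 => B.ne_zero j (Subtype.ext h0)
  have hui : LinearIndependent (kfield a b) u :=
    B.linearIndependent.map' U.subtype (Submodule.ker_subtype U)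
  choose M hM hMoff using fun j => Red.exists_div_off h (hu0 j)
  have hM0 : ∀ j, (M j : ℂ) ≠ 0 := fun j => Nat.cast_ne_zero.2 (hM j).ne'
  let w : Fin (Module.finrank (kfield a b) U) → kfield a b := fun j =>
    (⟨(M j : ℂ), natCast_mem (kfield a b) (M j)⟩ : kfield a b)⁻¹
  have hw : ∀ j, (w j : ℂ) = (M j : ℂ)⁻¹ := fun j => rfl
  have hw0 : ∀ j, w j ≠ 0 := fun j h0 => by
    have h1 := congrArg (Subtype.val) h0
    rw [hw] at h1
    exact hM0 j (inv_eq_zero.1 h1)
  have hq : ∀ j, u j / M j = w j • u j := fun j => by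
    rw [Subfield.smul_def, smul_eq_mul, hw, div_eq_mul_inv, mul_comm]
  have hqU : ∀ j, u j / M j ∈ U := fun j => by
    rw [hq]
    exact U.smul_mem _ (B j).2
  have hqi : LinearIndependent (kfield a b) fun j => u j / M j := by
    rw [Fintype.linearIndependent_iff] at hui ⊢
    intro g hg j
    have h1 := hui (fun j => g j * w j) (by
      rw [← hg]
      refine Finset.sum_congr rfl fun j _ => ?_
      rw [hq, mul_smul]) j
    exact (mul_eq_zero.1 h1).resolve_right (hw0 j)
  refine ⟨fun j => u j / M j, hqU, hMoff, hqi, ?_, fun j => ?_⟩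
  · have hle : Submodule.span (kfield a b) (Set.range fun j => u j / M j) ≤ U := by
      rw [Submodule.span_le]
      rintro _ ⟨j, rfl⟩
      exact hqU j
    refine Submodule.eq_of_le_of_finrank_eq hle ?_
    rw [finrank_span_eq_card hqi, Fintype.card_fin]
  · have h1 : u j ∈ Submodule.span (kfield a b) (Set.range p) := hU (B j).2
    rw [Submodule.mem_span_range_iff_exists_fun] at h1
    obtain ⟨x, hx⟩ := h1
    choose N hN hNx using fun i => clear_den h (x i).2
    have hNN : ((∏ i, N i : ℕ) : ℂ) * u j = ∑ i, (((∏ i, N i : ℕ) : ℂ) * x i) * p i := by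
      rw [← hx, Finset.mul_sum]
      refine Finset.sum_congr rfl fun i _ => ?_
      rw [Subfield.smul_def, smul_eq_mul, mul_assoc]
    refine ⟨(∏ i, N i) * M j, fun i => ((∏ i, N i : ℕ) : ℂ) * x i,
      Nat.mul_pos (Finset.prod_pos fun i _ => hN i) (hM j), fun i => ?_, ?_⟩
    · have e : ((∏ i, N i : ℕ) : ℂ) * x i =
          ((∏ j ∈ Finset.univ.erase i, N j : ℕ) : ℂ) * (N i * x i) := by
        rw [← Finset.prod_erase_mul _ _ (Finset.mem_univ i), Nat.cast_mul, mul_assoc]
      show ((∏ i, N i : ℕ) : ℂ) * x i ∈ EndL a b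
      rw [e]
      exact (EndL a b).mul_mem (natCast_mem _ _) (hNx i)
    · rw [← hNN, Nat.cast_mul]
      have := hM0 j
      field_simp

end Pool.Agent.EllCL
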