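import Pool.Agent.EllCL.Span

/-! # Counting algebraically independent numbers in towers -/

open Cardinal

namespace Pool.Agent.EllCL

open Pool.Agent.EllSch

/-- the family `v` contains `N` numbers which are algebraically independent over `k` -/
def HasT (k : Type) [Field k] [Algebra k ℂ] {ι : Type} (v : ι → ℂ) (N : ℕ) : Prop :=
  ∃ s : Finset ι, N ≤ s.card ∧ AlgebraicIndependent k (fun i : s => v i)

theorem HasT.mono {k : Type} [Field k] [Algebra k ℂ] {ι : Type} {v : ι → ℂ} {N M : ℕ}
    (h : HasT k v N) (hM : M ≤ N) : HasT k v M := by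
  obtain ⟨s, h1, h2⟩ := h
  exact ⟨s, hM.trans h1, h2⟩

theorem alg_trans {k : Type} [Field k] [Algebra k ℂ] {S T : Set ℂ}
    (hT : ∀ x ∈ T, IsAlgebraic (IntermediateField.adjoin k S) x) {y : ℂ}
    (hy : IsAlgebraic (IntermediateField.adjoin k T) y) :
    IsAlgebraic (IntermediateField.adjoin k S) y := by
  have hle : IntermediateField.adjoin k T ≤
      (algebraicClosure (IntermediateField.adjoin k S) ℂ).restrictScalars k := by
    rw [IntermediateField.adjoin_le_iff]
    intro x hx
    exact mem_algebraicClosure_iff.2 (hT x hx)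
  have hy' : IsAlgebraic (algebraicClosure (IntermediateField.adjoin k S) ℂ) y :=
    hy.ringHom_of_comp_eq (IntermediateField.inclusion hle).toRingHom (RingHom.id ℂ)
      (IntermediateField.inclusion hle).injective rfl
  exact hy'.restrictScalars _

/-- change of the base field -/
theorem alg_base {k : Type} [Field k] [Algebra k ℂ] {S T : Set ℂ}
    (hT : ∀ x ∈ T, x ∈ IntermediateField.adjoin k S) {y : ℂ}
    (hy : IsAlgebraic (IntermediateField.adjoin ℚ T) y) :
    IsAlgebraic (IntermediateField.adjoin k S) y := by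
  have hle : (IntermediateField.adjoin ℚ T).toSubfield ≤
      (IntermediateField.adjoin k S).toSubfield := by
    intro x hx
    refine IntermediateField.adjoin_induction (F := ℚ) (s := T)
      (p := fun x _ => x ∈ (IntermediateField.adjoin k S).toSubfield)
      (fun x hx => hT x hx) (fun q => ?_) (fun x y _ _ h1 h2 => add_mem h1 h2)
      (fun x _ h1 => inv_mem h1) (fun x y _ _ h1 h2 => mul_mem h1 h2) hx
    rw [eq_ratCast (algebraMap ℚ ℂ) q]
    exact SubfieldClass.ratCast_mem _ q
  exact hy.ringHom_of_comp_eq (Subfield.inclusion hle) (RingHom.id ℂ)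
    (Subfield.inclusion hle).injective rfl

/-- numbers in an intermediate field `K₁` which are independent over `k`, together with numbers which
are independent over `K₁` -/
theorem add_tower {k : Type} [Field k] [Algebra k ℂ] {K₁ : Subfield ℂ} [Algebra k K₁]
    [IsScalarTower k K₁ ℂ] {ι κ : Type} [Fintype ι] [Fintype κ] {v : ι → ℂ} {x : κ → ℂ}
    (hx : AlgebraicIndependent k x) (hxK : ∀ j, x j ∈ K₁)
    (hxv : ∀ j, IsAlgebraic (IntermediateField.adjoin k (Set.range v)) (x j)) {N : ℕ}
    (h : HasT K₁ v N) : HasT k v (Fintype.card κ + N) := by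
  classical
  obtain ⟨s, hs1, hs2⟩ := h
  obtain ⟨s₁, hs₁, hs₁'⟩ := Final2.exists_max2 (E := k) v
  refine ⟨s₁, ?_, hs₁⟩
  have hu := hx.sumElim_of_tower (S := K₁) (by
    rintro _ ⟨j, rfl⟩
    exact ⟨⟨_, hxK j⟩, rfl⟩) hs2
  have hc := Final2.card_le (k := k) v s₁ _ hu (by
    rintro (i | j)
    · exact hs₁' i
    · refine alg_trans ?_ (hxv j)
      rintro _ ⟨i, rfl⟩
      exact hs₁' i)
  rw [Fintype.card_sum, Fintype.card_coe] at hc
  omega

/-- the rescaled numbers of commensurable points are algebraic over the numbers -/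
theorem alg_scaled {a b : ℂ} (h : Ind a b) {c : ℂ} (hc : c ≠ 0)
    (hcc : c ^ 4 = G2 a b ∨ c ^ 6 = G3 a b) {n : ℕ} {p : Fin n → ℂ} (hp : ∀ i, Off a b (p i))
    {m : ℕ} {q : Fin m → ℂ} (hq : ∀ j, Off a b (q j))
    (hpq : ∀ j, ∃ (l : ℕ) (α : Fin n → ℂ), 0 < l ∧ (∀ i, α i ∈ EndL a b) ∧
        (l : ℂ) * q j = ∑ i, α i * p i) {k : Type} [Field k] [Algebra k ℂ] (i) :
    IsAlgebraic (IntermediateField.adjoin k (Set.range (cnum a b p)))
      (cnum (c * a) (c * b) (fun j => c * q j) i) := by
  have h0 : ∀ x ∈ Set.range (cnum a b p),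
      x ∈ IntermediateField.adjoin k (Set.range (cnum a b p)) :=
    fun x hx => IntermediateField.subset_adjoin _ _ hx
  refine alg_base h0 ?_
  have h1 : ∀ i, IsAlgebraic (IntermediateField.adjoin ℚ (Set.range (cnum a b p)))
      (cnum a b p i) := fun i =>
    isAlgebraic_algebraMap (⟨cnum a b p i, IntermediateField.subset_adjoin _ _ ⟨i, rfl⟩⟩ :
      IntermediateField.adjoin ℚ (Set.range (cnum a b p)))
  have hcalg : IsAlgebraic (IntermediateField.adjoin ℚ (Set.range (cnum a b p))) c := by
    rcases hcc with h2 | h2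
    · exact IsAlgebraic.of_pow (by norm_num : 0 < 4) (by rw [h2]; exact h1 (Sum.inl 0))
    · exact IsAlgebraic.of_pow (by norm_num : 0 < 6) (by rw [h2]; exact h1 (Sum.inl 1))
  have h' : Ind (c * a) (c * b) := ind_smul h hc
  refine Red.algebraic_cnum h' (p := fun i => c * p i) (fun i => (off_smul hc _).2 (hp i))
    (fun j => (off_smul hc _).2 (hq j)) (fun j => ?_) ?_ i
  · obtain ⟨l, α, hl, hα, hlq⟩ := hpq j
    refine ⟨l, α, hl, fun i => by rw [EndL_smul hc]; exact hα i, ?_⟩
    have e : (l : ℂ) * (c * q j) = c * (l * q j) := by ring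
    rw [e, hlq, Finset.mul_sum]
    exact Finset.sum_congr rfl fun i _ => by ring
  · rintro (j | ⟨j, k⟩)
    · fin_cases j
      · show IsAlgebraic _ (G2 (c * a) (c * b))
        rw [G2_smul hc]
        exact Essential.alg_div (h1 (Sum.inl 0)) (hcalg.pow 4)
      · show IsAlgebraic _ (G3 (c * a) (c * b))
        rw [G3_smul hc]
        exact Essential.alg_div (h1 (Sum.inl 1)) (hcalg.pow 6)
    · fin_cases j
      · exact hcalg.mul (h1 (Sum.inr (0, k)))
      · show IsAlgebraic _ (wp (c * a) (c * b) (c * p k))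
        rw [wp_smul hc]
        exact Essential.alg_div (h1 (Sum.inr (1, k))) (hcalg.pow 2)
      · show IsAlgebraic _ (wz (c * a) (c * b) (c * p k))
        rw [wz_smul hc]
        exact Essential.alg_div (h1 (Sum.inr (2, k))) hcalg

end Pool.Agent.EllCL
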